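import Pool.Agent.Work.MP_0e0306_pr.PD

/-!
# Passing to the differenced sequence changes the traces by a bounded amount
-/

open Finset Matrix

namespace FGN

/-- difference matrix -/
def Dm (n : ℕ) : Matrix (Fin n) (Fin (n + 1)) ℝ :=
  Matrix.of fun i j => (if j = i.castSucc then 1 else 0) - (if j = i.succ then 1 else 0)

lemma Dm_mul {m : Type*} (n : ℕ) (A : Matrix (Fin (n + 1)) m ℝ) (i : Fin n) (j : m) :
    (Dm n * A) i j = A i.castSucc j - A i.succ j := by
  simp [Dm, Matrix.mul_apply, sub_mul, Finset.sum_sub_distrib]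

lemma mul_DmT {m : Type*} (n : ℕ) (A : Matrix m (Fin (n + 1)) ℝ) (i : m) (j : Fin n) :
    (A * (Dm n)ᵀ) i j = A i j.castSucc - A i j.succ := by
  simp [Dm, Matrix.mul_apply, mul_sub, Finset.sum_sub_distrib]

lemma Dm_mulVec (n : ℕ) (v : Fin (n + 1) → ℝ) (i : Fin n) :
    (Dm n *ᵥ v) i = v i.castSucc - v i.succ := by
  simp [Dm, Matrix.mulVec, dotProduct, sub_mul, Finset.sum_sub_distrib]

lemma Dm_TM (a : ℝ) (n k : ℕ) : Dm n * TM (gam a) (n + 1) k * (Dm n)ᵀ = TM (gam' a) n k := by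
  ext i j
  rw [mul_DmT, Dm_mul, Dm_mul]
  simp only [TM, Matrix.of_apply, gam', Fin.val_castSucc, Fin.val_succ]
  push_cast
  have e1 : (i : ℤ) + 1 - j + k = (i : ℤ) - j + k + 1 := by ring
  have e2 : (i : ℤ) - (j + 1) + k = (i : ℤ) - j + k - 1 := by ring
  have e3 : (i : ℤ) + 1 - (j + 1) + k = (i : ℤ) - j + k := by ring
  rw [e1, e2, e3]
  ring

lemma eq_of_Dm (n : ℕ) (v : Fin (n + 1) → ℝ) (h : ∀ i : Fin n, v i.castSucc = v i.succ) (i) :
    v i = v 0 := by
  induction i using Fin.induction with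
  | zero => rfl
  | succ i ih => rw [← h i, ih]

lemma Dm_inj (n : ℕ) : Function.Injective (Dm n).vecMul := by
  have h1 : ∀ z : Fin n → ℝ, z ᵥ* Dm n = 0 → z = 0 := by
    intro z hz
    have h2 : ∀ m (hm : m < n), z ⟨m, hm⟩ = 0 := by
      intro m
      induction m using Nat.strong_induction_on with
      | _ m ih =>
        intro hm
        have h3 : (z ᵥ* Dm n) (Fin.castSucc ⟨m, hm⟩) = 0 := by rw [hz]; rfl
        simp only [Matrix.vecMul, dotProduct, Dm, Matrix.of_apply, mul_sub,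
          Finset.sum_sub_distrib] at h3
        rw [Finset.sum_eq_single (⟨m, hm⟩ : Fin n)] at h3
        · rw [Finset.sum_eq_zero] at h3
          · simpa using h3
          · intro i _
            by_cases hc : Fin.castSucc (⟨m, hm⟩ : Fin n) = i.succ
            · have h4 : m = i.val + 1 := by
                have := congrArg Fin.val hc
                simpa using this
              have h5 := ih i.val (by omega) i.isLt
              have h6 : z i = 0 := h5
              rw [h6, zero_mul]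
            · rw [if_neg hc, mul_zero]
        · intro i _ hi
          rw [if_neg, mul_zero]
          intro hc
          apply hi
          exact (Fin.castSucc_injective n hc).symm
        · simp
    funext i
    exact h2 i.val i.isLt
  intro x y hxy
  have h3 : (x - y) ᵥ* Dm n = 0 := by
    rw [Matrix.sub_vecMul]
    exact sub_eq_zero.mpr hxy
  exact sub_eq_zero.mp (h1 _ h3)

section main

variable {a : ℝ} (n : ℕ)

/-- the all-ones vector -/
def one' (n : ℕ) : Fin (n + 1) → ℝ := fun _ => 1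

lemma Dm_one : Dm n *ᵥ one' n = 0 := by
  funext i
  rw [Dm_mulVec]
  simp [one']

lemma tr_vec (κ : Fin (n + 1) → ℝ) (A : Matrix (Fin (n + 1)) (Fin (n + 1)) ℝ) :
    (Matrix.vecMulVec κ κ * A).trace = κ ⬝ᵥ (A *ᵥ κ) := by
  simp only [Matrix.trace, Matrix.diag_apply, Matrix.mul_apply, Matrix.vecMulVec_apply, dotProduct,
    Matrix.mulVec, Finset.mul_sum]
  rw [Finset.sum_comm]
  refine Finset.sum_congr rfl fun i _ => Finset.sum_congr rfl fun j _ => ?_
  ring

/-- the inverse covariance splits off a rank one part -/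
lemma split_inv (ha1 : 1 < a) (ha2 : a < 2) : ∃ κ : Fin (n + 1) → ℝ,
    κ ⬝ᵥ (TM (gam a) (n + 1) 0 *ᵥ κ) = 1 ∧
    (TM (gam a) (n + 1) 0)⁻¹ = (Dm n)ᵀ * (TM (gam' a) n 0)⁻¹ * Dm n + Matrix.vecMulVec κ κ := by
  set T := TM (gam a) (n + 1) 0 with hT
  set T' := TM (gam' a) n 0 with hT'
  have hPD : T.PosDef := gam_posDef_B ha1 ha2 (n + 1)
  have hdet : IsUnit T.det := (Matrix.isUnit_iff_isUnit_det T).mp hPD.isUnit
  have hsymm : Tᵀ = T := TM_isSymm (gam_even a) (n + 1)
  have hsymmi : (T⁻¹)ᵀ = T⁻¹ := by rw [Matrix.transpose_nonsing_inv, hsymm]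
  have hT'eq : T' = Dm n * T * (Dm n)ᵀ := (Dm_TM a n 0).symm
  have hT'det : IsUnit T'.det := by
    have h1 : (Dm n * T * (Dm n)ᴴ).PosDef := hPD.mul_mul_conjTranspose_same (Dm_inj n)
    rw [Matrix.conjTranspose_eq_transpose_of_trivial, ← hT'eq] at h1
    exact (Matrix.isUnit_iff_isUnit_det T').mp h1.isUnit
  have hsymm' : T'ᵀ = T' := TM_isSymm (sym_gam' ha1 ha2).even n
  have hsymmi' : (T'⁻¹)ᵀ = T'⁻¹ := by rw [Matrix.transpose_nonsing_inv, hsymm']
  set g : Fin (n + 1) → ℝ := T⁻¹ *ᵥ one' n with hg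
  set s : ℝ := one' n ⬝ᵥ g with hs
  have hs0 : 0 < s := by
    have h1 := hPD.inv.dotProduct_mulVec_pos (x := one' n) (by
      intro hc
      have := congrFun hc 0
      simp [one'] at this)
    simpa using h1
  have hsq : Real.sqrt s * Real.sqrt s = s := Real.mul_self_sqrt hs0.le
  have hsq0 : Real.sqrt s ≠ 0 := (Real.sqrt_pos.mpr hs0).ne'
  set κ : Fin (n + 1) → ℝ := (Real.sqrt s)⁻¹ • g with hκ
  have hTg : T *ᵥ g = one' n := by
    rw [hg, Matrix.mulVec_mulVec, Matrix.mul_nonsing_inv _ hdet, Matrix.one_mulVec]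
  have hTκ : T *ᵥ κ = (Real.sqrt s)⁻¹ • one' n := by
    rw [hκ, Matrix.mulVec_smul, hTg]
  refine ⟨κ, ?_, ?_⟩
  · rw [hTκ, hκ, dotProduct_smul, smul_dotProduct, dotProduct_comm, ← hs]
    simp only [smul_eq_mul]
    field_simp
    rw [Real.sq_sqrt hs0.le]
  · set Q := (Dm n)ᵀ * T'⁻¹ * Dm n with hQ
    set X := T⁻¹ - Q - Matrix.vecMulVec κ κ with hX
    have h1 : Dm n * (T * X) = 0 := by
      rw [hX, Matrix.mul_sub, Matrix.mul_sub, Matrix.mul_sub, Matrix.mul_sub,
        Matrix.mul_nonsing_inv _ hdet, Matrix.mul_one]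
      have h2 : Dm n * (T * Q) = Dm n := by
        rw [hQ]
        calc Dm n * (T * ((Dm n)ᵀ * T'⁻¹ * Dm n)) = (Dm n * T * (Dm n)ᵀ) * T'⁻¹ * Dm n := by
              simp only [Matrix.mul_assoc]
          _ = Dm n := by
              rw [← hT'eq, Matrix.mul_nonsing_inv _ hT'det, Matrix.one_mul]
      have h3 : Dm n * (T * Matrix.vecMulVec κ κ) = 0 := by
        rw [Matrix.mul_vecMulVec, hTκ, Matrix.mul_vecMulVec, Matrix.mulVec_smul, Dm_one, smul_zero]
        ext i j
        simp [Matrix.vecMulVec_apply]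
      rw [h2, h3]
      simp
    set x : Fin (n + 1) → ℝ := fun j => (T * X) 0 j with hx
    have h2 : T * X = Matrix.vecMulVec (one' n) x := by
      ext i j
      rw [Matrix.vecMulVec_apply]
      have h3 := eq_of_Dm n (fun i => (T * X) i j) (fun i => by
        have := congrFun (congrFun h1 i) j
        rw [Dm_mul] at this
        simpa [sub_eq_zero] using this) i
      simp only [one', one_mul, hx]
      exact h3
    have h3 : X = Matrix.vecMulVec g x := by
      calc X = T⁻¹ * (T * X) := by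
            rw [← Matrix.mul_assoc, Matrix.nonsing_inv_mul _ hdet, Matrix.one_mul]
        _ = Matrix.vecMulVec g x := by rw [h2, Matrix.mul_vecMulVec]
    have h4 : one' n ᵥ* X = 0 := by
      rw [hX, Matrix.vecMul_sub, Matrix.vecMul_sub]
      have h5 : one' n ᵥ* T⁻¹ = g := by
        rw [← hsymmi, Matrix.vecMul_transpose]
      have h6 : one' n ᵥ* Q = 0 := by
        rw [hQ, ← Matrix.vecMul_vecMul, ← Matrix.vecMul_vecMul, Matrix.vecMul_transpose, Dm_one]
        simp
      have h7 : one' n ᵥ* Matrix.vecMulVec κ κ = g := by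
        rw [Matrix.vecMul_vecMulVec, hκ, dotProduct_smul, ← hs]
        simp only [smul_eq_mul]
        rw [smul_smul]
        have : (Real.sqrt s)⁻¹ * s * (Real.sqrt s)⁻¹ = 1 := by
          nth_rewrite 2 [← hsq]
          field_simp
        simp [this]
      rw [h5, h6, h7]
      simp
    have h5 : x = 0 := by
      rw [h3, Matrix.vecMul_vecMulVec] at h4
      rw [← hs] at h4
      have := smul_eq_zero.mp h4
      rcases this with h6 | h6
      · exact absurd h6 hs0.ne'
      · exact h6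
    have h6 : X = 0 := by
      rw [h3, h5]
      ext i j
      simp [Matrix.vecMulVec_apply]
    have h7 : T⁻¹ - Q - Matrix.vecMulVec κ κ = 0 := by rw [← hX]; exact h6
    rw [sub_sub, sub_eq_zero] at h7
    exact h7

/-- the joint form of two blocks is nonnegative -/
lemma block_nonneg (ha1 : 1 < a) (ha2 : a < 2) (N k : ℕ) (u v : Fin N → ℝ) :
    0 ≤ u ⬝ᵥ (TM (gam a) N 0 *ᵥ u) + 2 * (u ⬝ᵥ (TM (gam a) N k *ᵥ v)) +
      v ⬝ᵥ (TM (gam a) N 0 *ᵥ v) := by
  have h1 := gam_form ha1 ha2 (ι := Fin N ⊕ Fin N)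
    (Sum.elim (fun i : Fin N => (i : ℤ) + k) (fun i : Fin N => (i : ℤ))) (Sum.elim u v)
  have h2 := gam_form ha1 ha2 (ι := Fin N ⊕ Fin N)
    (Sum.elim (fun i : Fin N => (i : ℤ) + k) (fun i : Fin N => (i : ℤ))) (Sum.elim u v)
  have h0 : 0 ≤ (gam a 2 - 2 * gam a 1 + gam a 0) * ∑ s, ∑ t, (Sum.elim u v s) * (Sum.elim u v t) *
      (if Sum.elim (fun i : Fin N => (i : ℤ) + k) (fun i : Fin N => (i : ℤ)) s =
        Sum.elim (fun i : Fin N => (i : ℤ) + k) (fun i : Fin N => (i : ℤ)) t then (1 : ℝ)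
        else 0) := by
    refine mul_nonneg (conv_pos ha1 ha2).le ?_
    have h3 := tri_nonneg (Sum.elim (fun i : Fin N => (i : ℤ) + k) (fun i : Fin N => (i : ℤ)))
      (Sum.elim u v) 1
    refine le_trans h3 (le_of_eq ?_)
    refine Finset.sum_congr rfl fun s _ => Finset.sum_congr rfl fun t _ => ?_
    congr 1
    split_ifs with h6
    · rw [h6]; simp
    · rw [Nat.cast_eq_zero]
      omega
  have h3 := h0.trans h1
  refine le_trans h3 (le_of_eq ?_)
  simp only [Fintype.sum_sum_type, Sum.elim_inl, Sum.elim_inr, dotProduct, Matrix.mulVec, TM,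
    Matrix.of_apply, Nat.cast_zero, add_zero, Finset.mul_sum, Finset.sum_add_distrib]
  have e1 : ∑ i : Fin N, ∑ j : Fin N, u i * u j * gam a ((i : ℤ) + k - (j + k)) =
      ∑ i : Fin N, ∑ j : Fin N, u i * (gam a ((i : ℤ) - j) * u j) := by
    refine Finset.sum_congr rfl fun i _ => Finset.sum_congr rfl fun j _ => ?_
    rw [add_sub_add_right_eq_sub]; ring
  have e2 : ∑ i : Fin N, ∑ j : Fin N, u i * v j * gam a ((i : ℤ) + k - j) =
      ∑ i : Fin N, ∑ j : Fin N, u i * (gam a ((i : ℤ) - j + k) * v j) := by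
    refine Finset.sum_congr rfl fun i _ => Finset.sum_congr rfl fun j _ => ?_
    have : (i : ℤ) + k - j = (i : ℤ) - j + k := by ring
    rw [this]; ring
  have e3 : ∑ i : Fin N, ∑ j : Fin N, v i * u j * gam a ((i : ℤ) - (j + k)) =
      ∑ i : Fin N, ∑ j : Fin N, u i * (gam a ((i : ℤ) - j + k) * v j) := by
    rw [Finset.sum_comm]
    refine Finset.sum_congr rfl fun i _ => Finset.sum_congr rfl fun j _ => ?_
    have : gam a ((j : ℤ) - (i + k)) = gam a ((i : ℤ) - j + k) := by
      rw [← gam_even]; congr 1; ring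
    rw [this]; ring
  have e4 : ∑ i : Fin N, ∑ j : Fin N, v i * v j * gam a ((i : ℤ) - j) =
      ∑ i : Fin N, ∑ j : Fin N, v i * (gam a ((i : ℤ) - j) * v j) := by
    refine Finset.sum_congr rfl fun i _ => Finset.sum_congr rfl fun j _ => ?_
    ring
  rw [e1, e2, e3, e4]
  have e5 : ∑ i : Fin N, ∑ j : Fin N, 2 * (u i * (gam a ((i : ℤ) - j + k) * v j)) =
      2 * ∑ i : Fin N, ∑ j : Fin N, u i * (gam a ((i : ℤ) - j + k) * v j) := by
    simp only [Finset.mul_sum]
  rw [e5]
  ring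

end main

end FGN
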