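import Pool.Agent.Work.MP_0e0306_pr.Defs

/-!
# Comparison of the weights with the Green function
-/

open Finset

namespace Pool.Agent.Work.MP_0e0306_pr

/-- embedding of the window -/
def Comp.emb (N : ℕ) : Fin N ↪ ℤ := ⟨fun i => (i : ℤ), fun a b h => by
  simp only [Nat.cast_inj] at h; exact Fin.ext h⟩

theorem Comp.hasSum_mass (p : ℕ → ℝ) (hp0 : p 0 = 0) (hp : HasSum p (1 / 2)) (k : ℤ) :
    HasSum (fun j : ℤ => p (k - j).natAbs) 1 := by
  have h1 : HasSum (fun n : ℕ => (fun j : ℤ => p j.natAbs) (n : ℤ)) (1 / 2) := by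
    simpa using hp
  have h2 : HasSum (fun n : ℕ => (fun j : ℤ => p j.natAbs) (-(n : ℤ))) (1 / 2) := by
    simpa using hp
  have h3 := HasSum.of_nat_of_neg (f := fun j : ℤ => p j.natAbs) h1 h2
  have h4 : (1 : ℝ) / 2 + 1 / 2 - (fun j : ℤ => p j.natAbs) 0 = 1 := by
    simp [hp0]; norm_num
  rw [h4] at h3
  exact (Equiv.subLeft k).hasSum_iff.2 h3

theorem Comp.row_lt (p : ℕ → ℝ) (hp0 : p 0 = 0) (hpos : ∀ m, 1 ≤ m → 0 < p m)
    (hp : HasSum p (1 / 2)) (N : ℕ) (k : Fin N) :
    ∑ i : Fin N, p ((k : ℤ) - (i : ℤ)).natAbs < 1 := by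
  have hnn : ∀ m, 0 ≤ p m := fun m => by
    by_cases hm : m = 0
    · rw [hm, hp0]
    · exact (hpos m (by omega)).le
  have h1 := sum_le_hasSum (insert (N : ℤ) (univ.map (Comp.emb N))) (fun i _ => hnn _)
    (Comp.hasSum_mass p hp0 hp k)
  rw [sum_insert, sum_map] at h1
  · have h2 : 0 < p ((k : ℤ) - (N : ℤ)).natAbs := hpos _ (by have := k.2; omega)
    simp only [Comp.emb, Function.Embedding.coeFn_mk] at h1
    linarith
  · simp only [mem_map, mem_univ, true_and, Comp.emb, Function.Embedding.coeFn_mk]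
    rintro ⟨a, ha⟩
    have := a.2
    omega

theorem Comp.nonneg_of (p : ℕ → ℝ) (hp0 : p 0 = 0) (hpos : ∀ m, 1 ≤ m → 0 < p m)
    (hp : HasSum p (1 / 2)) (N : ℕ) (u : Fin N → ℝ)
    (hu : ∀ k : Fin N, 0 ≤ u k - ∑ i : Fin N, p ((k : ℤ) - (i : ℤ)).natAbs * u i) (k : Fin N) :
    0 ≤ u k := by
  have hnn : ∀ m, 0 ≤ p m := fun m => by
    by_cases hm : m = 0
    · rw [hm, hp0]
    · exact (hpos m (by omega)).le
  obtain ⟨m, -, hmin⟩ := Finset.exists_min_image univ u ⟨k, mem_univ k⟩
  by_contra hcon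
  push Not at hcon
  have hm : u m < 0 := lt_of_le_of_lt (hmin k (mem_univ k)) hcon
  have h1 := hu m
  have h2 : ∑ i : Fin N, p ((m : ℤ) - (i : ℤ)).natAbs * u m
      ≤ ∑ i : Fin N, p ((m : ℤ) - (i : ℤ)).natAbs * u i :=
    sum_le_sum fun i _ => mul_le_mul_of_nonneg_left (hmin i (mem_univ i)) (hnn _)
  rw [← sum_mul] at h2
  have h3 := Comp.row_lt p hp0 hpos hp N m
  nlinarith

theorem weights_le (p : ℕ → ℝ) (hp0 : p 0 = 0) (hpos : ∀ m, 1 ≤ m → 0 < p m)
    (hp : HasSum p (1 / 2)) (g : ℤ → ℝ) (hg0 : g 0 = 1) (hg : ∀ m : ℤ, m ≠ 0 → g m = - p m.natAbs)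
    (G : ℤ → ℝ) (hGn : ∀ m, 0 ≤ G m)
    (hG : ∀ m : ℤ, HasSum (fun j : ℤ => p j.natAbs * G (m - j)) (G m - if m = 0 then 1 else 0))
    (N : ℕ) :
    IsUnit (toep g N).det ∧ ∀ w : ℤ → Fin N → ℝ, IsWt g N w →
      ∀ (x : ℤ) (i : Fin N), x < 0 →
        |w x i| ≤ ∑ j : Fin N, G ((i : ℤ) - (j : ℤ)) * p (((j : ℤ) - x).natAbs) := by
  have hnn : ∀ m, 0 ≤ p m := fun m => by
    by_cases hm : m = 0
    · rw [hm, hp0]
    · exact (hpos m (by omega)).le
  -- the action of the Toeplitz matrix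
  have hT : ∀ (u : Fin N → ℝ) (k : Fin N), ∑ i : Fin N, u i * g ((i : ℤ) - (k : ℤ))
      = u k - ∑ i : Fin N, p ((k : ℤ) - (i : ℤ)).natAbs * u i := by
    intro u k
    have h1 : ∀ i : Fin N, u i * g ((i : ℤ) - (k : ℤ))
        = (if i = k then u k else 0) - p ((k : ℤ) - (i : ℤ)).natAbs * u i := by
      intro i
      by_cases hik : i = k
      · subst hik
        simp [hg0, hp0]
      · have h2 : (i : ℤ) - (k : ℤ) ≠ 0 := by
          intro h0
          exact hik (Fin.ext (by omega))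
        rw [hg _ h2, if_neg hik]
        have h3 : ((i : ℤ) - (k : ℤ)).natAbs = ((k : ℤ) - (i : ℤ)).natAbs := by omega
        rw [h3]
        ring
    simp_rw [h1]
    rw [sum_sub_distrib]
    simp
  have hsymm : ∀ m : ℤ, g (-m) = g m := by
    intro m
    by_cases hm : m = 0
    · simp [hm]
    · rw [hg _ hm, hg _ (by simpa using hm), Int.natAbs_neg]
  refine ⟨?_, ?_⟩
  · rw [isUnit_iff_ne_zero]
    intro hdet
    obtain ⟨v, hv0, hv⟩ := Matrix.exists_mulVec_eq_zero_iff.2 hdet
    have h1 : ∀ k : Fin N, v k - ∑ i : Fin N, p ((k : ℤ) - (i : ℤ)).natAbs * v i = 0 := by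
      intro k
      rw [← hT v k]
      have h2 := congrFun hv k
      simp only [Matrix.mulVec, dotProduct, toep, Pi.zero_apply] at h2
      rw [← h2]
      refine sum_congr rfl (fun i _ => ?_)
      rw [← hsymm, neg_sub, mul_comm]
    apply hv0
    funext k
    apply le_antisymm
    · have := Comp.nonneg_of p hp0 hpos hp N (fun i => -(v i)) (fun k => by
        have h2 := h1 k
        simp only [mul_neg, sum_neg_distrib]
        linarith) k
      simpa using this
    · exact Comp.nonneg_of p hp0 hpos hp N v (fun k => (h1 k).ge) k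
  · intro w hw x i hx
    have hb : ∀ k : Fin N, w x k - ∑ i : Fin N, p ((k : ℤ) - (i : ℤ)).natAbs * w x i
        = - p (((k : ℤ) - x).natAbs) := by
      intro k
      rw [← hT, hw x k, hg _ (by have := k.2; omega)]
      congr 2
      omega
    -- the weights are nonpositive
    have hneg : ∀ k, w x k ≤ 0 := by
      intro k
      have := Comp.nonneg_of p hp0 hpos hp N (fun i => -(w x i)) (fun k => by
        have h2 := hb k
        have h3 := hnn (((k : ℤ) - x).natAbs)
        simp only [mul_neg, sum_neg_distrib]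
        linarith) k
      simpa using this
    set v : Fin N → ℝ := fun i => ∑ j : Fin N, G ((i : ℤ) - (j : ℤ)) * p (((j : ℤ) - x).natAbs)
      with hv
    have hGk : ∀ k j : Fin N, ∑ i : Fin N, p ((k : ℤ) - (i : ℤ)).natAbs * G ((i : ℤ) - (j : ℤ))
        ≤ G ((k : ℤ) - (j : ℤ)) - if k = j then 1 else 0 := by
      intro k j
      have h1 := (Equiv.subLeft (k : ℤ)).hasSum_iff.2 (hG ((k : ℤ) - (j : ℤ)))
      have h2 := sum_le_hasSum (univ.map (Comp.emb N)) (fun i _ => by
        exact mul_nonneg (hnn _) (hGn _)) h1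
      rw [sum_map] at h2
      have h3 : (if (k : ℤ) - (j : ℤ) = 0 then (1 : ℝ) else 0) = if k = j then 1 else 0 := by
        by_cases hkj : k = j
        · subst hkj; simp
        · rw [if_neg hkj, if_neg]
          intro h0
          exact hkj (Fin.ext (by omega))
      rw [h3] at h2
      refine le_trans (le_of_eq ?_) h2
      refine sum_congr rfl (fun i _ => ?_)
      simp only [Comp.emb, Function.Embedding.coeFn_mk, Function.comp_apply, Equiv.subLeft_apply]
      congr 2
      ring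
    have hcmp := Comp.nonneg_of p hp0 hpos hp N (fun i => v i + w x i) (fun k => by
      have h2 := hb k
      have h4 : ∑ i : Fin N, p ((k : ℤ) - (i : ℤ)).natAbs * v i
          ≤ v k - p (((k : ℤ) - x).natAbs) := by
        calc ∑ i : Fin N, p ((k : ℤ) - (i : ℤ)).natAbs * v i
            = ∑ j : Fin N, (∑ i : Fin N, p ((k : ℤ) - (i : ℤ)).natAbs * G ((i : ℤ) - (j : ℤ)))
                * p (((j : ℤ) - x).natAbs) := by
              simp only [hv, mul_sum, sum_mul]
              rw [sum_comm]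
              refine sum_congr rfl (fun i _ => sum_congr rfl (fun j _ => by ring))
          _ ≤ ∑ j : Fin N, (G ((k : ℤ) - (j : ℤ)) - if k = j then 1 else 0)
                * p (((j : ℤ) - x).natAbs) :=
              sum_le_sum fun j _ => mul_le_mul_of_nonneg_right (hGk k j) (hnn _)
          _ = v k - p (((k : ℤ) - x).natAbs) := by
              simp only [sub_mul, sum_sub_distrib, ite_mul, one_mul, zero_mul, hv]
              simp
      simp only [mul_add, sum_add_distrib]
      linarith) i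
    rw [abs_of_nonpos (hneg i)]
    have : v i = ∑ j : Fin N, G ((i : ℤ) - (j : ℤ)) * p (((j : ℤ) - x).natAbs) := rfl
    linarith

end Pool.Agent.Work.MP_0e0306_pr
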