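import Mathlib

open Finset

namespace Pool.Agent.Work.MP_0e0306_pr

/-- Autocovariance of unit increments of fractional Brownian motion with Hurst parameter `H`. -/
noncomputable def gam (H : ℝ) (j : ℤ) : ℝ :=
  (1 / 2) * (|(j : ℝ) + 1| ^ (2 * H) - 2 * |(j : ℝ)| ^ (2 * H) + |(j : ℝ) - 1| ^ (2 * H))

/-- The `N × N` Toeplitz matrix of `g`. -/
def toep (g : ℤ → ℝ) (N : ℕ) : Matrix (Fin N) (Fin N) ℝ := fun i j => g ((i : ℤ) - (j : ℤ))

/-- `w x` are the weights on the window `{0, …, N-1}` representing the point `x`. -/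
def IsWt (g : ℤ → ℝ) (N : ℕ) (w : ℤ → Fin N → ℝ) : Prop :=
  ∀ (x : ℤ) (j : Fin N), ∑ i : Fin N, w x i * g ((i : ℤ) - (j : ℤ)) = g (x - (j : ℤ))

/-- Sum of weights of points to the left of the window, along displacement `m`. -/
noncomputable def DSum (N : ℕ) (w : ℤ → Fin N → ℝ) (m : ℤ) : ℝ :=
  ∑ i : Fin N, if (i : ℤ) < m then |w ((i : ℤ) - m) i| else 0

/-- Bilinear analogue of `DSum`. -/
noncomputable def LSum (N : ℕ) (v w : ℤ → Fin N → ℝ) (k l : ℤ) : ℝ :=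
  ∑ i : Fin N, ∑ j : Fin N,
    if (j : ℤ) < k ∧ (i : ℤ) < l then |v ((j : ℤ) - k) i| * |w ((i : ℤ) - l) j| else 0

/-- Uniform bounds, for all windows, of the weights of the Toeplitz matrices of `g`. -/
def Good (g : ℤ → ℝ) : Prop :=
  ∃ C : ℝ, ∀ N : ℕ, IsUnit (toep g N).det ∧
    ∀ w : ℤ → Fin N → ℝ, IsWt g N w →
      (∀ m : ℤ, DSum N w m ≤ C) ∧ ∀ k l : ℤ, LSum N w w k l ≤ C

/-- The covariance of fractional ARIMA(0,d,0) noise, normalised like `gam (1/2+d)` at infinity. -/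
noncomputable def g0 (d : ℝ) (m : ℤ) : ℝ :=
  d * (1 + 2 * d) * (Real.Gamma (|(m : ℝ)| + d) / Real.Gamma (|(m : ℝ)| + 1 - d))

/-- The convolution inverse of `g0 d`. -/
noncomputable def kap (d : ℝ) (m : ℤ) : ℝ :=
  -(Real.tan (Real.pi * d) / (Real.pi * (1 + 2 * d))) *
    (Real.Gamma (|(m : ℝ)| - d) / Real.Gamma (|(m : ℝ)| + 1 + d))

/-- Left factor of the exact weights for `g0 d`. -/
noncomputable def UU (d : ℝ) (N : ℕ) (h : ℕ) : ℝ :=
  Real.Gamma (h + d) * Real.Gamma (h + N) / (Real.Gamma h * Real.Gamma (h + N - d))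

/-- Right factor of the exact weights for `g0 d`. -/
noncomputable def VV (d : ℝ) (N : ℕ) (i : ℕ) : ℝ :=
  Real.Gamma (i + 1 - d) * Real.Gamma (N - i - d) / (Real.Gamma (i + 1) * Real.Gamma (N - i))

/-- Exact weights for `g0 d`: point `-h`, window `{0, …, N-1}`, position `i`. -/
noncomputable def bE (d : ℝ) (N h i : ℕ) : ℝ :=
  Real.sin (Real.pi * d) / Real.pi * UU d N h * VV d N i / (h + i)

/-- Exact weights for `g0 d`, all points. -/
noncomputable def bb (d : ℝ) (N : ℕ) (y : ℤ) (i : Fin N) : ℝ :=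
  if y < 0 then bE d N (-y).toNat i
  else if y < N then (if y = (i : ℤ) then 1 else 0)
  else bE d N (y - N + 1).toNat (N - 1 - i)

end Pool.Agent.Work.MP_0e0306_pr
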