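import Pool.Agent.Work.MP_0e0306_pr.Walk

/-!
# Toeplitz matrices of killed walks: trace bounds
-/

open Finset Matrix Filter Topology

namespace FGN

variable {R : ℕ} {p : ℤ → ℝ}

/-- hypotheses on the kernel -/
structure Ker (R : ℕ) (p : ℤ → ℝ) : Prop where
  unim : Unim p
  nn : ∀ j, 0 ≤ p j
  supp : ∀ j : ℤ, (R : ℤ) < |j| → p j = 0
  mass : ∑ z ∈ Icc (-(R : ℤ)) R, p z ≤ 1

/-- total weight of the walks which pass above `b` for the first time at `k` -/
noncomputable def Gr (R : ℕ) (p : ℤ → ℝ) (b k : ℤ) : ℝ :=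
  ∑' m, Dw (stp R) (wtp R p) (m + 1) b k

lemma Ker.mass' (h : Ker R p) : ∑ z, wtp R p z ≤ 1 := by
  have := sum_wtp R p (fun _ => 1)
  simp only [mul_one] at this
  rw [this]; exact h.mass

lemma Ker.D_nonneg (h : Ker R p) (m : ℕ) (b k : ℤ) : 0 ≤ Dw (stp R) (wtp R p) m b k :=
  Dw_nonneg _ _ (fun _ => h.nn _) m b k

lemma Ker.summable (h : Ker R p) {b k : ℤ} (hb : 0 ≤ b) (hk : b < k) :
    Summable fun m => Dw (stp R) (wtp R p) (m + 1) b k := by
  refine summable_of_sum_range_le (c := 1) (fun m => h.D_nonneg _ _ _) fun n => ?_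
  refine le_trans (Finset.sum_le_sum fun m _ => ?_)
    (sum_exit_le (stp R) (wtp R p) (fun _ => h.nn _) h.mass' n b k hb)
  exact Finset.single_le_sum (f := fun j => Dw (stp R) (wtp R p) (m + 1) b j)
    (fun j _ => h.D_nonneg _ _ _) (by rw [mem_Ioc]; omega)

lemma Ker.G_nonneg (h : Ker R p) (b k : ℤ) : 0 ≤ Gr R p b k :=
  tsum_nonneg fun _ => h.D_nonneg _ _ _

lemma Ker.G_rec (h : Ker R p) {b k : ℤ} (hb : 0 ≤ b) (hk : b < k) :
    Gr R p b k = ∑ z ∈ Icc (-(R : ℤ)) R, p z *
      ((if z ≤ b then Gr R p (b - z) (k - z) else 0) + (if k = z then 1 else 0)) := by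
  have hz : ∀ z : ↥(Icc (-(R : ℤ)) R),
      HasSum (fun m => Dw (stp R) (wtp R p) m (b - stp R z) (k - stp R z))
        ((if stp R z ≤ b then Gr R p (b - stp R z) (k - stp R z) else 0) +
          (if k = stp R z then 1 else 0)) := by
    intro z
    have h1 := hasSum_nat_add_iff (f := fun m => Dw (stp R) (wtp R p) m (b - stp R z) (k - stp R z))
      (g := if stp R z ≤ b then Gr R p (b - stp R z) (k - stp R z) else 0) 1
    have h2 : ∑ i ∈ range 1, Dw (stp R) (wtp R p) i (b - stp R z) (k - stp R z) =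
        if k = stp R z then 1 else 0 := by
      rw [Finset.sum_range_one, Dw_zero]
      simp only [sub_eq_zero]
    rw [h2] at h1
    rw [← h1]
    split_ifs with hzb
    · exact (h.summable (by omega) (by omega)).hasSum
    · have : (fun m => Dw (stp R) (wtp R p) (m + 1) (b - stp R z) (k - stp R z)) = fun _ => 0 := by
        funext m
        exact Dw_succ_neg _ _ _ (by omega) _
      rw [this]
      exact hasSum_zero
  have h3 : HasSum (fun m => Dw (stp R) (wtp R p) (m + 1) b k)
      (∑ z, wtp R p z * ((if stp R z ≤ b then Gr R p (b - stp R z) (k - stp R z) else 0) +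
          (if k = stp R z then 1 else 0))) := by
    have : (fun m => Dw (stp R) (wtp R p) (m + 1) b k) =
        fun m => ∑ z, wtp R p z * Dw (stp R) (wtp R p) m (b - stp R z) (k - stp R z) := by
      funext m
      rw [Dw_succ, if_pos hb]
    rw [this]
    exact hasSum_sum fun z _ => (hz z).mul_left _
  rw [Gr, h3.tsum_eq]
  exact sum_wtp R p (fun z => ((if z ≤ b then Gr R p (b - z) (k - z) else 0) +
          (if k = z then 1 else 0)))

lemma Ker.G_ge (h : Ker R p) {b k : ℤ} (hb : 0 ≤ b) (hk : b < k) (J : Finset ℤ)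
    (hJ : ∀ z ∈ J, z ≤ b) :
    p k + ∑ z ∈ J, p z * Gr R p (b - z) (k - z) ≤ Gr R p b k := by
  rw [h.G_rec hb hk]
  simp only [mul_add, Finset.sum_add_distrib]
  rw [add_comm]
  refine add_le_add ?_ ?_
  · have h1 : ∑ z ∈ J, p z * Gr R p (b - z) (k - z) =
        ∑ z ∈ J ∩ Icc (-(R : ℤ)) R, p z * (if z ≤ b then Gr R p (b - z) (k - z) else 0) := by
      rw [← Finset.sum_subset (s₁ := J ∩ Icc (-(R : ℤ)) R) (s₂ := J) Finset.inter_subset_left]
      · refine Finset.sum_congr rfl fun z hz => ?_
        rw [if_pos (hJ z (Finset.mem_inter.mp hz).1)]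
      · intro z hz hz2
        have : ¬ (-(R : ℤ) ≤ z ∧ z ≤ R) := by
          intro hc
          exact hz2 (Finset.mem_inter.mpr ⟨hz, mem_Icc.mpr hc⟩)
        rw [h.supp z, zero_mul]
        by_contra hcon
        rw [not_lt, abs_le] at hcon
        exact this hcon
    rw [h1]
    refine Finset.sum_le_sum_of_subset_of_nonneg Finset.inter_subset_right fun z _ _ => ?_
    refine mul_nonneg (h.nn z) ?_
    split_ifs
    · exact h.G_nonneg _ _
    · exact le_rfl
  · by_cases hkR : k ∈ Icc (-(R : ℤ)) R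
    · simp [Finset.sum_ite_eq, hkR]
    · rw [mem_Icc] at hkR
      rw [h.supp k]
      · refine Finset.sum_nonneg fun z _ => mul_nonneg (h.nn z) ?_
        split_ifs <;> norm_num
      · by_contra hcon
        rw [not_lt, abs_le] at hcon
        exact hkR hcon

lemma Ker.G_landing (h : Ker R p) (k : ℕ) (hk : 1 ≤ k) :
    ∑ b ∈ range k, Gr R p (b : ℤ) (k : ℤ) ≤ 2 := by
  have h1 : HasSum (fun m => ∑ b ∈ range k, Dw (stp R) (wtp R p) (m + 1) (b : ℤ) (k : ℤ))
      (∑ b ∈ range k, Gr R p (b : ℤ) (k : ℤ)) := by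
    refine hasSum_sum fun b hb => ?_
    rw [mem_range] at hb
    exact (h.summable (by positivity) (by exact_mod_cast hb)).hasSum
  refine le_of_tendsto' h1.tendsto_sum_nat fun n => ?_
  exact landing h.unim h.nn h.supp h.mass n k hk

/-- the symbol of `1 - P` -/
def tt (p : ℤ → ℝ) (j : ℤ) : ℝ := (if j = 0 then 1 else 0) - p j

/-- shifted Toeplitz matrix with symbol `t` -/
def TM (t : ℤ → ℝ) (N : ℕ) (k : ℕ) : Matrix (Fin N) (Fin N) ℝ :=
  Matrix.of fun i j => t ((i : ℤ) - j + k)

lemma TM_zero_mulVec (N : ℕ) (u : Fin N → ℝ) (i : Fin N) :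
    (TM (tt p) N 0 *ᵥ u) i = u i - ∑ j : Fin N, p ((i : ℤ) - j) * u j := by
  simp only [Matrix.mulVec, dotProduct, TM, Matrix.of_apply, tt, Nat.cast_zero, add_zero]
  simp only [sub_mul, Finset.sum_sub_distrib]
  congr 1
  rw [Finset.sum_eq_single i]
  · simp
  · intro j _ hj
    rw [if_neg, zero_mul]
    intro h
    apply hj
    ext
    omega
  · simp

/-- comparison principle -/
lemma comparison {N : ℕ} (hp : ∀ j, 0 ≤ p j) (hdet : IsUnit (TM (tt p) N 0).det)
    (v w : Fin N → ℝ) (hv : ∀ i, 0 ≤ v i) (hw : ∀ i, 0 ≤ w i)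
    (hvw : ∀ i : Fin N, v i + ∑ j : Fin N, p ((i : ℤ) - j) * w j ≤ w i) (i : Fin N) :
    0 ≤ ((TM (tt p) N 0)⁻¹ *ᵥ v) i ∧ ((TM (tt p) N 0)⁻¹ *ᵥ v) i ≤ w i := by
  let u : ℕ → Fin N → ℝ := fun n => Nat.rec (fun _ => 0)
    (fun _ u i => v i + ∑ j : Fin N, p ((i : ℤ) - j) * u j) n
  have u0 : ∀ i, u 0 i = 0 := fun i => rfl
  have us : ∀ n i, u (n + 1) i = v i + ∑ j : Fin N, p ((i : ℤ) - j) * u n j := fun n i => rfl
  have hmono : ∀ n i, u n i ≤ u (n + 1) i := by
    intro n
    induction n with
    | zero =>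
      intro i
      rw [us, u0]
      refine add_nonneg (hv i) (Finset.sum_nonneg fun j _ => ?_)
      rw [u0, mul_zero]
    | succ n ih =>
      intro i
      rw [us, us (n + 1)]
      exact add_le_add le_rfl (Finset.sum_le_sum fun j _ =>
        mul_le_mul_of_nonneg_left (ih j) (hp _))
  have hle : ∀ n i, u n i ≤ w i := by
    intro n
    induction n with
    | zero => intro i; rw [u0]; exact hw i
    | succ n ih =>
      intro i
      rw [us]
      refine le_trans (add_le_add le_rfl (Finset.sum_le_sum fun j _ =>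
        mul_le_mul_of_nonneg_left (ih j) (hp _))) (hvw i)
  have hlim : ∀ i, Tendsto (fun n => u n i) atTop (𝓝 (⨆ n, u n i)) := fun i =>
    tendsto_atTop_ciSup (monotone_nat_of_le_succ fun n => hmono n i)
      ⟨w i, by rintro _ ⟨n, rfl⟩; exact hle n i⟩
  set L : Fin N → ℝ := fun i => ⨆ n, u n i with hL
  have hLeq : ∀ i, L i = v i + ∑ j : Fin N, p ((i : ℤ) - j) * L j := by
    intro i
    have h1 : Tendsto (fun n => u (n + 1) i) atTop (𝓝 (L i)) :=
      (hlim i).comp (tendsto_add_atTop_nat 1)
    have h2 : Tendsto (fun n => v i + ∑ j : Fin N, p ((i : ℤ) - j) * u n j) atTop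
        (𝓝 (v i + ∑ j : Fin N, p ((i : ℤ) - j) * L j)) :=
      tendsto_const_nhds.add (tendsto_finsetSum _ fun j _ => (hlim j).const_mul _)
    exact tendsto_nhds_unique h1 h2
  have hTL : TM (tt p) N 0 *ᵥ L = v := by
    funext i
    rw [TM_zero_mulVec]
    have := hLeq i
    linarith
  have hinv : (TM (tt p) N 0)⁻¹ *ᵥ v = L := by
    rw [← hTL, Matrix.mulVec_mulVec, Matrix.nonsing_inv_mul _ hdet, Matrix.one_mulVec]
  rw [hinv]
  have h0 : 0 ≤ L i := by
    have := (monotone_nat_of_le_succ fun n => hmono n i).ge_of_tendsto (hlim i) 0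
    rwa [u0] at this
  exact ⟨h0, le_of_tendsto' (hlim i) fun n => hle n i⟩

/-- exit law vectors -/
noncomputable def hv (p : ℤ → ℝ) (N : ℕ) (y : ℤ) : Fin N → ℝ :=
  (TM (tt p) N 0)⁻¹ *ᵥ fun x => p ((x : ℤ) - y)

lemma Ker.hv_bound (h : Ker R p) {N : ℕ} (hdet : IsUnit (TM (tt p) N 0).det) {y : ℤ}
    (hy : (N : ℤ) ≤ y) (i : Fin N) :
    0 ≤ hv p N y i ∧ hv p N y i ≤ Gr R p ((N : ℤ) - 1 - i) (y - i) := by
  refine comparison h.nn hdet (fun x => p ((x : ℤ) - y))
    (fun x : Fin N => Gr R p ((N : ℤ) - 1 - x) (y - x))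
    (fun x => h.nn _) (fun x => h.G_nonneg _ _) ?_ i
  intro x
  have hx := x.isLt
  have h1 := h.G_ge (b := (N : ℤ) - 1 - x) (k := y - x) (by omega) (by omega)
    (Finset.univ.image fun j : Fin N => (j : ℤ) - x) (by
      intro z hz
      rw [mem_image] at hz
      obtain ⟨j, -, rfl⟩ := hz
      have := j.isLt
      omega)
  rw [Finset.sum_image (by
    intro a _ b _ hab
    ext
    simp only at hab
    omega)] at h1
  refine le_trans (le_of_eq ?_) h1
  congr 1
  · rw [← h.unim.1]; congr 1; ring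
  · refine Finset.sum_congr rfl fun j _ => ?_
    congr 1
    · rw [← h.unim.1]; congr 1; ring
    · congr 1 <;> ring

/-- strong Markov inequality -/
lemma Ker.hv_markov (h : Ker R p) {N : ℕ} (hdet : IsUnit (TM (tt p) N 0).det) (k : ℕ) {y : ℤ}
    (hy : (N : ℤ) + k ≤ y) (i : Fin N) :
    ∑ z ∈ Ico (N : ℤ) (N + k), hv p N z i * Gr R p ((N : ℤ) + k - 1 - z) (y - z) ≤
      Gr R p ((N : ℤ) + k - 1 - i) (y - i) := by
  have h0 := (comparison h.nn hdet
    (fun x => ∑ z ∈ Ico (N : ℤ) (N + k), p ((x : ℤ) - z) * Gr R p ((N : ℤ) + k - 1 - z) (y - z))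
    (fun x : Fin N => Gr R p ((N : ℤ) + k - 1 - x) (y - x))
    (fun x => Finset.sum_nonneg fun z _ => mul_nonneg (h.nn _) (h.G_nonneg _ _))
    (fun x => h.G_nonneg _ _) ?_ i).2
  · refine le_trans (le_of_eq ?_) h0
    simp only [hv, Matrix.mulVec, dotProduct, Finset.sum_mul, Finset.mul_sum]
    rw [Finset.sum_comm]
    refine Finset.sum_congr rfl fun j _ => Finset.sum_congr rfl fun z _ => ?_
    ring
  · intro x
    have hx := x.isLt
    have h1 := h.G_ge (b := (N : ℤ) + k - 1 - x) (k := y - x) (by omega) (by omega)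
      ((Ico (0 : ℤ) (N + k)).image fun j : ℤ => j - x) (by
        intro z hz
        rw [mem_image] at hz
        obtain ⟨j, hj, rfl⟩ := hz
        rw [mem_Ico] at hj
        omega)
    rw [Finset.sum_image (by
      intro a _ b _ hab
      simp only at hab
      omega)] at h1
    refine le_trans ?_ h1
    refine le_trans ?_ (le_add_of_nonneg_left (h.nn _))
    have h2 : ∑ j : Fin N, p ((x : ℤ) - j) * Gr R p ((N : ℤ) + k - 1 - j) (y - j) =
        ∑ z ∈ Ico (0 : ℤ) N, p ((x : ℤ) - z) * Gr R p ((N : ℤ) + k - 1 - z) (y - z) := by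
      refine Finset.sum_bij (fun (j : Fin N) _ => (j : ℤ)) ?_ ?_ ?_ ?_
      · intro j _
        have := j.isLt
        rw [mem_Ico]; omega
      · intro a _ b _ hab
        ext
        omega
      · intro z hz
        rw [mem_Ico] at hz
        exact ⟨⟨z.toNat, by omega⟩, mem_univ _, by simp; omega⟩
      · intro j _; rfl
    have h3 : ∑ z ∈ Ico (0 : ℤ) (N + k), p (z - x) *
          Gr R p ((N : ℤ) + k - 1 - x - (z - x)) (y - x - (z - x)) =
        ∑ z ∈ Ico (0 : ℤ) (N + k), p ((x : ℤ) - z) * Gr R p ((N : ℤ) + k - 1 - z) (y - z) := by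
      refine Finset.sum_congr rfl fun z _ => ?_
      congr 1
      · rw [← h.unim.1]; congr 1; ring
      · congr 1 <;> ring
    rw [h3, h2, ← Finset.Ico_union_Ico_eq_Ico (show (0 : ℤ) ≤ N by positivity)
      (show (N : ℤ) ≤ N + k by omega),
      Finset.sum_union (Finset.Ico_disjoint_Ico_consecutive _ _ _), add_comm]

/-- a landing bound for subsets -/
lemma Ker.sub_landing (h : Ker R p) {N : ℕ} (s : Finset (Fin N)) (c : ℤ) (K : ℕ) (hK : 1 ≤ K)
    (hs : ∀ i ∈ s, 0 ≤ c - (i : ℤ) ∧ c - (i : ℤ) < K) :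
    ∑ i ∈ s, Gr R p (c - i) K ≤ 2 := by
  refine le_trans ?_ (h.G_landing K hK)
  have h1 : ∑ i ∈ s, Gr R p (c - i) K =
      ∑ b ∈ s.image (fun i : Fin N => (c - (i : ℤ)).toNat), Gr R p (b : ℤ) K := by
    rw [Finset.sum_image]
    · refine Finset.sum_congr rfl fun i hi => ?_
      congr 1
      have := hs i hi
      omega
    · intro a ha b hb hab
      have h1 := hs a ha
      have h2 := hs b hb
      ext
      simp only at hab
      omega
  rw [h1]
  refine Finset.sum_le_sum_of_subset_of_nonneg ?_ fun b _ _ => h.G_nonneg _ _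
  intro b hb
  rw [mem_image] at hb
  obtain ⟨i, hi, rfl⟩ := hb
  have := hs i hi
  rw [mem_range]
  omega

/-- the regression matrix -/
noncomputable def BM (p : ℤ → ℝ) (N k : ℕ) : Matrix (Fin N) (Fin N) ℝ :=
  TM (tt p) N k * (TM (tt p) N 0)⁻¹

lemma TM_symm (h : Ker R p) (N : ℕ) : (TM (tt p) N 0)ᵀ = TM (tt p) N 0 := by
  ext i j
  simp only [Matrix.transpose_apply, TM, Matrix.of_apply, Nat.cast_zero, add_zero, tt]
  congr 1
  · have : ((j : ℤ) - i = 0) ↔ ((i : ℤ) - j = 0) := by omega
    simp only [this]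
  · rw [← h.unim.1]; congr 1; ring

lemma BM_apply (h : Ker R p) {N : ℕ} (hdet : IsUnit (TM (tt p) N 0).det) {k : ℕ} (hk : 1 ≤ k)
    (i j : Fin N) :
    BM p N k i j = (if (i : ℕ) + k = j then 1 else 0) -
      (if N ≤ (i : ℕ) + k then hv p N ((i : ℤ) + k) j else 0) := by
  by_cases hik : N ≤ (i : ℕ) + k
  · rw [if_pos hik, if_neg (by have := j.isLt; omega), zero_sub]
    have hsymm : ∀ a b, (TM (tt p) N 0)⁻¹ a b = (TM (tt p) N 0)⁻¹ b a := by
      intro a b
      have := congrFun (congrFun (Matrix.transpose_nonsing_inv (TM (tt p) N 0)) b) a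
      rw [TM_symm h] at this
      exact this
    simp only [BM, Matrix.mul_apply, hv, Matrix.mulVec, dotProduct]
    rw [← Finset.sum_neg_distrib]
    refine Finset.sum_congr rfl fun l _ => ?_
    rw [hsymm l j]
    have hl := l.isLt
    simp only [TM, Matrix.of_apply, tt]
    rw [if_neg (by omega)]
    have : p ((i : ℤ) - l + k) = p ((l : ℤ) - (i + k)) := by
      rw [← h.unim.1]; congr 1; ring
    rw [this]
    ring
  · rw [if_neg hik, sub_zero]
    have hik' : (i : ℕ) + k < N := by omega
    have h1 : BM p N k i j = (TM (tt p) N 0 * (TM (tt p) N 0)⁻¹) ⟨i + k, hik'⟩ j := by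
      simp only [BM, Matrix.mul_apply]
      refine Finset.sum_congr rfl fun l _ => ?_
      congr 1
      simp only [TM, Matrix.of_apply]
      congr 1
      push_cast
      ring
    rw [h1, Matrix.mul_nonsing_inv _ hdet, Matrix.one_apply]
    simp only [Fin.ext_iff]

/-- first trace bound -/
lemma Ker.trace_one (h : Ker R p) {N k : ℕ} (hk : 1 ≤ k) :
    |((TM (tt p) N 0)⁻¹ * TM (tt p) N k).trace| ≤ 2 := by
  by_cases hdet : IsUnit (TM (tt p) N 0).det
  · have h1 : ((TM (tt p) N 0)⁻¹ * TM (tt p) N k).trace =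
        - ∑ i ∈ univ.filter (fun i : Fin N => N ≤ (i : ℕ) + k), hv p N ((i : ℤ) + k) i := by
      rw [Matrix.trace_mul_comm]
      change (BM p N k).trace = _
      simp only [Matrix.trace, Matrix.diag_apply, BM_apply h hdet hk]
      rw [Finset.sum_sub_distrib, Finset.sum_filter, Finset.sum_eq_zero, zero_sub]
      intro i _
      rw [if_neg (by omega)]
    have h2 : ∑ i ∈ univ.filter (fun i : Fin N => N ≤ (i : ℕ) + k), hv p N ((i : ℤ) + k) i ≤ 2 := by
      refine le_trans (Finset.sum_le_sum fun i hi => ?_)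
        (h.sub_landing (univ.filter (fun i : Fin N => N ≤ (i : ℕ) + k)) ((N : ℤ) - 1) k hk ?_)
      · rw [mem_filter] at hi
        have := (h.hv_bound hdet (y := (i : ℤ) + k) (by exact_mod_cast hi.2) i).2
        rwa [add_sub_cancel_left] at this
      · intro i hi
        rw [mem_filter] at hi
        have := i.isLt
        omega
    have h3 : 0 ≤ ∑ i ∈ univ.filter (fun i : Fin N => N ≤ (i : ℕ) + k), hv p N ((i : ℤ) + k) i := by
      refine Finset.sum_nonneg fun i hi => ?_
      rw [mem_filter] at hi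
      exact (h.hv_bound hdet (y := (i : ℤ) + k) (by exact_mod_cast hi.2) i).1
    rw [h1, abs_neg, abs_of_nonneg h3]
    exact h2
  · rw [Matrix.nonsing_inv_apply_not_isUnit _ hdet, zero_mul, Matrix.trace_zero, abs_zero]
    norm_num

/-- second trace bound -/
lemma Ker.trace_two (h : Ker R p) {N k l : ℕ} (hk : 1 ≤ k) (hl : 1 ≤ l) :
    |((TM (tt p) N 0)⁻¹ * TM (tt p) N k * ((TM (tt p) N 0)⁻¹ * TM (tt p) N l)).trace| ≤ 4 := by
  by_cases hdet : IsUnit (TM (tt p) N 0).det
  · have h1 : ((TM (tt p) N 0)⁻¹ * TM (tt p) N k * ((TM (tt p) N 0)⁻¹ * TM (tt p) N l)).trace =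
        ∑ i, ∑ j, BM p N k i j * BM p N l j i := by
      have : ((TM (tt p) N 0)⁻¹ * TM (tt p) N k * ((TM (tt p) N 0)⁻¹ * TM (tt p) N l)).trace =
          (BM p N k * BM p N l).trace := by
        rw [Matrix.mul_assoc, Matrix.trace_mul_comm]
        simp only [BM, Matrix.mul_assoc]
      rw [this]
      simp only [Matrix.trace, Matrix.diag_apply, Matrix.mul_apply]
    set S : ℕ → Fin N → Fin N → ℝ := fun k i j => if (i : ℕ) + k = j then 1 else 0 with hS
    set Q : ℕ → Fin N → Fin N → ℝ := fun k i j =>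
      if N ≤ (i : ℕ) + k then hv p N ((i : ℤ) + k) j else 0 with hQ
    have hB : ∀ k, 1 ≤ k → ∀ i j, BM p N k i j = S k i j - Q k i j := fun k hk i j =>
      BM_apply h hdet hk i j
    have hQ0 : ∀ k i j, 0 ≤ Q k i j := by
      intro k i j
      simp only [hQ]
      split_ifs with hc
      · exact (h.hv_bound hdet (y := (i : ℤ) + k) (by exact_mod_cast hc) j).1
      · exact le_rfl
    have hS0 : ∀ k i j, 0 ≤ S k i j := by
      intro k i j
      simp only [hS]
      split_ifs <;> norm_num
    have hSS : ∑ i, ∑ j, S k i j * S l j i = 0 := by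
      refine Finset.sum_eq_zero fun i _ => Finset.sum_eq_zero fun j _ => ?_
      simp only [hS]
      by_cases h1 : (i : ℕ) + k = j
      · rw [if_pos h1, if_neg (by omega), mul_zero]
      · rw [if_neg h1, zero_mul]
    -- mixed terms
    have hSQ : ∀ k l : ℕ, 1 ≤ k → 1 ≤ l → ∑ i, ∑ j, S k i j * Q l j i ≤ 2 := by
      intro k l hk hl
      have h2 : ∀ i : Fin N, ∑ j, S k i j * Q l j i ≤
          if N ≤ (i : ℕ) + (k + l) then Gr R p ((N : ℤ) - 1 - i) ((k + l : ℕ) : ℤ) else 0 := by
        intro i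
        by_cases hik : (i : ℕ) + k < N
        · rw [Finset.sum_eq_single (⟨i + k, hik⟩ : Fin N)]
          · simp only [hS, hQ, if_true, one_mul]
            by_cases hc : N ≤ (i : ℕ) + k + l
            · rw [if_pos hc, if_pos (by omega)]
              have := (h.hv_bound hdet (y := ((i + k : ℕ) : ℤ) + l) (by exact_mod_cast hc) i).2
              refine le_trans this (le_of_eq ?_)
              congr 1
              push_cast
              ring
            · rw [if_neg hc, if_neg (by omega)]
          · intro j _ hj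
            simp only [hS]
            rw [if_neg, zero_mul]
            intro hc
            apply hj
            ext
            simp [hc]
          · simp
        · rw [Finset.sum_eq_zero]
          · split_ifs
            · exact h.G_nonneg _ _
            · exact le_rfl
          · intro j _
            simp only [hS]
            rw [if_neg (by have := j.isLt; omega), zero_mul]
      refine le_trans (Finset.sum_le_sum fun i _ => h2 i) ?_
      rw [← Finset.sum_filter]
      refine h.sub_landing _ ((N : ℤ) - 1) (k + l) (by omega) fun i hi => ?_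
      rw [mem_filter] at hi
      have := i.isLt
      omega
    have hQQ : ∑ i, ∑ j, Q k i j * Q l j i ≤ 2 := by
      rw [Finset.sum_comm]
      have h2 : ∀ j : Fin N, ∑ i, Q k i j * Q l j i ≤
          if N ≤ (j : ℕ) + l then Gr R p ((N : ℤ) + k - 1 - j) ((k + l : ℕ) : ℤ) else 0 := by
        intro j
        by_cases hc : N ≤ (j : ℕ) + l
        · rw [if_pos hc]
          have hm := h.hv_markov hdet k (y := (j : ℤ) + k + l) (by omega) j
          refine le_trans ?_ (hm.trans (le_of_eq ?_))
          · have h3 : ∀ i : Fin N, Q k i j * Q l j i ≤ if N ≤ (i : ℕ) + k then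
                hv p N ((i : ℤ) + k) j * Gr R p ((N : ℤ) + k - 1 - ((i : ℤ) + k))
                  ((j : ℤ) + k + l - ((i : ℤ) + k)) else 0 := by
              intro i
              by_cases hi : N ≤ (i : ℕ) + k
              · simp only [hQ]
                rw [if_pos hi, if_pos hc, if_pos hi]
                refine mul_le_mul_of_nonneg_left ?_
                  (h.hv_bound hdet (y := (i : ℤ) + k) (by exact_mod_cast hi) j).1
                refine le_trans (h.hv_bound hdet (y := (j : ℤ) + l) (by exact_mod_cast hc) i).2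
                  (le_of_eq ?_)
                congr 1 <;> ring
              · simp only [hQ]
                rw [if_neg hi, zero_mul, if_neg hi]
            refine le_trans (Finset.sum_le_sum fun i _ => h3 i) ?_
            rw [← Finset.sum_filter]
            have h4 : ∑ i ∈ univ.filter (fun i : Fin N => N ≤ (i : ℕ) + k),
                hv p N ((i : ℤ) + k) j * Gr R p ((N : ℤ) + k - 1 - ((i : ℤ) + k))
                  ((j : ℤ) + k + l - ((i : ℤ) + k)) =
                ∑ z ∈ (univ.filter (fun i : Fin N => N ≤ (i : ℕ) + k)).image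
                  (fun i : Fin N => (i : ℤ) + k),
                hv p N z j * Gr R p ((N : ℤ) + k - 1 - z) ((j : ℤ) + k + l - z) := by
              rw [Finset.sum_image]
              intro a _ b _ hab
              ext
              simp only at hab
              omega
            rw [h4]
            refine Finset.sum_le_sum_of_subset_of_nonneg ?_ ?_
            · intro z hz
              rw [mem_image] at hz
              obtain ⟨i, hi, rfl⟩ := hz
              rw [mem_filter] at hi
              have := i.isLt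
              rw [mem_Ico]
              omega
            · intro z hz _
              rw [mem_Ico] at hz
              exact mul_nonneg (h.hv_bound hdet hz.1 j).1 (h.G_nonneg _ _)
          · congr 1
            push_cast
            ring
        · rw [if_neg hc]
          refine le_of_eq (Finset.sum_eq_zero fun i _ => ?_)
          simp only [hQ]
          rw [if_neg hc, mul_zero]
      refine le_trans (Finset.sum_le_sum fun j _ => h2 j) ?_
      rw [← Finset.sum_filter]
      refine h.sub_landing _ ((N : ℤ) + k - 1) (k + l) (by omega) fun j hj => ?_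
      rw [mem_filter] at hj
      have := j.isLt
      omega
    have hexp : ∑ i, ∑ j, BM p N k i j * BM p N l j i =
        ∑ i, ∑ j, S k i j * S l j i - ∑ i, ∑ j, S k i j * Q l j i -
        ∑ i, ∑ j, S l i j * Q k j i + ∑ i, ∑ j, Q k i j * Q l j i := by
      have h5 : ∑ i, ∑ j, S l i j * Q k j i = ∑ i, ∑ j, Q k i j * S l j i := by
        rw [Finset.sum_comm]
        refine Finset.sum_congr rfl fun i _ => Finset.sum_congr rfl fun j _ => ?_
        ring
      rw [h5]
      simp only [← Finset.sum_sub_distrib, ← Finset.sum_add_distrib]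
      refine Finset.sum_congr rfl fun i _ => Finset.sum_congr rfl fun j _ => ?_
      rw [hB k hk, hB l hl]
      ring
    rw [h1, hexp, hSS]
    have e1 := hSQ k l hk hl
    have e2 := hSQ l k hl hk
    have n1 : 0 ≤ ∑ i, ∑ j, S k i j * Q l j i := Finset.sum_nonneg fun i _ =>
      Finset.sum_nonneg fun j _ => mul_nonneg (hS0 _ _ _) (hQ0 _ _ _)
    have n2 : 0 ≤ ∑ i, ∑ j, S l i j * Q k j i := Finset.sum_nonneg fun i _ =>
      Finset.sum_nonneg fun j _ => mul_nonneg (hS0 _ _ _) (hQ0 _ _ _)
    have n3 : 0 ≤ ∑ i, ∑ j, Q k i j * Q l j i := Finset.sum_nonneg fun i _ =>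
      Finset.sum_nonneg fun j _ => mul_nonneg (hQ0 _ _ _) (hQ0 _ _ _)
    rw [abs_le]
    constructor <;> linarith
  · rw [Matrix.nonsing_inv_apply_not_isUnit _ hdet]
    simp

end FGN
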