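import Pool.Agent.Work.MP_0e0306_pr.Defs

open Filter Topology

namespace Pool.Agent.Work.MP_0e0306_pr

/-- Gautschi's lower inequality (log-convexity of Gamma). -/
theorem gautschi_lower (y s : ℝ) (hy : 0 < y) (hs0 : 0 ≤ s) (hs1 : s ≤ 1) :
    y ^ (1 - s) * Real.Gamma (y + s) ≤ Real.Gamma (y + 1) := by
  have hG1 : Real.Gamma (y + 1) = y * Real.Gamma y := Real.Gamma_add_one hy.ne'
  rcases hs0.eq_or_lt with h | h0
  · subst h; simp [hG1]
  rcases hs1.eq_or_lt with h | h1
  · subst h; simp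
  have hG := Real.Gamma_pos_of_pos hy
  have key := Real.Gamma_mul_add_mul_le_rpow_Gamma_mul_rpow_Gamma hy
    (by linarith : (0 : ℝ) < y + 1) (by linarith : 0 < 1 - s) h0 (by ring)
  have e : (1 - s) * y + s * (y + 1) = y + s := by ring
  rw [e] at key
  calc y ^ (1 - s) * Real.Gamma (y + s)
      ≤ y ^ (1 - s) * (Real.Gamma y ^ (1 - s) * Real.Gamma (y + 1) ^ s) := by gcongr
    _ = (y * Real.Gamma y) ^ (1 - s) * Real.Gamma (y + 1) ^ s := by
        rw [Real.mul_rpow hy.le hG.le]; ring
    _ = Real.Gamma (y + 1) := by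
        rw [← hG1, ← Real.rpow_add (Real.Gamma_pos_of_pos (by linarith))]; simp

/-- Gautschi's upper inequality (log-convexity of Gamma). -/
theorem gautschi_upper (y s : ℝ) (hy : 0 < y) (hs0 : 0 ≤ s) (hs1 : s ≤ 1) :
    Real.Gamma (y + 1) ≤ (y + s) ^ (1 - s) * Real.Gamma (y + s) := by
  have hG1 : Real.Gamma (y + 1) = y * Real.Gamma y := Real.Gamma_add_one hy.ne'
  rcases hs0.eq_or_lt with h | h0
  · subst h; simp [hG1]
  rcases hs1.eq_or_lt with h | h1
  · subst h; simp
  have hys : 0 < y + s := by linarith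
  have hG := Real.Gamma_pos_of_pos hys
  have hG2 : Real.Gamma (y + s + 1) = (y + s) * Real.Gamma (y + s) :=
    Real.Gamma_add_one hys.ne'
  have key := Real.Gamma_mul_add_mul_le_rpow_Gamma_mul_rpow_Gamma hys
    (by linarith : (0 : ℝ) < y + s + 1) h0 (by linarith : 0 < 1 - s) (by ring)
  have e : s * (y + s) + (1 - s) * (y + s + 1) = y + 1 := by ring
  rw [e] at key
  calc Real.Gamma (y + 1) ≤ Real.Gamma (y + s) ^ s * Real.Gamma (y + s + 1) ^ (1 - s) := key
    _ = (y + s) ^ (1 - s) * (Real.Gamma (y + s) ^ (1 - s) * Real.Gamma (y + s) ^ s) := by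
        rw [hG2, Real.mul_rpow hys.le hG.le]; ring
    _ = (y + s) ^ (1 - s) * Real.Gamma (y + s) := by
        rw [← Real.rpow_add hG]; simp

theorem log_ratio_le (z t : ℝ) (hz : 1 / 2 < z) (ht0 : 0 ≤ t) (ht1 : t ≤ 1) :
    Real.log (z + t / 2) - Real.log (z - t / 2) ≤
      t * (Real.log (z + 1 / 2) - Real.log (z - 1 / 2)) := by
  have hz0 : 0 < z := by linarith
  set u : ℝ := 1 / (2 * z) with hu
  have hu0 : 0 < u := by positivity
  have hu1 : u < 1 := by
    rw [hu, div_lt_one (by linarith)]; linarith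
  have main : ∀ r : ℝ, 0 ≤ r → r ≤ 1 →
      HasSum (fun k : ℕ => (2 : ℝ) * (1 / (2 * k + 1)) * (r * u) ^ (2 * k + 1))
        (Real.log (z + r / 2) - Real.log (z - r / 2)) := by
    intro r hr0 hr1
    have hru : r * u ≤ u := by nlinarith
    have hru0 : 0 ≤ r * u := by positivity
    have h := Real.hasSum_log_sub_log_of_abs_lt_one (x := r * u)
      (by rw [abs_of_nonneg hru0]; linarith)
    have e1 : z + r / 2 = z * (1 + r * u) := by rw [hu]; field_simp
    have e2 : z - r / 2 = z * (1 - r * u) := by rw [hu]; field_simp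
    rw [e1, e2, Real.log_mul hz0.ne' (by linarith), Real.log_mul hz0.ne' (by linarith)]
    convert! h using 1
    ring
  have h1 := main t ht0 ht1
  have h2 := (main 1 zero_le_one le_rfl).mul_left t
  refine hasSum_le (fun k => ?_) h1 h2
  have hp : t ^ (2 * k + 1) ≤ t := by
    calc t ^ (2 * k + 1) ≤ t ^ 1 := pow_le_pow_of_le_one ht0 ht1 (by omega)
      _ = t := pow_one t
  have hk : (0 : ℝ) ≤ 2 * (1 / (2 * k + 1)) * u ^ (2 * k + 1) := by positivity
  calc 2 * (1 / (2 * (k : ℝ) + 1)) * (t * u) ^ (2 * k + 1)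
      = t ^ (2 * k + 1) * (2 * (1 / (2 * (k : ℝ) + 1)) * u ^ (2 * k + 1)) := by
        rw [mul_pow]; ring
    _ ≤ t * (2 * (1 / (2 * (k : ℝ) + 1)) * u ^ (2 * k + 1)) :=
        mul_le_mul_of_nonneg_right hp hk
    _ = t * (2 * (1 / (2 * (k : ℝ) + 1)) * (1 * u) ^ (2 * k + 1)) := by rw [one_mul]

theorem kershaw_step (X s : ℝ) (hX : 0 < X) (hs0 : 0 < s) (hs1 : s < 1) :
    (X + 1) * (X + s / 2) ^ (1 - s) ≤ (X + s) * (X + 1 + s / 2) ^ (1 - s) := by
  have h := log_ratio_le (X + (1 + s) / 2) (1 - s) (by linarith) (by linarith) (by linarith)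
  have e1 : X + (1 + s) / 2 + (1 - s) / 2 = X + 1 := by ring
  have e2 : X + (1 + s) / 2 - (1 - s) / 2 = X + s := by ring
  have e3 : X + (1 + s) / 2 + 1 / 2 = X + 1 + s / 2 := by ring
  have e4 : X + (1 + s) / 2 - 1 / 2 = X + s / 2 := by ring
  rw [e1, e2, e3, e4] at h
  have p1 : 0 < X + s / 2 := by linarith
  have p2 : 0 < X + 1 + s / 2 := by linarith
  have q1 := Real.rpow_pos_of_pos p1 (1 - s)
  have q2 := Real.rpow_pos_of_pos p2 (1 - s)
  rw [← Real.log_le_log_iff (by positivity) (by positivity),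
    Real.log_mul (by linarith) q1.ne', Real.log_mul (by linarith) q2.ne',
    Real.log_rpow p1, Real.log_rpow p2]
  linarith

/-- Kershaw's inequality. -/
theorem kershaw (x s : ℝ) (hx : 0 < x) (hs0 : 0 < s) (hs1 : s < 1) :
    (x + s / 2) ^ (1 - s) ≤ Real.Gamma (x + 1) / Real.Gamma (x + s) := by
  set q : ℕ → ℝ := fun n => Real.Gamma (x + n + 1) /
    (Real.Gamma (x + n + s) * (x + n + s / 2) ^ (1 - s)) with hq
  have hpos : ∀ n : ℕ, 0 < x + n := fun n => by positivity
  have hstep : ∀ n, q (n + 1) ≤ q n := by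
    intro n
    simp only [hq]
    have hX := hpos n
    set X : ℝ := x + n with hXdef
    have ec : x + ((n + 1 : ℕ) : ℝ) = X + 1 := by push_cast; ring
    rw [ec]
    have g1 : Real.Gamma (X + 1 + 1) = (X + 1) * Real.Gamma (X + 1) :=
      Real.Gamma_add_one (by linarith)
    have g2 : Real.Gamma (X + 1 + s) = (X + s) * Real.Gamma (X + s) := by
      rw [show X + 1 + s = (X + s) + 1 by ring]
      exact Real.Gamma_add_one (by linarith)
    have G1 := Real.Gamma_pos_of_pos (show 0 < X + 1 by linarith)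
    have G2 := Real.Gamma_pos_of_pos (show 0 < X + s by linarith)
    have q1 := Real.rpow_pos_of_pos (show 0 < X + s / 2 by linarith) (1 - s)
    have q2 := Real.rpow_pos_of_pos (show 0 < X + 1 + s / 2 by linarith) (1 - s)
    rw [g1, g2, div_le_div_iff₀ (by positivity) (by positivity)]
    have := kershaw_step X s hX hs0 hs1
    nlinarith [mul_le_mul_of_nonneg_left this (mul_pos G1 G2).le]
  have hanti : ∀ n, q n ≤ q 0 := by
    intro n
    induction n with
    | zero => exact le_rfl
    | succ n ih => exact (hstep n).trans ih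
  have hlow : ∀ n : ℕ, ((x + n) / (x + n + s / 2)) ^ (1 - s) ≤ q n := by
    intro n
    simp only [hq]
    have hX := hpos n
    have G2 := Real.Gamma_pos_of_pos (show 0 < x + n + s by linarith)
    have q1 := Real.rpow_pos_of_pos (show 0 < x + n + s / 2 by linarith) (1 - s)
    rw [Real.div_rpow hX.le (by linarith), div_le_div_iff₀ q1 (by positivity)]
    have := gautschi_lower (x + n) s hX hs0.le hs1.le
    nlinarith [mul_le_mul_of_nonneg_left this q1.le]
  have hlim : Tendsto (fun n : ℕ => ((x + n) / (x + n + s / 2)) ^ (1 - s)) atTop (𝓝 1) := by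
    have h1 : Tendsto (fun n : ℕ => (x + n) / (x + n + s / 2)) atTop (𝓝 1) := by
      have h2 : Tendsto (fun n : ℕ => 1 - (s / 2) / (x + n + s / 2)) atTop (𝓝 (1 - 0)) := by
        refine tendsto_const_nhds.sub ?_
        refine Tendsto.div_atTop tendsto_const_nhds ?_
        refine tendsto_atTop_add_const_right _ _ ?_
        exact tendsto_atTop_add_const_left _ _ tendsto_natCast_atTop_atTop
      rw [sub_zero] at h2
      refine h2.congr fun n => ?_
      have := hpos n
      have h3 : x + n + s / 2 ≠ 0 := by linarith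
      field_simp
      ring
    have := h1.rpow_const (p := 1 - s) (Or.inl one_ne_zero)
    simpa using this
  have hge : 1 ≤ q 0 := le_of_tendsto hlim (Eventually.of_forall fun n => (hlow n).trans (hanti n))
  simp only [hq, Nat.cast_zero, add_zero] at hge
  have G2 := Real.Gamma_pos_of_pos (show 0 < x + s by linarith)
  have q1 := Real.rpow_pos_of_pos (show 0 < x + s / 2 by linarith) (1 - s)
  rw [le_div_iff₀ (by positivity)] at hge
  rw [le_div_iff₀ G2]
  linarith

end Pool.Agent.Work.MP_0e0306_pr
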