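import Pool.Agent.Work.MP_0e0306_pr.Defs

open Finset Polynomial

namespace Pool.Agent.Work.MP_0e0306_pr

theorem prod1 (t : ℝ) (ht : ∀ k : ℤ, t ≠ k) (j : ℕ) :
    (∏ r ∈ range j, (t - r)) * Real.Gamma (t - j + 1) = Real.Gamma (t + 1) := by
  induction j with
  | zero => simp
  | succ j ih =>
    rw [prod_range_succ, ← ih]
    have h : t - j ≠ 0 := by
      intro h; exact ht j (by push_cast; linarith)
    have e : t - ((j + 1 : ℕ) : ℝ) + 1 = t - j := by push_cast; ring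
    rw [e, Real.Gamma_add_one h]
    ring

theorem prod2 (t : ℝ) (ht : ∀ k : ℤ, t ≠ k) (j N : ℕ) (h : j + 1 ≤ N) :
    (∏ r ∈ Ico (j + 1) N, ((r : ℝ) - t)) * Real.Gamma (j + 1 - t) = Real.Gamma (N - t) := by
  induction N, h using Nat.le_induction with
  | base => simp
  | succ N hN ih =>
    rw [prod_Ico_succ_top hN]
    have h : (N : ℝ) - t ≠ 0 := by
      intro h; exact ht N (by push_cast; linarith)
    have e : ((N + 1 : ℕ) : ℝ) - t = (N - t) + 1 := by push_cast; ring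
    rw [e, Real.Gamma_add_one h, ← ih]
    ring

theorem prod3 (x : ℝ) (hx : 0 < x) (j : ℕ) :
    (∏ r ∈ range j, (x + r)) * Real.Gamma x = Real.Gamma (x + j) := by
  induction j with
  | zero => simp
  | succ j ih =>
    rw [prod_range_succ]
    have h : x + j ≠ 0 := by positivity
    have e : x + ((j + 1 : ℕ) : ℝ) = (x + j) + 1 := by push_cast; ring
    rw [e, Real.Gamma_add_one h, ← ih]
    ring

theorem erase_split (N j : ℕ) (hj : j < N) :
    (range N).erase j = range j ∪ Ico (j + 1) N := by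
  ext r; simp; omega

theorem erase_disj (N j : ℕ) : Disjoint (range j) (Ico (j + 1) N) := by
  rw [Finset.disjoint_left]; intro r; simp; omega

theorem prod_erase_split (N j : ℕ) (hj : j < N) (f : ℕ → ℝ) :
    ∏ r ∈ (range N).erase j, f r = (∏ r ∈ range j, f r) * ∏ r ∈ Ico (j + 1) N, f r := by
  rw [erase_split N j hj, prod_union (erase_disj N j)]

theorem prod_range_fact (i : ℕ) : ∏ k ∈ range i, ((i : ℝ) - k) = (i.factorial : ℝ) := by
  rw [← Finset.prod_range_reflect, ← Finset.prod_range_add_one_eq_factorial]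
  push_cast
  refine prod_congr rfl fun k hk => ?_
  have hk' := mem_range.mp hk
  rw [Nat.sub_sub, Nat.cast_sub (by omega)]
  push_cast; ring

theorem prod_Ico_fact (i N : ℕ) (hi : i + 1 ≤ N) :
    ∏ k ∈ Ico (i + 1) N, ((i : ℝ) - k) = (-1) ^ (N - 1 - i) * ((N - 1 - i).factorial : ℝ) := by
  induction N, hi using Nat.le_induction with
  | base => simp
  | succ N hN ih =>
    rw [prod_Ico_succ_top hN, ih]
    obtain ⟨m, rfl⟩ := Nat.exists_eq_add_of_le hN
    have e1 : i + 1 + m - 1 - i = m := by omega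
    have e2 : i + 1 + m + 1 - 1 - i = m + 1 := by omega
    rw [e1, e2, Nat.factorial_succ, pow_succ]
    push_cast; ring

/-- node polynomial -/
noncomputable def cc (d : ℝ) (j r : ℕ) : ℝ := if r < j then r + d else r - d

noncomputable def PP (d : ℝ) (N j : ℕ) : ℝ[X] := Lagrange.nodal ((range N).erase j) (cc d j)

theorem PP_eval (d : ℝ) (N j : ℕ) (hj : j < N) (x : ℝ) :
    (PP d N j).eval x =
      (∏ r ∈ range j, (x - d - r)) * ∏ r ∈ Ico (j + 1) N, (x + d - r) := by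
  rw [PP, Lagrange.eval_nodal, prod_erase_split N j hj]
  congr 1
  · refine prod_congr rfl fun r hr => ?_
    rw [cc, if_pos (mem_range.mp hr)]; ring
  · refine prod_congr rfl fun r hr => ?_
    rw [cc, if_neg (by have := mem_Ico.mp hr; omega)]; ring

theorem not_int (d : ℝ) (hd0 : 0 < d) (hd1 : d < 1) (a : ℤ) : ∀ k : ℤ, (a : ℝ) + d ≠ k := by
  intro k h
  have h1 : (a : ℝ) < k := by linarith
  have h2 : (k : ℝ) < a + 1 := by linarith
  have h1' : a < k := by exact_mod_cast h1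
  have h2' : k < a + 1 := by exact_mod_cast h2
  omega

theorem not_int' (d : ℝ) (hd0 : 0 < d) (hd1 : d < 1) (a : ℤ) : ∀ k : ℤ, (a : ℝ) - d ≠ k := by
  intro k h
  have h1 : (k : ℝ) < a := by linarith
  have h2 : (a : ℝ) < k + 1 := by linarith
  have h1' : k < a := by exact_mod_cast h1
  have h2' : a < k + 1 := by exact_mod_cast h2
  omega

theorem refl_nat (d : ℝ) (m : ℕ) :
    Real.Gamma (m + d) * Real.Gamma (1 - d - m) = (-1) ^ m * (Real.pi / Real.sin (Real.pi * d)) := by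
  have h := Real.Gamma_mul_Gamma_one_sub ((m : ℝ) + d)
  have e1 : 1 - ((m : ℝ) + d) = 1 - d - m := by ring
  have e2 : Real.pi * ((m : ℝ) + d) = Real.pi * d + m * Real.pi := by ring
  rw [e1, e2, Real.sin_add_nat_mul_pi] at h
  rw [h]
  have h1 : ((-1 : ℝ) ^ m) * (-1) ^ m = 1 := by rw [← mul_pow]; simp
  have h2 : ((-1 : ℝ) ^ m) ≠ 0 := pow_ne_zero _ (by norm_num)
  rcases eq_or_ne (Real.sin (Real.pi * d)) 0 with hs | hs
  · simp [hs]
  · rw [div_eq_iff (mul_ne_zero h2 hs)]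
    field_simp
    rw [sq, h1]

/-- The Gamma quotient appearing in `g0`. -/
noncomputable def GG (d : ℝ) (m : ℤ) : ℝ :=
  Real.Gamma (|(m : ℝ)| + d) / Real.Gamma (|(m : ℝ)| + 1 - d)

theorem g0_eq (d : ℝ) (m : ℤ) : g0 d m = d * (1 + 2 * d) * GG d m := rfl

theorem GG_neg (d : ℝ) (m : ℤ) : GG d (-m) = GG d m := by
  simp [GG]

theorem GG_nat (d : ℝ) (m : ℕ) :
    GG d m = Real.Gamma (m + d) / Real.Gamma (m + 1 - d) := by
  simp [GG]

theorem GG_natAbs (d : ℝ) (m : ℤ) : GG d m = GG d (m.natAbs : ℤ) := by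
  rcases Int.natAbs_eq m with h | h
  · rw [← h]
  · conv_lhs => rw [h]
    rw [GG_neg]

theorem GG_mul (d : ℝ) (hd0 : 0 < d) (hd1 : d < 1) (m : ℤ) :
    Real.Gamma (m + 1 - d) * Real.Gamma (1 - d - m) * GG d m =
      (-1) ^ m.natAbs * (Real.pi / Real.sin (Real.pi * d)) := by
  have key : ∀ n : ℕ, Real.Gamma ((n : ℝ) + 1 - d) * Real.Gamma (1 - d - n) * GG d (n : ℤ) =
      (-1) ^ n * (Real.pi / Real.sin (Real.pi * d)) := by
    intro n
    rw [GG_nat, ← refl_nat d n]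
    have : Real.Gamma ((n : ℝ) + 1 - d) ≠ 0 :=
      (Real.Gamma_pos_of_pos (by have : (0 : ℝ) ≤ n := n.cast_nonneg; linarith)).ne'
    field_simp
  rw [GG_natAbs d m, ← key]
  rcases Int.natAbs_eq m with h | h
  · have h' : (m : ℝ) = (m.natAbs : ℝ) := by
      conv_lhs => rw [h]
      simp
    rw [h']
  · have h' : (m : ℝ) = -(m.natAbs : ℝ) := by
      conv_lhs => rw [h]
      simp
    rw [h']
    have e1 : -(m.natAbs : ℝ) + 1 - d = 1 - d - (m.natAbs : ℝ) := by ring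
    have e2 : 1 - d - -(m.natAbs : ℝ) = (m.natAbs : ℝ) + 1 - d := by ring
    rw [e1, e2]; ring

/-- The key identity. -/
theorem VV_GG (d : ℝ) (hd0 : 0 < d) (hd1 : d < 1) (N i j : ℕ) (hi : i < N) (hj : j < N) :
    VV d N i * GG d ((i : ℤ) - (j : ℤ)) =
      (Real.pi / Real.sin (Real.pi * d)) *
        ((PP d N j).eval (i : ℝ) * Lagrange.nodalWeight (range N) (fun k : ℕ => (k : ℝ)) i) := by
  have hw : Lagrange.nodalWeight (range N) (fun k : ℕ => (k : ℝ)) i =
      ((i.factorial : ℝ) * ((-1) ^ (N - 1 - i) * ((N - 1 - i).factorial : ℝ)))⁻¹ := by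
    rw [Lagrange.nodalWeight, prod_inv_distrib, prod_erase_split N i hi, prod_range_fact,
      prod_Ico_fact i N (by omega)]
  rw [hw, PP_eval d N j hj, VV]
  have f1 : Real.Gamma ((i : ℝ) + 1) = i.factorial := Real.Gamma_nat_eq_factorial i
  have f2 : Real.Gamma ((N : ℝ) - i) = (N - 1 - i).factorial := by
    rw [← Real.Gamma_nat_eq_factorial]
    congr 1
    rw [Nat.sub_sub, Nat.cast_sub (by omega)]
    push_cast; ring
  rw [f1, f2]
  have a1 := prod1 ((i : ℝ) - d) (by simpa using not_int' d hd0 hd1 (i : ℤ)) j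
  have a2 := prod2 ((i : ℝ) + d) (by simpa using not_int d hd0 hd1 (i : ℤ)) j N (by omega)
  have a3 := GG_mul d hd0 hd1 ((i : ℤ) - (j : ℤ))
  have e1 : (i : ℝ) - d + 1 = i + 1 - d := by ring
  have e2 : (i : ℝ) - d - j + 1 = (((i : ℤ) - (j : ℤ) : ℤ) : ℝ) + 1 - d := by push_cast; ring
  have e3 : (j : ℝ) + 1 - ((i : ℝ) + d) = 1 - d - (((i : ℤ) - (j : ℤ) : ℤ) : ℝ) := by
    push_cast; ring
  have e4 : (N : ℝ) - ((i : ℝ) + d) = N - i - d := by ring
  rw [e1, e2] at a1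
  rw [e3, e4] at a2
  rw [← a1, ← a2]
  have a4 : ∏ r ∈ Ico (j + 1) N, ((r : ℝ) - ((i : ℝ) + d)) =
      (-1) ^ (N - 1 - j) * ∏ r ∈ Ico (j + 1) N, ((i : ℝ) + d - r) := by
    have : ∀ r ∈ Ico (j + 1) N, ((r : ℝ) - ((i : ℝ) + d)) = (-1) * ((i : ℝ) + d - r) :=
      fun r _ => by ring
    rw [prod_congr rfl this, prod_mul_distrib, prod_const, Nat.card_Ico,
      show N - (j + 1) = N - 1 - j by omega]
  rw [a4]
  have sgn : ((-1 : ℝ) ^ (N - 1 - j)) * (-1) ^ ((i : ℤ) - (j : ℤ)).natAbs = (-1) ^ (N - 1 - i) := by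
    rw [← pow_add]
    apply neg_one_pow_congr
    rw [Nat.even_iff, Nat.even_iff]
    omega
  have sgn2 : ((-1 : ℝ) ^ (N - 1 - i)) * (-1) ^ (N - 1 - i) = 1 := by
    rw [← mul_pow]; simp
  have hf1 : ((i.factorial : ℕ) : ℝ) ≠ 0 := by exact_mod_cast i.factorial_ne_zero
  have hf2 : (((N - 1 - i).factorial : ℕ) : ℝ) ≠ 0 := by exact_mod_cast (N - 1 - i).factorial_ne_zero
  have hsn : ((-1 : ℝ) ^ (N - 1 - i)) ≠ 0 := pow_ne_zero _ (by norm_num)
  set A : ℝ := ∏ r ∈ range j, ((i : ℝ) - d - r)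
  set B : ℝ := ∏ r ∈ Ico (j + 1) N, ((i : ℝ) + d - r)
  set F1 : ℝ := (i.factorial : ℝ)
  set F2 : ℝ := ((N - 1 - i).factorial : ℝ)
  set S : ℝ := Real.pi / Real.sin (Real.pi * d)
  set G1 : ℝ := Real.Gamma ((((i : ℤ) - (j : ℤ) : ℤ) : ℝ) + 1 - d)
  set G2 : ℝ := Real.Gamma (1 - d - (((i : ℤ) - (j : ℤ) : ℤ) : ℝ))
  set q : ℝ := GG d ((i : ℤ) - (j : ℤ))
  have : A * G1 * ((-1) ^ (N - 1 - j) * B * G2) / (F1 * F2) * q =
      A * B * (-1) ^ (N - 1 - j) * (G1 * G2 * q) / (F1 * F2) := by ring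
  rw [this, a3]
  have : A * B * (-1) ^ (N - 1 - j) * ((-1) ^ ((i : ℤ) - (j : ℤ)).natAbs * S) / (F1 * F2) =
      A * B * ((-1) ^ (N - 1 - j) * (-1) ^ ((i : ℤ) - (j : ℤ)).natAbs) * S / (F1 * F2) := by ring
  rw [this, sgn]
  rw [mul_inv, mul_inv]
  have hinv : ((-1 : ℝ) ^ (N - 1 - i))⁻¹ = (-1) ^ (N - 1 - i) :=
    inv_eq_of_mul_eq_one_left sgn2
  rw [hinv]
  field_simp

theorem injN (N : ℕ) : Set.InjOn (fun k : ℕ => (k : ℝ)) (range N) :=
  fun _ _ _ _ h => by simpa using h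

theorem PP_degree (d : ℝ) (N j : ℕ) (hj : j < N) : (PP d N j).degree < #(range N) := by
  rw [PP, Lagrange.degree_nodal, card_erase_of_mem (mem_range.mpr hj), card_range]
  exact_mod_cast Nat.sub_lt (by omega) one_pos

/-- `∑ VV(i) GG(i-j)` does not depend on `j`. -/
theorem VV_sum (d : ℝ) (hd0 : 0 < d) (hd1 : d < 1) (N j : ℕ) (hj : j < N) :
    ∑ i ∈ range N, VV d N i * GG d ((i : ℤ) - (j : ℤ)) = Real.pi / Real.sin (Real.pi * d) := by
  rw [sum_congr rfl fun i hi => VV_GG d hd0 hd1 N i j (mem_range.mp hi) hj, ← mul_sum]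
  have h := Lagrange.coeff_eq_sum (injN N) (PP_degree d N j hj)
  have h1 : (PP d N j).coeff (#(range N) - 1) = 1 := by
    have hm : (PP d N j).Monic := Lagrange.nodal_monic
    have hn : (PP d N j).natDegree = #(range N) - 1 := by
      rw [PP, Lagrange.natDegree_nodal, card_erase_of_mem (mem_range.mpr hj)]
    rw [← hn]; exact hm.coeff_natDegree
  rw [h1] at h
  have h2 : ∑ i ∈ range N, (PP d N j).eval (i : ℝ) *
      Lagrange.nodalWeight (range N) (fun k : ℕ => (k : ℝ)) i = 1 := by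
    rw [h]
    refine sum_congr rfl fun i _ => ?_
    rw [Lagrange.nodalWeight, prod_inv_distrib, div_eq_mul_inv]
  rw [h2, mul_one]

/-- The barycentric sum. -/
theorem VV_sum_div (d : ℝ) (hd0 : 0 < d) (hd1 : d < 1) (N h j : ℕ) (hh : 1 ≤ h) (hj : j < N) :
    ∑ i ∈ range N, VV d N i * GG d ((i : ℤ) - (j : ℤ)) / (h + i) =
      Real.pi / Real.sin (Real.pi * d) *
        ((Real.Gamma (h + d + j) / Real.Gamma (h + d) *
          (Real.Gamma (h + N - d) / Real.Gamma (h + j + 1 - d))) /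
          (Real.Gamma (h + N) / Real.Gamma h)) := by
  have hh' : (0 : ℝ) < h := by exact_mod_cast hh
  have hx : ∀ i ∈ range N, (-(h : ℝ)) ≠ (fun k : ℕ => (k : ℝ)) i := by
    intro i _ hi
    simp only at hi
    have : (0 : ℝ) ≤ i := i.cast_nonneg
    linarith
  have h1 := Lagrange.eval_interpolate_not_at_node (s := range N) (v := fun k : ℕ => (k : ℝ))
    (fun i => (PP d N j).eval (i : ℝ)) hx
  have h2 := Lagrange.eq_interpolate (injN N) (PP_degree d N j hj)
  rw [← h2] at h1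
  have h3 : ∑ i ∈ range N, VV d N i * GG d ((i : ℤ) - (j : ℤ)) / (h + i) =
      - (Real.pi / Real.sin (Real.pi * d)) *
        ∑ i ∈ range N, Lagrange.nodalWeight (range N) (fun k : ℕ => (k : ℝ)) i *
          (-(h : ℝ) - i)⁻¹ * (PP d N j).eval (i : ℝ) := by
    rw [mul_sum]
    refine sum_congr rfl fun i hi => ?_
    rw [VV_GG d hd0 hd1 N i j (mem_range.mp hi) hj]
    have : (-(h : ℝ) - i)⁻¹ = - (h + i : ℝ)⁻¹ := by
      rw [← neg_add', inv_neg]
    rw [this]
    ring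
  have hnod : (Lagrange.nodal (range N) (fun k : ℕ => (k : ℝ))).eval (-(h : ℝ)) =
      (-1) ^ N * (Real.Gamma (h + N) / Real.Gamma h) := by
    rw [Lagrange.eval_nodal]
    have : ∀ r ∈ range N, (-(h : ℝ) - (r : ℝ)) = (-1) * ((h : ℝ) + r) := fun r _ => by ring
    rw [prod_congr rfl this, prod_mul_distrib, prod_const, card_range]
    have := prod3 (h : ℝ) hh' N
    rw [← this, mul_div_cancel_right₀ _ (Real.Gamma_pos_of_pos hh').ne']
  have hP : (PP d N j).eval (-(h : ℝ)) =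
      (-1) ^ (N - 1) * (Real.Gamma (h + d + j) / Real.Gamma (h + d) *
          (Real.Gamma (h + N - d) / Real.Gamma (h + j + 1 - d))) := by
    rw [PP_eval d N j hj]
    have t1 : ∀ r ∈ range j, (-(h : ℝ) - d - r) = (-1) * ((h : ℝ) + d + r) := fun r _ => by ring
    have t2 : ∀ r ∈ Ico (j + 1) N, (-(h : ℝ) + d - r) = (-1) * ((r : ℝ) - (d - h)) :=
      fun r _ => by ring
    rw [prod_congr rfl t1, prod_congr rfl t2, prod_mul_distrib, prod_mul_distrib, prod_const,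
      prod_const, card_range, Nat.card_Ico]
    have b1 := prod3 ((h : ℝ) + d) (by linarith) j
    have b2 := prod2 (d - (h : ℝ)) (by
      intro k hk
      exact not_int d hd0 hd1 (-(h : ℤ)) k (by push_cast; linarith)) j N (by omega)
    have e1 : (j : ℝ) + 1 - (d - h) = h + j + 1 - d := by ring
    have e2 : (N : ℝ) - (d - h) = h + N - d := by ring
    rw [e1, e2] at b2
    have g1 : Real.Gamma ((h : ℝ) + d) ≠ 0 := (Real.Gamma_pos_of_pos (by linarith)).ne'
    have g2 : Real.Gamma ((h : ℝ) + j + 1 - d) ≠ 0 :=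
      (Real.Gamma_pos_of_pos (by have : (0 : ℝ) ≤ j := j.cast_nonneg; linarith)).ne'
    rw [← b1, ← b2, mul_div_cancel_right₀ _ g1, mul_div_cancel_right₀ _ g2]
    have : N - 1 = j + (N - (j + 1)) := by omega
    rw [this, pow_add]
    ring
  have hG : Real.Gamma ((h : ℝ) + N) ≠ 0 := (Real.Gamma_pos_of_pos (by positivity)).ne'
  have hGh : Real.Gamma (h : ℝ) ≠ 0 := (Real.Gamma_pos_of_pos hh').ne'
  rw [h3]
  rw [hnod, hP] at h1
  set X : ℝ := ∑ i ∈ range N, Lagrange.nodalWeight (range N) (fun k : ℕ => (k : ℝ)) i *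
          (-(h : ℝ) - i)⁻¹ * (PP d N j).eval (i : ℝ)
  set Q : ℝ := Real.Gamma (h + d + j) / Real.Gamma (h + d) *
          (Real.Gamma (h + N - d) / Real.Gamma (h + j + 1 - d))
  have hR : Real.Gamma ((h : ℝ) + N) / Real.Gamma h ≠ 0 := div_ne_zero hG hGh
  set R : ℝ := Real.Gamma ((h : ℝ) + N) / Real.Gamma h
  have hpow : ((-1 : ℝ)) ^ N = - (-1) ^ (N - 1) := by
    obtain ⟨n, rfl⟩ : ∃ n, N = n + 1 := ⟨N - 1, by omega⟩
    simp [pow_succ]
  rw [hpow] at h1
  have hpn : ((-1 : ℝ) ^ (N - 1)) ≠ 0 := pow_ne_zero _ (by norm_num)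
  have h4 : Q = - (R * X) := by
    have : (-1 : ℝ) ^ (N - 1) * Q = (-1) ^ (N - 1) * (- (R * X)) := by rw [h1]; ring
    exact mul_left_cancel₀ hpn this
  rw [h4]
  field_simp

theorem pos_half (d : ℝ) (hd0 : 0 < d) (hd1 : d < 1 / 2) : 0 < Real.sin (Real.pi * d) := by
  apply Real.sin_pos_of_pos_of_lt_pi
  · positivity
  · nlinarith [Real.pi_pos]

/-- The exact weights solve the Toeplitz system of `g0 d` (Lagrange interpolation). -/
theorem bE_eq (d : ℝ) (hd0 : 0 < d) (hd1 : d < 1 / 2) (N h : ℕ) (hh : 1 ≤ h) (j : Fin N) :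
    ∑ i : Fin N, bE d N h i * g0 d ((i : ℤ) - (j : ℤ)) = g0 d (-(h : ℤ) - (j : ℤ)) := by
  have hh' : (0 : ℝ) < h := by exact_mod_cast hh
  have hs := pos_half d hd0 hd1
  rw [Fin.sum_univ_eq_sum_range (fun i => bE d N h i * g0 d ((i : ℤ) - (j : ℤ))) N]
  have e : ∀ i ∈ range N, bE d N h i * g0 d ((i : ℤ) - (j : ℤ)) =
      (Real.sin (Real.pi * d) / Real.pi * UU d N h * (d * (1 + 2 * d))) *
        (VV d N i * GG d ((i : ℤ) - (j : ℤ)) / (h + i)) := by
    intro i _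
    rw [bE, g0_eq]; ring
  rw [sum_congr rfl e, ← mul_sum, VV_sum_div d hd0 (by linarith) N h j hh j.2, g0_eq]
  have e2 : GG d (-(h : ℤ) - ((j : ℕ) : ℤ)) =
      Real.Gamma (h + d + (j : ℕ)) / Real.Gamma (h + (j : ℕ) + 1 - d) := by
    rw [show -(h : ℤ) - ((j : ℕ) : ℤ) = -((h + (j : ℕ) : ℕ) : ℤ) by push_cast; ring, GG_neg, GG_nat]
    push_cast
    congr 2
    ring
  rw [e2, UU]
  have hj0 : (0 : ℝ) ≤ (j : ℕ) := Nat.cast_nonneg _
  have hN0 : (0 : ℝ) ≤ N := Nat.cast_nonneg _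
  have h1h : (1 : ℝ) ≤ h := by exact_mod_cast hh
  have g1 : Real.Gamma ((h : ℝ) + d) ≠ 0 := (Real.Gamma_pos_of_pos (by linarith)).ne'
  have g2 : Real.Gamma ((h : ℝ) + (j : ℕ) + 1 - d) ≠ 0 :=
    (Real.Gamma_pos_of_pos (by linarith)).ne'
  have g3 : Real.Gamma ((h : ℝ) + N) ≠ 0 := (Real.Gamma_pos_of_pos (by linarith)).ne'
  have g4 : Real.Gamma ((h : ℝ) + N - d) ≠ 0 := (Real.Gamma_pos_of_pos (by linarith)).ne'
  have g5 : Real.Gamma (h : ℝ) ≠ 0 := (Real.Gamma_pos_of_pos hh').ne'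
  have hpi := Real.pi_pos.ne'
  have hs' := hs.ne'
  field_simp

theorem UU_nonneg (d : ℝ) (hd0 : 0 < d) (hd1 : d < 1 / 2) (N h : ℕ) (hh : 1 ≤ h) :
    0 ≤ UU d N h := by
  have h1h : (1 : ℝ) ≤ h := by exact_mod_cast hh
  have hN0 : (0 : ℝ) ≤ N := Nat.cast_nonneg _
  have g1 := Real.Gamma_pos_of_pos (show 0 < (h : ℝ) + d by linarith)
  have g3 := Real.Gamma_pos_of_pos (show 0 < (h : ℝ) + N by linarith)
  have g4 := Real.Gamma_pos_of_pos (show 0 < (h : ℝ) + N - d by linarith)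
  have g5 := Real.Gamma_pos_of_pos (show 0 < (h : ℝ) by linarith)
  rw [UU]; positivity

theorem VV_nonneg (d : ℝ) (hd1 : d < 1) (N i : ℕ) (hi : i < N) :
    0 ≤ VV d N i := by
  have hi' : (i : ℝ) + 1 ≤ N := by exact_mod_cast hi
  have hi0 : (0 : ℝ) ≤ i := Nat.cast_nonneg _
  have g1 := Real.Gamma_pos_of_pos (show 0 < (i : ℝ) + 1 - d by linarith)
  have g2 := Real.Gamma_pos_of_pos (show 0 < (N : ℝ) - i - d by linarith)
  have g3 := Real.Gamma_pos_of_pos (show 0 < (i : ℝ) + 1 by linarith)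
  have g4 := Real.Gamma_pos_of_pos (show 0 < (N : ℝ) - i by linarith)
  rw [VV]; positivity

theorem bE_nonneg (d : ℝ) (hd0 : 0 < d) (hd1 : d < 1 / 2) (N h : ℕ) (hh : 1 ≤ h) (i : Fin N) :
    0 ≤ bE d N h i := by
  have h1 := UU_nonneg d hd0 hd1 N h hh
  have h2 := VV_nonneg d (by linarith) N i i.2
  have h3 := pos_half d hd0 hd1
  have h4 := Real.pi_pos
  rw [bE]; positivity

theorem GG_pos (d : ℝ) (hd0 : 0 < d) (hd1 : d < 1 / 2) (m : ℤ) : 0 < GG d m := by
  rw [GG]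
  have : 0 ≤ |(m : ℝ)| := abs_nonneg _
  exact div_pos (Real.Gamma_pos_of_pos (by linarith)) (Real.Gamma_pos_of_pos (by linarith))

theorem GG_anti (d : ℝ) (hd0 : 0 < d) (hd1 : d < 1 / 2) :
    Antitone fun n : ℕ => GG d (n : ℤ) := by
  refine antitone_nat_of_succ_le fun n => ?_
  rw [GG_nat, GG_nat]
  have hn : (0 : ℝ) ≤ n := n.cast_nonneg
  have e1 : ((n + 1 : ℕ) : ℝ) + d = (n + d) + 1 := by push_cast; ring
  have e2 : ((n + 1 : ℕ) : ℝ) + 1 - d = (n + 1 - d) + 1 := by push_cast; ring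
  rw [e1, e2, Real.Gamma_add_one (by linarith), Real.Gamma_add_one (by linarith)]
  have g1 := Real.Gamma_pos_of_pos (show 0 < (n : ℝ) + d by linarith)
  have g2 := Real.Gamma_pos_of_pos (show 0 < (n : ℝ) + 1 - d by linarith)
  rw [div_le_div_iff₀ (mul_pos (by linarith) g2) g2]
  have : 0 ≤ (1 - 2 * d) * (Real.Gamma (n + d) * Real.Gamma (n + 1 - d)) :=
    mul_nonneg (by linarith) (mul_pos g1 g2).le
  nlinarith

theorem bE_sum (d : ℝ) (hd0 : 0 < d) (hd1 : d < 1 / 2) (N h : ℕ) (hh : 1 ≤ h) :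
    ∑ i : Fin N, bE d N h i ≤ 1 := by
  rcases Nat.eq_zero_or_pos N with hN | hN
  · subst hN; simp
  have hs := pos_half d hd0 hd1
  have hpi := Real.pi_pos
  have hc : 0 < d * (1 + 2 * d) := by positivity
  set K : ℝ := Real.pi / Real.sin (Real.pi * d) with hK
  have hKpos : 0 < K := by positivity
  have hbeq : ∀ j : Fin N, ∑ i : Fin N, bE d N h i * GG d ((i : ℤ) - (j : ℤ)) =
      GG d (-(h : ℤ) - (j : ℤ)) := by
    intro j
    have := bE_eq d hd0 hd1 N h hh j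
    simp only [g0_eq] at this
    have h2 : d * (1 + 2 * d) * ∑ i : Fin N, bE d N h i * GG d ((i : ℤ) - (j : ℤ)) =
        d * (1 + 2 * d) * GG d (-(h : ℤ) - (j : ℤ)) := by
      rw [← this, mul_sum]
      exact sum_congr rfl fun i _ => by ring
    exact mul_left_cancel₀ hc.ne' h2
  have hV : ∀ i : Fin N, ∑ j : Fin N, VV d N j * GG d ((i : ℤ) - (j : ℤ)) = K := by
    intro i
    rw [hK, ← VV_sum d hd0 (by linarith) N i i.2,
      ← Fin.sum_univ_eq_sum_range (fun j => VV d N j * GG d ((j : ℤ) - ((i : ℕ) : ℤ))) N]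
    refine sum_congr rfl fun j _ => ?_
    rw [← GG_neg d ((j : ℤ) - (i : ℤ)), neg_sub]
  have h1 : K * ∑ i : Fin N, bE d N h i = ∑ j : Fin N, VV d N j * GG d (-(h : ℤ) - (j : ℤ)) := by
    calc K * ∑ i : Fin N, bE d N h i
        = ∑ i : Fin N, bE d N h i * ∑ j : Fin N, VV d N j * GG d ((i : ℤ) - (j : ℤ)) := by
          rw [mul_sum]
          exact sum_congr rfl fun i _ => by rw [hV i]; ring
      _ = ∑ j : Fin N, VV d N j * ∑ i : Fin N, bE d N h i * GG d ((i : ℤ) - (j : ℤ)) := by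
          simp_rw [mul_sum]
          rw [sum_comm]
          exact sum_congr rfl fun j _ => sum_congr rfl fun i _ => by ring
      _ = ∑ j : Fin N, VV d N j * GG d (-(h : ℤ) - (j : ℤ)) :=
          sum_congr rfl fun j _ => by rw [hbeq j]
  have h2 : ∑ j : Fin N, VV d N j * GG d (-(h : ℤ) - (j : ℤ)) ≤ K := by
    rw [← hV ⟨0, hN⟩]
    refine sum_le_sum fun j _ => mul_le_mul_of_nonneg_left ?_ (VV_nonneg d (by linarith) N j j.2)
    have e1 : -(h : ℤ) - (j : ℤ) = -((h + (j : ℕ) : ℕ) : ℤ) := by push_cast; ring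
    have e2 : (((⟨0, hN⟩ : Fin N) : ℕ) : ℤ) - (j : ℤ) = -(((j : ℕ) : ℕ) : ℤ) := by simp
    rw [e1, e2, GG_neg, GG_neg]
    exact GG_anti d hd0 hd1 (by omega)
  rw [← h1] at h2
  by_contra hcon
  push Not at hcon
  nlinarith

theorem g0_even (d : ℝ) (m : ℤ) : g0 d (-m) = g0 d m := by
  rw [g0_eq, g0_eq, GG_neg]

theorem bb_wt (d : ℝ) (hd0 : 0 < d) (hd1 : d < 1 / 2) (N : ℕ) : IsWt (g0 d) N (bb d N) := by
  intro x j
  rcases lt_or_ge x 0 with hx | hx
  · have e : ∀ i : Fin N, bb d N x i = bE d N (-x).toNat i := fun i => by rw [bb, if_pos hx]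
    simp_rw [e]
    rw [bE_eq d hd0 hd1 N (-x).toNat (by omega) j]
    congr 1
    omega
  rcases lt_or_ge x N with hxN | hxN
  · have e : ∀ i : Fin N, bb d N x i = if x = (i : ℤ) then 1 else 0 := fun i => by
      rw [bb, if_neg (by omega), if_pos hxN]
    simp_rw [e]
    have hx' : x.toNat < N := by omega
    rw [Finset.sum_eq_single (⟨x.toNat, hx'⟩ : Fin N)]
    · have : x = ((x.toNat : ℕ) : ℤ) := by omega
      simp only [if_pos this, one_mul]
      congr 1
      omega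
    · intro i _ hi
      rw [if_neg, zero_mul]
      intro h
      apply hi
      ext
      simp only
      omega
    · intro h; exact absurd (mem_univ _) h
  · have e : ∀ i : Fin N, bb d N x i = bE d N (x - N + 1).toNat (N - 1 - i) := fun i => by
      rw [bb, if_neg (by omega), if_neg (by omega)]
    simp_rw [e]
    have hrev : ∀ i : Fin N, bE d N (x - N + 1).toNat (N - 1 - (i : ℕ)) *
        g0 d ((i : ℤ) - (j : ℤ)) =
        (fun k : Fin N => bE d N (x - N + 1).toNat k * g0 d ((k : ℤ) - ((Fin.rev j : Fin N) : ℤ)))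
          (Fin.revPerm i) := by
      intro i
      simp only
      have hi := i.2
      have hj := j.2
      have e1 : ((Fin.revPerm i : Fin N) : ℕ) = N - 1 - (i : ℕ) := by
        rw [Fin.revPerm_apply, Fin.val_rev]; omega
      have e2 : ((Fin.rev j : Fin N) : ℕ) = N - 1 - (j : ℕ) := by rw [Fin.val_rev]; omega
      rw [e1, e2, ← g0_even]
      congr 2
      omega
    rw [sum_congr rfl fun i _ => hrev i]
    rw [Equiv.sum_comp Fin.revPerm (fun k : Fin N => bE d N (x - N + 1).toNat k *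
      g0 d ((k : ℤ) - ((Fin.rev j : Fin N) : ℤ)))]
    rw [bE_eq d hd0 hd1 N (x - N + 1).toNat (by omega) (Fin.rev j), ← g0_even]
    have hj := j.2
    have e2 : ((Fin.rev j : Fin N) : ℕ) = N - 1 - (j : ℕ) := by rw [Fin.val_rev]; omega
    rw [e2]
    congr 1
    omega

theorem bb_nonneg (d : ℝ) (hd0 : 0 < d) (hd1 : d < 1 / 2) (N : ℕ) (y : ℤ) (i : Fin N) :
    0 ≤ bb d N y i := by
  rw [bb]
  split_ifs with h1 h2 h3
  · exact bE_nonneg d hd0 hd1 N _ (by omega) i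
  · exact zero_le_one
  · exact le_rfl
  · have := i.2
    exact bE_nonneg d hd0 hd1 N _ (by omega) (⟨N - 1 - i, by omega⟩ : Fin N)

theorem bb_sum (d : ℝ) (hd0 : 0 < d) (hd1 : d < 1 / 2) (N : ℕ) (y : ℤ) :
    ∑ i : Fin N, bb d N y i ≤ 1 := by
  rcases lt_or_ge y 0 with hx | hx
  · have e : ∀ i : Fin N, bb d N y i = bE d N (-y).toNat i := fun i => by rw [bb, if_pos hx]
    simp_rw [e]
    exact bE_sum d hd0 hd1 N _ (by omega)
  rcases lt_or_ge y N with hxN | hxN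
  · have e : ∀ i : Fin N, bb d N y i = if y = (i : ℤ) then 1 else 0 := fun i => by
      rw [bb, if_neg (by omega), if_pos hxN]
    simp_rw [e]
    have hx' : y.toNat < N := by omega
    rw [Finset.sum_eq_single (⟨y.toNat, hx'⟩ : Fin N)]
    · split_ifs <;> norm_num
    · intro i _ hi
      rw [if_neg]
      intro h
      apply hi
      ext
      simp only
      omega
    · intro h; exact absurd (mem_univ _) h
  · have e : ∀ i : Fin N, bb d N y i =
        (fun k : Fin N => bE d N (y - N + 1).toNat k) (Fin.revPerm i) := fun i => by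
      have hi := i.2
      have e1 : ((Fin.revPerm i : Fin N) : ℕ) = N - 1 - (i : ℕ) := by
        rw [Fin.revPerm_apply, Fin.val_rev]; omega
      rw [bb, if_neg (by omega), if_neg (by omega)]
      simp only
      rw [e1]
    simp_rw [e]
    rw [Equiv.sum_comp Fin.revPerm (fun k : Fin N => bE d N (y - N + 1).toNat k)]
    exact bE_sum d hd0 hd1 N _ (by omega)

end Pool.Agent.Work.MP_0e0306_pr
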