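import Pool.Agent.Work.MP_0e0306_pr.Codim

/-!
# Trace bounds for all `0 < 2 H < 2`
-/

open Finset Matrix

namespace FGN

variable {a : ℝ}

lemma dot_symm {N : ℕ} {A : Matrix (Fin N) (Fin N) ℝ} (hA : Aᵀ = A) (u v : Fin N → ℝ) :
    u ⬝ᵥ (A *ᵥ v) = v ⬝ᵥ (A *ᵥ u) := by
  rw [Matrix.dotProduct_mulVec, ← Matrix.mulVec_transpose, hA, dotProduct_comm]

/-- the cross covariance form is bounded by one on a normalised vector -/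
lemma cross_le (ha1 : 1 < a) (ha2 : a < 2) (N k : ℕ) (u v : Fin N → ℝ)
    (hu : u ⬝ᵥ (TM (gam a) N 0 *ᵥ u) ≤ 1) (hv : v ⬝ᵥ (TM (gam a) N 0 *ᵥ v) ≤ 1) :
    |u ⬝ᵥ (TM (gam a) N k *ᵥ v)| ≤ 1 := by
  have h1 := block_nonneg ha1 ha2 N k u v
  have h2 := block_nonneg ha1 ha2 N k (-u) v
  rw [Matrix.mulVec_neg, neg_dotProduct_neg, neg_dotProduct] at h2
  rw [abs_le]
  constructor <;> linarith

theorem trace_B_one (ha1 : 1 < a) (ha2 : a < 2) (n k : ℕ) (hk : 1 ≤ k) :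
    |((TM (gam a) (n + 1) 0)⁻¹ * TM (gam a) (n + 1) k).trace| ≤ 3 := by
  obtain ⟨κ, hκ1, hκ2⟩ := split_inv n ha1 ha2
  have h1 : ((TM (gam a) (n + 1) 0)⁻¹ * TM (gam a) (n + 1) k).trace =
      ((TM (gam' a) n 0)⁻¹ * TM (gam' a) n k).trace + κ ⬝ᵥ (TM (gam a) (n + 1) k *ᵥ κ) := by
    rw [hκ2, Matrix.add_mul, Matrix.trace_add, tr_vec]
    congr 1
    rw [Matrix.mul_assoc, Matrix.mul_assoc, Matrix.trace_mul_comm, ← Dm_TM a n k]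
    simp only [Matrix.mul_assoc]
  have h2 := (sym_gam' ha1 ha2).trace_one (N := n) hk
  have h3 := cross_le ha1 ha2 (n + 1) k κ κ hκ1.le hκ1.le
  rw [h1]
  refine (abs_add_le _ _).trans ?_
  linarith

theorem trace_B_two (ha1 : 1 < a) (ha2 : a < 2) (n k l : ℕ) (hk : 1 ≤ k) (hl : 1 ≤ l) :
    |((TM (gam a) (n + 1) 0)⁻¹ * TM (gam a) (n + 1) k *
      ((TM (gam a) (n + 1) 0)⁻¹ * TM (gam a) (n + 1) l)).trace| ≤ 7 := by
  obtain ⟨κ, hκ1, hκ2⟩ := split_inv n ha1 ha2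
  set T := TM (gam a) (n + 1) 0 with hT
  set M : ℕ → Matrix (Fin (n + 1)) (Fin (n + 1)) ℝ := TM (gam a) (n + 1) with hM
  set T' := TM (gam' a) n 0 with hT'
  set Q := (Dm n)ᵀ * T'⁻¹ * Dm n with hQ
  set K := Matrix.vecMulVec κ κ with hK
  have hPD : T.PosDef := gam_posDef_B ha1 ha2 (n + 1)
  have hdet : IsUnit T.det := (Matrix.isUnit_iff_isUnit_det T).mp hPD.isUnit
  have hsymm : Tᵀ = T := TM_isSymm (gam_even a) (n + 1)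
  have hsymmi : (T⁻¹)ᵀ = T⁻¹ := by rw [Matrix.transpose_nonsing_inv, hsymm]
  -- positivity of `Q`
  have hT'eq : T' = Dm n * T * (Dm n)ᵀ := (Dm_TM a n 0).symm
  have hPD' : T'.PosDef := by
    have h1 : (Dm n * T * (Dm n)ᴴ).PosDef := hPD.mul_mul_conjTranspose_same (Dm_inj n)
    rwa [Matrix.conjTranspose_eq_transpose_of_trivial, ← hT'eq] at h1
  have hQsymm : Qᵀ = Q := by
    rw [hQ, Matrix.transpose_mul, Matrix.transpose_mul, Matrix.transpose_transpose,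
      Matrix.transpose_nonsing_inv, TM_isSymm (sym_gam' ha1 ha2).even n, Matrix.mul_assoc]
  have hQnn : ∀ x, 0 ≤ x ⬝ᵥ (Q *ᵥ x) := by
    intro x
    have h1 := hPD'.inv.posSemidef.dotProduct_mulVec_nonneg (Dm n *ᵥ x)
    refine le_trans h1 (le_of_eq ?_)
    rw [star_trivial, hQ, ← Matrix.mulVec_mulVec, ← Matrix.mulVec_mulVec, Matrix.dotProduct_mulVec x,
      Matrix.vecMul_transpose]
  -- bound of the form `Q` on the two relevant vectors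
  have hQle : ∀ y, y ⬝ᵥ (T⁻¹ *ᵥ y) ≤ 1 → y ⬝ᵥ (Q *ᵥ y) ≤ 1 := by
    intro y hy
    refine le_trans ?_ hy
    rw [hκ2, Matrix.add_mulVec, dotProduct_add]
    have : 0 ≤ y ⬝ᵥ (K *ᵥ y) := by
      rw [hK, Matrix.vecMulVec_mulVec, dotProduct_smul, dotProduct_comm]
      simp only [MulOpposite.smul_eq_mul_unop, MulOpposite.unop_op]
      exact mul_self_nonneg _
    linarith
  have hTi : ∀ y : Fin (n + 1) → ℝ, T *ᵥ (T⁻¹ *ᵥ y) = y := by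
    intro y
    rw [Matrix.mulVec_mulVec, Matrix.mul_nonsing_inv _ hdet, Matrix.one_mulVec]
  have hb : ∀ (k : ℕ) (u v : Fin (n + 1) → ℝ), 0 ≤ u ⬝ᵥ (T *ᵥ u) + 2 * (u ⬝ᵥ (M k *ᵥ v)) +
      v ⬝ᵥ (T *ᵥ v) := fun k u v => block_nonneg ha1 ha2 (n + 1) k u v
  have hy : ∀ k, (M k *ᵥ κ) ⬝ᵥ (T⁻¹ *ᵥ (M k *ᵥ κ)) ≤ 1 := by
    intro k
    have h1 := hb k (-(T⁻¹ *ᵥ (M k *ᵥ κ))) κ
    rw [Matrix.mulVec_neg, neg_dotProduct_neg, neg_dotProduct, hTi, hκ1,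
      dotProduct_comm (T⁻¹ *ᵥ (M k *ᵥ κ))] at h1
    linarith
  have hz : ∀ k, ((M k)ᵀ *ᵥ κ) ⬝ᵥ (T⁻¹ *ᵥ ((M k)ᵀ *ᵥ κ)) ≤ 1 := by
    intro k
    have h1 := hb k κ (-(T⁻¹ *ᵥ ((M k)ᵀ *ᵥ κ)))
    rw [Matrix.mulVec_neg, Matrix.mulVec_neg, neg_dotProduct_neg, dotProduct_neg, hTi, hκ1,
      Matrix.dotProduct_mulVec κ, ← Matrix.mulVec_transpose,
      dotProduct_comm (T⁻¹ *ᵥ ((M k)ᵀ *ᵥ κ))] at h1
    linarith
  have hcs : ∀ y z, y ⬝ᵥ (Q *ᵥ y) ≤ 1 → z ⬝ᵥ (Q *ᵥ z) ≤ 1 → |z ⬝ᵥ (Q *ᵥ y)| ≤ 1 := by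
    intro y z hy hz
    have h1 := hQnn (z + y)
    have h2 := hQnn (z - y)
    rw [Matrix.mulVec_add, dotProduct_add, add_dotProduct, add_dotProduct] at h1
    rw [Matrix.mulVec_sub, dotProduct_sub, sub_dotProduct, sub_dotProduct] at h2
    have h3 : y ⬝ᵥ (Q *ᵥ z) = z ⬝ᵥ (Q *ᵥ y) := dot_symm hQsymm y z
    rw [h3] at h1 h2
    rw [abs_le]
    constructor <;> linarith
  have hmid : ∀ k l, |κ ⬝ᵥ ((M k * (Q * M l)) *ᵥ κ)| ≤ 1 := by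
    intro k l
    have h1 : κ ⬝ᵥ ((M k * (Q * M l)) *ᵥ κ) = ((M k)ᵀ *ᵥ κ) ⬝ᵥ (Q *ᵥ (M l *ᵥ κ)) := by
      rw [← Matrix.mulVec_mulVec, ← Matrix.mulVec_mulVec, Matrix.dotProduct_mulVec κ,
        ← Matrix.mulVec_transpose]
    rw [h1]
    exact hcs _ _ (hQle _ (hy l)) (hQle _ (hz k))
  have hexp : (T⁻¹ * M k * (T⁻¹ * M l)).trace =
      (T'⁻¹ * TM (gam' a) n k * (T'⁻¹ * TM (gam' a) n l)).trace +
      κ ⬝ᵥ ((M l * (Q * M k)) *ᵥ κ) + κ ⬝ᵥ ((M k * (Q * M l)) *ᵥ κ) +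
      (κ ⬝ᵥ (M k *ᵥ κ)) * (κ ⬝ᵥ (M l *ᵥ κ)) := by
    have h1 : T⁻¹ * M k * (T⁻¹ * M l) = Q * M k * (Q * M l) + Q * M k * (K * M l) +
        K * (M k * (Q * M l)) + K * (M k * (K * M l)) := by
      rw [hκ2]
      simp only [Matrix.add_mul, Matrix.mul_add, Matrix.mul_assoc]
      abel
    rw [h1, Matrix.trace_add, Matrix.trace_add, Matrix.trace_add, tr_vec, tr_vec]
    congr 1
    · congr 1
      congr 1
      · rw [hQ]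
        have h2 : (Dm n)ᵀ * T'⁻¹ * Dm n * M k * ((Dm n)ᵀ * T'⁻¹ * Dm n * M l) =
            (Dm n)ᵀ * (T'⁻¹ * (Dm n * M k * (Dm n)ᵀ) * (T'⁻¹ * (Dm n * M l))) := by
          simp only [Matrix.mul_assoc]
        rw [h2, Matrix.trace_mul_comm, ← Dm_TM a n k, ← Dm_TM a n l]
        simp only [Matrix.mul_assoc, hM]
      · rw [Matrix.trace_mul_comm, Matrix.mul_assoc, tr_vec]
    · rw [← Matrix.mulVec_mulVec, ← Matrix.mulVec_mulVec, hK, Matrix.vecMulVec_mulVec]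
      simp only [Matrix.mulVec_smul, dotProduct_smul]
      simp only [MulOpposite.smul_eq_mul_unop, MulOpposite.unop_op]
  rw [hexp]
  have b1 := (sym_gam' ha1 ha2).trace_two (N := n) hk hl
  have b2 := hmid l k
  have b3 := hmid k l
  have b4 := cross_le ha1 ha2 (n + 1) k κ κ hκ1.le hκ1.le
  have b5 := cross_le ha1 ha2 (n + 1) l κ κ hκ1.le hκ1.le
  have b6 : |(κ ⬝ᵥ (M k *ᵥ κ)) * (κ ⬝ᵥ (M l *ᵥ κ))| ≤ 1 := by
    rw [abs_mul]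
    exact mul_le_one₀ b4 (abs_nonneg _) b5
  rw [abs_le] at b1 b2 b3 b6 ⊢
  constructor <;> linarith [b1.1, b1.2, b2.1, b2.2, b3.1, b3.2, b6.1, b6.2]

/-- all exponents -/
theorem main_bounds (ha : 0 < a) (ha2 : a < 2) (N : ℕ) :
    (TM (gam a) N 0).PosDef ∧ ∀ k l : ℕ, 1 ≤ k → 1 ≤ l →
      |((TM (gam a) N 0)⁻¹ * TM (gam a) N k).trace| ≤ 3 ∧
      |((TM (gam a) N 0)⁻¹ * TM (gam a) N k * ((TM (gam a) N 0)⁻¹ * TM (gam a) N l)).trace| ≤ 7 := by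
  rcases le_or_gt a 1 with h1 | h1
  · refine ⟨gam_posDef_A ha h1 N, fun k l hk hl => ⟨?_, ?_⟩⟩
    · exact ((sym_gam ha h1).trace_one hk).trans (by norm_num)
    · exact ((sym_gam ha h1).trace_two hk hl).trans (by norm_num)
  · refine ⟨gam_posDef_B h1 ha2 N, fun k l hk hl => ?_⟩
    rcases N with _ | n
    · simp [Matrix.trace]
    · exact ⟨trace_B_one h1 ha2 n k hk, trace_B_two h1 ha2 n k l hk hl⟩

end FGN
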