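import Pool.Agent.Work.MP_0e0306_pr.Defs

/-!
# The Green function is nonnegative and antitone: maximum principle
-/

open Finset

namespace Pool.Agent.Work.MP_0e0306_pr

theorem MaxP.hasSum_of_eq {ι : Type*} {f g : ι → ℝ} {a : ℝ} (h : HasSum f a)
    (hfg : ∀ i, f i = g i) : HasSum g a := (funext hfg : f = g) ▸ h

/-- the total mass of the step distribution is `1` -/
theorem MaxP.hasSum_mass (p : ℕ → ℝ) (hp0 : p 0 = 0) (hp : HasSum p (1 / 2)) :
    HasSum (fun j : ℤ => p j.natAbs) 1 := by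
  have h1 : HasSum (fun n : ℕ => (fun j : ℤ => p j.natAbs) (n : ℤ)) (1 / 2) := by
    simpa using hp
  have h2 : HasSum (fun n : ℕ => (fun j : ℤ => p j.natAbs) (-(n : ℤ))) (1 / 2) := by
    simpa using hp
  have h3 := HasSum.of_nat_of_neg (f := fun j : ℤ => p j.natAbs) h1 h2
  have h4 : (1 : ℝ) / 2 + 1 / 2 - (fun j : ℤ => p j.natAbs) 0 = 1 := by
    simp [hp0]; norm_num
  rwa [h4] at h3

theorem MaxP.exists_min (g : ℕ → ℝ) (h : Filter.Tendsto g Filter.atTop (nhds 0)) (n1 : ℕ)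
    (hneg : g n1 < 0) : ∃ n0, g n0 < 0 ∧ ∀ n, g n0 ≤ g n := by
  obtain ⟨N, hN⟩ := Filter.eventually_atTop.1 (h.eventually (lt_mem_nhds hneg))
  obtain ⟨n0, hn0, hmin⟩ := Finset.exists_min_image (range (max N (n1 + 1))) g
    ⟨n1, by simp⟩
  have h1 : g n0 ≤ g n1 := hmin n1 (by simp)
  refine ⟨n0, lt_of_le_of_lt h1 hneg, fun n => ?_⟩
  by_cases hn : n < max N (n1 + 1)
  · exact hmin n (by simpa using hn)
  · have : N ≤ n := by
      have := le_max_left N (n1 + 1)
      omega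
    exact h1.trans (hN n this).le

theorem MaxP.nonneg (p : ℕ → ℝ) (hp0 : p 0 = 0) (hpos : ∀ m, 1 ≤ m → 0 < p m)
    (hp : HasSum p (1 / 2)) (G : ℤ → ℝ)
    (heven : ∀ m, G (-m) = G m) (hlim : Filter.Tendsto (fun n : ℕ => G n) Filter.atTop (nhds 0))
    (hG : ∀ m : ℤ, HasSum (fun j : ℤ => p j.natAbs * G (m - j)) (G m - if m = 0 then 1 else 0))
    (m : ℤ) : 0 ≤ G m := by
  have habs : ∀ m : ℤ, G m = G (m.natAbs : ℤ) := by
    intro m
    rcases Int.natAbs_eq m with h | h
    · rw [← h]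
    · have : (m.natAbs : ℤ) = -m := by omega
      rw [this, heven]
  by_contra hcon
  push Not at hcon
  rw [habs] at hcon
  obtain ⟨n0, hn0, hmin⟩ := MaxP.exists_min (fun n : ℕ => G n) hlim m.natAbs hcon
  have hmin' : ∀ m : ℤ, G n0 ≤ G m := fun m => by rw [habs m]; exact hmin _
  have hs1 := hG n0
  have hs2 := (MaxP.hasSum_mass p hp0 hp).mul_right (G n0)
  have hs3 := hs1.sub hs2
  have hnn : ∀ j : ℤ, 0 ≤ p j.natAbs * G (n0 - j) - p j.natAbs * G n0 := by
    intro j
    rw [← mul_sub]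
    apply mul_nonneg
    · by_cases hj : j.natAbs = 0
      · rw [hj, hp0]
      · exact (hpos _ (by omega)).le
    · linarith [hmin' (n0 - j)]
  have hle : (G n0 - (if (n0 : ℤ) = 0 then 1 else 0)) - 1 * G n0 ≤ 0 := by
    split_ifs <;> linarith
  have h0 := hs3.nonneg hnn
  have heq : (G n0 - (if (n0 : ℤ) = 0 then 1 else 0)) - 1 * G n0 = 0 := le_antisymm hle h0
  rw [heq] at hs3
  have hzero := (hasSum_zero_iff_of_nonneg hnn).1 hs3
  have hconst : ∀ k : ℕ, 1 ≤ k → G k = G n0 := by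
    intro k hk
    by_cases hkn : (k : ℤ) = n0
    · rw [hkn]
    have h1 := congrFun hzero (n0 - k : ℤ)
    simp only [Pi.zero_apply, sub_sub_cancel] at h1
    rw [← mul_sub] at h1
    rcases mul_eq_zero.1 h1 with h2 | h2
    · exact absurd h2 (hpos _ (by omega)).ne'
    · linarith
  have hlim2 : Filter.Tendsto (fun n : ℕ => G n) Filter.atTop (nhds (G n0)) := by
    refine tendsto_const_nhds.congr' ?_
    filter_upwards [Filter.eventually_ge_atTop 1] with k hk
    exact (hconst k hk).symm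
  have := tendsto_nhds_unique hlim hlim2
  linarith

theorem green_mono (p : ℕ → ℝ) (hp0 : p 0 = 0) (hpos : ∀ m, 1 ≤ m → 0 < p m)
    (hanti : ∀ m, 1 ≤ m → p (m + 1) ≤ p m) (hp : HasSum p (1 / 2)) (G : ℤ → ℝ)
    (heven : ∀ m, G (-m) = G m) (hlim : Filter.Tendsto (fun n : ℕ => G n) Filter.atTop (nhds 0))
    (hG : ∀ m : ℤ, HasSum (fun j : ℤ => p j.natAbs * G (m - j)) (G m - if m = 0 then 1 else 0)) :
    (∀ m, 0 ≤ G m) ∧ Antitone fun n : ℕ => G n := by
  refine ⟨MaxP.nonneg p hp0 hpos hp G heven hlim hG, antitone_nat_of_succ_le ?_⟩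
  have hanti' : ∀ a b : ℕ, 1 ≤ a → a ≤ b → p b ≤ p a := by
    intro a b ha hab
    induction b, hab using Nat.le_induction with
    | base => exact le_rfl
    | succ b hb ih => exact (hanti b (by omega)).trans ih
  by_contra hcon
  push Not at hcon
  obtain ⟨n1, hn1⟩ := hcon
  set D : ℕ → ℝ := fun n => G n - G ((n : ℤ) + 1) with hD
  have hDlim : Filter.Tendsto D Filter.atTop (nhds 0) := by
    have h1 := hlim.sub ((Filter.tendsto_add_atTop_iff_nat 1).2 hlim)
    rw [sub_zero] at h1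
    refine h1.congr (fun n => ?_)
    simp [hD]
  have hneg1 : D n1 < 0 := by
    simp only [hD]
    push_cast at hn1
    linarith
  obtain ⟨m, hm, hmin⟩ := MaxP.exists_min D hDlim n1 hneg1
  -- the equation for `D`
  have hs1 : HasSum (fun j : ℤ => p j.natAbs * (G (m - j) - G (m + 1 - j)))
      (D m - if m = 0 then 1 else 0) := by
    have h1 := (hG m).sub (hG (m + 1))
    have h2 : (if ((m : ℤ) + 1 = 0) then (1 : ℝ) else 0) = 0 := if_neg (by omega)
    rw [h2] at h1
    have h3 : G m - (if (m : ℤ) = 0 then (1 : ℝ) else 0) - (G (m + 1) - 0)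
        = D m - if m = 0 then 1 else 0 := by
      simp only [hD, Nat.cast_eq_zero]
      ring
    rw [h3] at h1
    exact MaxP.hasSum_of_eq h1 (fun j => by ring)
  have hs2 : HasSum (fun i : ℤ => p (m - i : ℤ).natAbs * (G i - G (i + 1)))
      (D m - if m = 0 then 1 else 0) := by
    have h1 := (Equiv.subLeft (m : ℤ)).hasSum_iff.2 hs1
    refine MaxP.hasSum_of_eq h1 (fun j => ?_)
    simp only [Function.comp_apply, Equiv.subLeft_apply, sub_sub_cancel]
    congr 3
    ring_nf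
  have hs3 : HasSum (fun i : ℕ => (p (m - i : ℤ).natAbs - p (m + 1 + i)) * D i)
      (D m - if m = 0 then 1 else 0) := by
    refine MaxP.hasSum_of_eq hs2.nat_add_neg_add_one (fun i => ?_)
    have h1 : G (-((i : ℤ) + 1)) = G (i + 1) := heven _
    have h2 : G (-((i : ℤ) + 1) + 1) = G i := by
      rw [← heven]; congr 1; ring
    have h3 : ((m : ℤ) - -((i : ℤ) + 1)).natAbs = m + 1 + i := by omega
    rw [h1, h2, h3]
    simp only [hD]
    ring
  have hmass : HasSum (fun i : ℤ => p (m - i : ℤ).natAbs) 1 := by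
    have h1 := (Equiv.subLeft (m : ℤ)).hasSum_iff.2 (MaxP.hasSum_mass p hp0 hp)
    exact h1
  have hs4 : HasSum (fun i : ℕ => p (m - i : ℤ).natAbs + p (m + 1 + i)) 1 := by
    refine MaxP.hasSum_of_eq hmass.nat_add_neg_add_one (fun i => ?_)
    have h3 : ((m : ℤ) - -((i : ℤ) + 1)).natAbs = m + 1 + i := by omega
    rw [h3]
  have hs5 : HasSum (fun i : ℕ => p (i + (m + 1))) (1 / 2 - ∑ i ∈ range (m + 1), p i) :=
    (hasSum_nat_add_iff' (m + 1)).2 hp
  have hs5' : HasSum (fun i : ℕ => p (m + 1 + i)) (1 / 2 - ∑ i ∈ range (m + 1), p i) :=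
    MaxP.hasSum_of_eq hs5 (fun i => by rw [add_comm])
  set μ : ℝ := 1 / 2 - ∑ i ∈ range (m + 1), p i with hμ
  have hμpos : 0 < μ := by
    have h1 : p (m + 1 + 0) ≤ μ := le_hasSum hs5' 0 (fun i _ => (hpos _ (by omega)).le)
    exact lt_of_lt_of_le (hpos _ (by omega)) h1
  have hs6 : HasSum (fun i : ℕ => p (m - i : ℤ).natAbs - p (m + 1 + i)) (1 - 2 * μ) := by
    have h1 := hs4.sub (hs5'.mul_left 2)
    exact MaxP.hasSum_of_eq h1 (fun i => by ring)
  have hs7 := hs3.sub (hs6.mul_right (D m))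
  have hnn : ∀ i : ℕ, 0 ≤ (p (m - i : ℤ).natAbs - p (m + 1 + i)) * D i
      - (p (m - i : ℤ).natAbs - p (m + 1 + i)) * D m := by
    intro i
    rw [← mul_sub]
    by_cases him : i = m
    · subst him
      simp
    · apply mul_nonneg
      · have := hanti' (m - i : ℤ).natAbs (m + 1 + i) (by omega) (by omega)
        linarith
      · linarith [hmin i]
  have h0 := hs7.nonneg hnn
  have h1 : μ * D m < 0 := mul_neg_of_pos_of_neg hμpos hm
  split_ifs at h0 <;> nlinarith

end Pool.Agent.Work.MP_0e0306_pr
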