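import Pool.Agent.Work.MP_0e0306_pr.SeqB

/-!
# Positive definiteness
-/

open Finset Matrix

namespace FGN

section polya

variable {ι : Type*} [Fintype ι]

/-- triangular kernels are positive semidefinite -/
lemma tri_nonneg (pos : ι → ℤ) (c : ι → ℝ) (K : ℕ) :
    0 ≤ ∑ s, ∑ t, c s * c t * ((K - (pos s - pos t).natAbs : ℕ) : ℝ) := by
  classical
  -- a window containing everything
  obtain ⟨B, hB⟩ : ∃ B : ℕ, ∀ s, (pos s).natAbs ≤ B := by
    refine ⟨∑ s, (pos s).natAbs, fun s => ?_⟩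
    exact Finset.single_le_sum (f := fun s => (pos s).natAbs) (fun _ _ => Nat.zero_le _)
      (Finset.mem_univ s)
  set W : Finset ℤ := Icc (-(B : ℤ) - K) (B : ℤ) with hW
  have h1 : ∀ s t, ((K - (pos s - pos t).natAbs : ℕ) : ℝ) =
      ∑ τ ∈ W, (if τ ≤ pos s ∧ pos s < τ + K then (1 : ℝ) else 0) *
        (if τ ≤ pos t ∧ pos t < τ + K then (1 : ℝ) else 0) := by
    intro s t
    have hs := hB s
    have ht := hB t
    have h2 : ∀ τ : ℤ, (if τ ≤ pos s ∧ pos s < τ + K then (1 : ℝ) else 0) *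
        (if τ ≤ pos t ∧ pos t < τ + K then (1 : ℝ) else 0) =
        if (τ ≤ pos s ∧ pos s < τ + K) ∧ (τ ≤ pos t ∧ pos t < τ + K) then 1 else 0 := by
      intro τ
      by_cases h3 : τ ≤ pos s ∧ pos s < τ + K
      · by_cases h4 : τ ≤ pos t ∧ pos t < τ + K
        · simp [h3, h4]
        · simp [h4]
      · simp [h3]
    simp only [h2]
    rw [← Finset.sum_filter, Finset.sum_const, nsmul_eq_mul, mul_one]
    congr 1
    have h5 : (W.filter fun τ => (τ ≤ pos s ∧ pos s < τ + K) ∧ (τ ≤ pos t ∧ pos t < τ + K)) =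
        Ioc (max (pos s) (pos t) - K) (min (pos s) (pos t)) := by
      ext τ
      simp only [hW, mem_filter, mem_Icc, mem_Ioc]
      omega
    rw [h5, Int.card_Ioc]
    omega
  have h2 : ∑ s, ∑ t, c s * c t * ((K - (pos s - pos t).natAbs : ℕ) : ℝ) =
      ∑ τ ∈ W, (∑ s, c s * (if τ ≤ pos s ∧ pos s < τ + K then (1 : ℝ) else 0)) ^ 2 := by
    simp only [h1]
    have h3 : ∀ τ, (∑ s, c s * (if τ ≤ pos s ∧ pos s < τ + K then (1 : ℝ) else 0)) ^ 2 =
        ∑ s, ∑ t, c s * c t * ((if τ ≤ pos s ∧ pos s < τ + K then (1 : ℝ) else 0) *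
        (if τ ≤ pos t ∧ pos t < τ + K then (1 : ℝ) else 0)) := by
      intro τ
      rw [sq, Finset.sum_mul_sum]
      refine Finset.sum_congr rfl fun s _ => Finset.sum_congr rfl fun t _ => ?_
      ring
    simp only [h3, Finset.mul_sum]
    rw [Finset.sum_comm]
    have h4 : ∀ s, ∑ t, ∑ τ ∈ W, c s * c t * ((if τ ≤ pos s ∧ pos s < τ + K then (1 : ℝ) else 0) *
        (if τ ≤ pos t ∧ pos t < τ + K then (1 : ℝ) else 0)) = ∑ τ ∈ W, ∑ t, c s * c t *
        ((if τ ≤ pos s ∧ pos s < τ + K then (1 : ℝ) else 0) *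
        (if τ ≤ pos t ∧ pos t < τ + K then (1 : ℝ) else 0)) := fun s => Finset.sum_comm
    rw [Finset.sum_comm]
    simp only [h4]
    rw [Finset.sum_comm]
  rw [h2]
  exact Finset.sum_nonneg fun τ _ => sq_nonneg _

/-- expansion of a sequence in triangular kernels -/
lemma tri_expand (γ : ℕ → ℝ) (M : ℕ) (j : ℕ) (hj : j ≤ M) :
    γ (M - j) = γ M + j * (γ (M - 1) - γ M) +
      ∑ l ∈ range M, (γ (l + 1) - 2 * γ l + γ (l - 1)) * ((l - (M - j) : ℕ) : ℝ) := by
  induction j using Nat.strong_induction_on with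
  | _ j ih =>
    rcases j with _ | _ | j
    · rw [Finset.sum_eq_zero]
      · simp
      · intro l hl
        rw [mem_range] at hl
        have : l - (M - 0) = 0 := by omega
        rw [this]; simp
    · rw [Finset.sum_eq_zero]
      · push_cast; ring_nf
      · intro l hl
        rw [mem_range] at hl
        have : l - (M - (0 + 1)) = 0 := by omega
        rw [this]; simp
    · have h1 := ih (j + 1) (by omega) (by omega)
      have h2 := ih j (by omega) (by omega)
      set m := M - (j + 1) with hm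
      have e1 : M - j = m + 1 := by omega
      have e2 : M - (j + 1 + 1) = m - 1 := by omega
      rw [e1] at h2
      rw [e2]
      have hm1 : 1 ≤ m := by omega
      have h3 : ∑ l ∈ range M, (γ (l + 1) - 2 * γ l + γ (l - 1)) * ((l - (m - 1) : ℕ) : ℝ) =
          2 * ∑ l ∈ range M, (γ (l + 1) - 2 * γ l + γ (l - 1)) * ((l - m : ℕ) : ℝ) -
          ∑ l ∈ range M, (γ (l + 1) - 2 * γ l + γ (l - 1)) * ((l - (m + 1) : ℕ) : ℝ) +
          (γ (m + 1) - 2 * γ m + γ (m - 1)) := by
        have h4 : (γ (m + 1) - 2 * γ m + γ (m - 1)) = ∑ l ∈ range M,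
            (γ (l + 1) - 2 * γ l + γ (l - 1)) * (if l = m then 1 else 0) := by
          rw [Finset.sum_eq_single m]
          · simp
          · intro l _ hl; simp [hl]
          · intro hc; rw [mem_range] at hc; omega
        rw [h4, Finset.mul_sum, ← Finset.sum_sub_distrib, ← Finset.sum_add_distrib]
        refine Finset.sum_congr rfl fun l _ => ?_
        have h5 : ((l - (m - 1) : ℕ) : ℝ) = 2 * ((l - m : ℕ) : ℝ) - ((l - (m + 1) : ℕ) : ℝ) +
            (if l = m then 1 else 0) := by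
          rcases lt_trichotomy l m with hlm | hlm | hlm
          · have a1 : l - (m - 1) = 0 := by omega
            have a2 : l - m = 0 := by omega
            have a3 : l - (m + 1) = 0 := by omega
            rw [a1, a2, a3, if_neg (by omega)]; simp
          · have a1 : l - (m - 1) = 1 := by omega
            have a2 : l - m = 0 := by omega
            have a3 : l - (m + 1) = 0 := by omega
            rw [a1, a2, a3, if_pos hlm]; simp
          · obtain ⟨d, rfl⟩ : ∃ d, l = m + 1 + d := ⟨l - (m + 1), by omega⟩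
            have a1 : m + 1 + d - (m - 1) = d + 2 := by omega
            have a2 : m + 1 + d - m = d + 1 := by omega
            have a3 : m + 1 + d - (m + 1) = d := by omega
            rw [a1, a2, a3, if_neg (by omega)]
            push_cast; ring
        rw [h5]; ring
      rw [h3]
      push_cast at h1 h2 ⊢
      linarith

/-- Polya criterion -/
lemma polya (γ : ℕ → ℝ) (h0 : ∀ n, 0 ≤ γ n) (h1 : ∀ n, γ (n + 1) ≤ γ n)
    (h2 : ∀ n, 0 ≤ γ (n + 2) - 2 * γ (n + 1) + γ n) (pos : ι → ℤ) (c : ι → ℝ) :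
    (γ 2 - 2 * γ 1 + γ 0) * ∑ s, ∑ t, c s * c t * (if pos s = pos t then 1 else 0) ≤
      ∑ s, ∑ t, c s * c t * γ (pos s - pos t).natAbs := by
  classical
  obtain ⟨M, hM2, hM⟩ : ∃ M : ℕ, 2 ≤ M ∧ ∀ s t, (pos s - pos t).natAbs ≤ M := by
    refine ⟨2 + ∑ s, ∑ t, (pos s - pos t).natAbs, by omega, fun s t => ?_⟩
    have h3 : (pos s - pos t).natAbs ≤ ∑ t, (pos s - pos t).natAbs :=
      Finset.single_le_sum (f := fun t => (pos s - pos t).natAbs) (fun _ _ => Nat.zero_le _)
        (Finset.mem_univ t)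
    have h4 : ∑ t, (pos s - pos t).natAbs ≤ ∑ s, ∑ t, (pos s - pos t).natAbs :=
      Finset.single_le_sum (f := fun s => ∑ t, (pos s - pos t).natAbs) (fun _ _ => Nat.zero_le _)
        (Finset.mem_univ s)
    omega
  have hexp : ∀ n, n ≤ M → γ n = γ M + ((M - n : ℕ) : ℝ) * (γ (M - 1) - γ M) +
      ∑ l ∈ range M, (γ (l + 1) - 2 * γ l + γ (l - 1)) * ((l - n : ℕ) : ℝ) := by
    intro n hn
    have := tri_expand γ M (M - n) (by omega)
    have e : M - (M - n) = n := by omega
    rwa [e] at this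
  have hmain : ∑ s, ∑ t, c s * c t * γ (pos s - pos t).natAbs =
      γ M * (∑ s, ∑ t, c s * c t) +
      (γ (M - 1) - γ M) * (∑ s, ∑ t, c s * c t * ((M - (pos s - pos t).natAbs : ℕ) : ℝ)) +
      ∑ l ∈ range M, (γ (l + 1) - 2 * γ l + γ (l - 1)) *
        (∑ s, ∑ t, c s * c t * ((l - (pos s - pos t).natAbs : ℕ) : ℝ)) := by
    have h3 : ∀ s t, c s * c t * γ (pos s - pos t).natAbs =
        γ M * (c s * c t) + (γ (M - 1) - γ M) * (c s * c t * ((M - (pos s - pos t).natAbs : ℕ) : ℝ)) +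
        ∑ l ∈ range M, (γ (l + 1) - 2 * γ l + γ (l - 1)) *
          (c s * c t * ((l - (pos s - pos t).natAbs : ℕ) : ℝ)) := by
      intro s t
      rw [hexp _ (hM s t)]
      rw [mul_add, mul_add, Finset.mul_sum]
      congr 1
      · ring
      · refine Finset.sum_congr rfl fun l _ => ?_
        ring
    simp only [h3, Finset.sum_add_distrib, Finset.mul_sum]
    congr 1
    have h4 : ∀ s, ∑ t, ∑ l ∈ range M, (γ (l + 1) - 2 * γ l + γ (l - 1)) *
          (c s * c t * ((l - (pos s - pos t).natAbs : ℕ) : ℝ)) = ∑ l ∈ range M, ∑ t,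
          (γ (l + 1) - 2 * γ l + γ (l - 1)) *
          (c s * c t * ((l - (pos s - pos t).natAbs : ℕ) : ℝ)) := fun s => Finset.sum_comm
    simp only [h4]
    rw [Finset.sum_comm]
  rw [hmain]
  have hw : ∀ l, 1 ≤ l → 0 ≤ γ (l + 1) - 2 * γ l + γ (l - 1) := by
    intro l hl
    obtain ⟨l', rfl⟩ : ∃ l', l = l' + 1 := ⟨l - 1, by omega⟩
    exact h2 l'
  have t1 : 0 ≤ γ M * (∑ s, ∑ t, c s * c t) := by
    refine mul_nonneg (h0 M) ?_
    rw [← Finset.sum_mul_sum]
    exact mul_self_nonneg _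
  have t2 : 0 ≤ (γ (M - 1) - γ M) *
      (∑ s, ∑ t, c s * c t * ((M - (pos s - pos t).natAbs : ℕ) : ℝ)) := by
    refine mul_nonneg ?_ (tri_nonneg pos c M)
    have := h1 (M - 1)
    have e : M - 1 + 1 = M := by omega
    rw [e] at this
    linarith
  have t3 : (γ 2 - 2 * γ 1 + γ 0) * ∑ s, ∑ t, c s * c t * (if pos s = pos t then 1 else 0) ≤
      ∑ l ∈ range M, (γ (l + 1) - 2 * γ l + γ (l - 1)) *
        (∑ s, ∑ t, c s * c t * ((l - (pos s - pos t).natAbs : ℕ) : ℝ)) := by
    have h5 : ∀ s t, ((1 - (pos s - pos t).natAbs : ℕ) : ℝ) = if pos s = pos t then 1 else 0 := by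
      intro s t
      split_ifs with h6
      · rw [h6]; simp
      · have : 1 - (pos s - pos t).natAbs = 0 := by omega
        rw [this]; simp
    have h6 : (γ 2 - 2 * γ 1 + γ 0) * ∑ s, ∑ t, c s * c t * (if pos s = pos t then 1 else 0) =
        (fun l => (γ (l + 1) - 2 * γ l + γ (l - 1)) *
        (∑ s, ∑ t, c s * c t * ((l - (pos s - pos t).natAbs : ℕ) : ℝ))) 1 := by
      simp only [h5]
    rw [h6]
    refine Finset.single_le_sum (f := fun l => (γ (l + 1) - 2 * γ l + γ (l - 1)) *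
        (∑ s, ∑ t, c s * c t * ((l - (pos s - pos t).natAbs : ℕ) : ℝ))) ?_
        (by rw [mem_range]; omega)
    intro l _
    rcases Nat.eq_zero_or_pos l with rfl | hl
    · simp
    · exact mul_nonneg (hw l hl) (tri_nonneg pos c l)
  linarith

end polya

/-- the covariance form, `1 < a < 2` -/
lemma gam_form {a : ℝ} (ha1 : 1 < a) (ha2 : a < 2) {ι : Type*} [Fintype ι] (pos : ι → ℤ)
    (c : ι → ℝ) :
    (gam a 2 - 2 * gam a 1 + gam a 0) *
      ∑ s, ∑ t, c s * c t * (if pos s = pos t then 1 else 0) ≤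
      ∑ s, ∑ t, c s * c t * gam a (pos s - pos t) := by
  have h := polya (fun n => gam a (n : ℤ)) (fun n => gam_nonneg ha1 (by positivity))
    (fun n => by
      have := gam_anti ha1 ha2 (show (0 : ℤ) ≤ n by positivity)
      push_cast
      exact this)
    (fun n => by
      have := gam'_nonpos ha1 ha2 (show (1 : ℤ) ≤ n + 1 by omega)
      unfold gam' at this
      have e1 : (n : ℤ) + 1 - 1 = n := by ring
      have e2 : (n : ℤ) + 1 + 1 = n + 2 := by ring
      rw [e1, e2] at this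
      push_cast
      linarith) pos c
  have h2 : ∀ z : ℤ, gam a ((z.natAbs : ℕ) : ℤ) = gam a z := by
    intro z
    rcases Int.natAbs_eq z with h3 | h3
    · rw [← h3]
    · nth_rewrite 2 [h3]
      rw [gam_even]
  simp only [h2] at h
  exact_mod_cast h

lemma conv_pos {a : ℝ} (ha1 : 1 < a) (ha2 : a < 2) : 0 < gam a 2 - 2 * gam a 1 + gam a 0 := by
  rw [gam_zero (by linarith), gam_at_one (by linarith), gam_at_two]
  have := four_lt ha1 ha2
  linarith

lemma TM_isSymm {g : ℤ → ℝ} (hg : ∀ j, g (-j) = g j) (N : ℕ) : (TM g N 0)ᵀ = TM g N 0 := by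
  ext i j
  simp only [Matrix.transpose_apply, TM, Matrix.of_apply, Nat.cast_zero, add_zero]
  rw [← hg]; congr 1; ring

lemma TM_posDef_of {g : ℤ → ℝ} (hg : ∀ j, g (-j) = g j) (N : ℕ)
    (h : ∀ x : Fin N → ℝ, x ≠ 0 → 0 < ∑ i, ∑ j, x i * x j * g ((i : ℤ) - j)) :
    (TM g N 0).PosDef := by
  refine Matrix.PosDef.of_dotProduct_mulVec_pos ?_ ?_
  · rw [Matrix.IsHermitian, Matrix.conjTranspose_eq_transpose_of_trivial, TM_isSymm hg]
  · intro x hx
    have h1 := h x hx
    have h2 : star x ⬝ᵥ (TM g N 0 *ᵥ x) = ∑ i, ∑ j, x i * x j * g ((i : ℤ) - j) := by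
      simp only [dotProduct, Matrix.mulVec, star_trivial, Finset.mul_sum, TM, Matrix.of_apply,
        Nat.cast_zero, add_zero]
      refine Finset.sum_congr rfl fun i _ => Finset.sum_congr rfl fun j _ => ?_
      ring
    rw [h2]
    exact h1

/-- positive definiteness, `1 < a < 2` -/
lemma gam_posDef_B {a : ℝ} (ha1 : 1 < a) (ha2 : a < 2) (N : ℕ) : (TM (gam a) N 0).PosDef := by
  refine TM_posDef_of (gam_even a) N fun x hx => ?_
  have h1 := gam_form ha1 ha2 (fun i : Fin N => (i : ℤ)) x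
  refine lt_of_lt_of_le ?_ h1
  refine mul_pos (conv_pos ha1 ha2) ?_
  have h2 : ∑ s : Fin N, ∑ t : Fin N, x s * x t * (if (s : ℤ) = (t : ℤ) then 1 else 0) =
      ∑ s, x s ^ 2 := by
    refine Finset.sum_congr rfl fun s _ => ?_
    rw [Finset.sum_eq_single s]
    · simp [sq]
    · intro t _ hts
      rw [if_neg, mul_zero]
      intro hc
      apply hts
      ext
      omega
    · simp
  rw [h2]
  obtain ⟨i, hi⟩ : ∃ i, x i ≠ 0 := by
    by_contra hc
    push Not at hc
    exact hx (funext hc)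
  exact Finset.sum_pos' (fun i _ => sq_nonneg _) ⟨i, Finset.mem_univ i, by positivity⟩

/-- positive definiteness, `0 < a ≤ 1` -/
lemma gam_posDef_A {a : ℝ} (ha : 0 < a) (ha1 : a ≤ 1) (N : ℕ) : (TM (gam a) N 0).PosDef := by
  have hS := sym_gam ha ha1
  refine TM_posDef_of (gam_even a) N fun x hx => ?_
  -- row sums
  have hrow : ∀ i : Fin N, 0 < ∑ j : Fin N, gam a ((i : ℤ) - j) := by
    intro i
    have hi := i.isLt
    refine lt_of_lt_of_le (sum_gam_pos ha N) ?_
    have h1 : ∑ j : Fin N, gam a ((i : ℤ) - j) =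
        ∑ z ∈ (Finset.univ.image fun j : Fin N => (i : ℤ) - j), gam a z := by
      rw [Finset.sum_image]
      intro p _ q _ hpq
      ext
      simp only at hpq
      omega
    rw [h1]
    have hsub : (Finset.univ.image fun j : Fin N => (i : ℤ) - j) ⊆ Icc (-(N : ℤ)) N := by
      intro z hz
      rw [mem_image] at hz
      obtain ⟨j, -, rfl⟩ := hz
      have := j.isLt
      rw [mem_Icc]; omega
    rw [← Finset.sum_sdiff hsub]
    have h2 : ∑ z ∈ Icc (-(N : ℤ)) N \ (Finset.univ.image fun j : Fin N => (i : ℤ) - j),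
        gam a z ≤ 0 := by
      refine Finset.sum_nonpos fun z hz => ?_
      rw [mem_sdiff, mem_image] at hz
      have hz0 : z ≠ 0 := by
        rintro rfl
        exact hz.2 ⟨i, mem_univ _, by ring⟩
      rcases lt_or_gt_of_ne hz0 with h4 | h4
      · rw [← hS.even]; exact hS.nonpos _ (by omega)
      · exact hS.nonpos _ (by omega)
    linarith
  have hid : ∑ i : Fin N, ∑ j : Fin N, x i * x j * gam a ((i : ℤ) - j) =
      ∑ i : Fin N, (∑ j : Fin N, gam a ((i : ℤ) - j)) * x i ^ 2 -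
      (∑ i : Fin N, ∑ j : Fin N, gam a ((i : ℤ) - j) * (x i - x j) ^ 2) / 2 := by
    have hsw : ∑ i : Fin N, ∑ j : Fin N, gam a ((i : ℤ) - j) * x j ^ 2 =
        ∑ i : Fin N, ∑ j : Fin N, gam a ((i : ℤ) - j) * x i ^ 2 := by
      rw [Finset.sum_comm]
      refine Finset.sum_congr rfl fun i _ => Finset.sum_congr rfl fun j _ => ?_
      congr 1
      rw [← gam_even]; congr 1; ring
    have h3 : ∑ i : Fin N, ∑ j : Fin N, gam a ((i : ℤ) - j) * (x i - x j) ^ 2 =
        ∑ i : Fin N, ∑ j : Fin N, gam a ((i : ℤ) - j) * x i ^ 2 +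
        ∑ i : Fin N, ∑ j : Fin N, gam a ((i : ℤ) - j) * x j ^ 2 -
        2 * ∑ i : Fin N, ∑ j : Fin N, x i * x j * gam a ((i : ℤ) - j) := by
      simp only [Finset.mul_sum, ← Finset.sum_add_distrib, ← Finset.sum_sub_distrib]
      refine Finset.sum_congr rfl fun i _ => Finset.sum_congr rfl fun j _ => ?_
      ring
    simp only [Finset.sum_mul]
    rw [h3, hsw]
    ring
  rw [hid]
  have h4 : ∑ i : Fin N, ∑ j : Fin N, gam a ((i : ℤ) - j) * (x i - x j) ^ 2 ≤ 0 := by
    refine Finset.sum_nonpos fun i _ => Finset.sum_nonpos fun j _ => ?_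
    by_cases hij : i = j
    · subst hij; simp
    · have hne : ((i : ℤ) - j) ≠ 0 := by
        intro hc
        apply hij
        ext
        omega
      have : gam a ((i : ℤ) - j) ≤ 0 := by
        rcases lt_or_gt_of_ne hne with h4 | h4
        · rw [← hS.even]; exact hS.nonpos _ (by omega)
        · exact hS.nonpos _ (by omega)
      exact mul_nonpos_of_nonpos_of_nonneg this (sq_nonneg _)
  obtain ⟨i, hi⟩ : ∃ i, x i ≠ 0 := by
    by_contra hc
    push Not at hc
    exact hx (funext hc)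
  have h5 : 0 < ∑ i : Fin N, (∑ j : Fin N, gam a ((i : ℤ) - j)) * x i ^ 2 :=
    Finset.sum_pos' (fun i _ => mul_nonneg (hrow i).le (sq_nonneg _))
      ⟨i, Finset.mem_univ i, mul_pos (hrow i) (by positivity)⟩
  linarith

end FGN
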