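import Mathlib

/-!
# Signs of higher differences of powers
-/

open Filter Topology

namespace FGN

/-- iterated forward differences of `x ^ a` -/
noncomputable def dd : ℕ → ℝ → ℝ → ℝ
  | 0, a, x => x ^ a
  | n + 1, a, x => dd n a (x + 1) - dd n a x

lemma dd_hasDerivAt (n : ℕ) : ∀ (a x : ℝ), 0 < x → HasDerivAt (dd n a) (a * dd n (a - 1) x) x := by
  induction n with
  | zero =>
    intro a x hx
    have := Real.hasDerivAt_rpow_const (x := x) (p := a) (Or.inl hx.ne')
    exact this
  | succ n ih =>
    intro a x hx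
    have h1 : HasDerivAt (fun y => dd n a (y + 1)) (a * dd n (a - 1) (x + 1)) x := by
      have := (ih a (x + 1) (by linarith)).comp_add_const x 1
      exact this
    have h2 := h1.sub (ih a x hx)
    have h3 : a * dd (n + 1) (a - 1) x = a * dd n (a - 1) (x + 1) - a * dd n (a - 1) x := by
      rw [dd]; ring
    rw [h3]
    exact h2

/-- falling product -/
noncomputable def ff : ℕ → ℝ → ℝ
  | 0, _ => 1
  | n + 1, a => a * ff n (a - 1)

lemma dd_sign (n : ℕ) : ∀ (a x : ℝ), 0 < x → 0 ≤ ff n a * dd n a x := by
  induction n with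
  | zero =>
    intro a x hx
    simp only [ff, dd, one_mul]
    exact Real.rpow_nonneg hx.le _
  | succ n ih =>
    intro a x hx
    obtain ⟨c, hc, hc2⟩ := exists_hasDerivAt_eq_slope (dd n a) (fun y => a * dd n (a - 1) y)
      (show x < x + 1 by linarith)
      (fun y hy => (dd_hasDerivAt n a y (by linarith [hy.1])).continuousAt.continuousWithinAt)
      (fun y hy => dd_hasDerivAt n a y (by linarith [hy.1]))
    have h1 : dd (n + 1) a x = a * dd n (a - 1) c := by
      rw [dd, hc2]; simp
    have h2 := ih (a - 1) c (by linarith [hc.1])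
    rw [h1, ff]
    have : a * ff n (a - 1) * (a * dd n (a - 1) c) = a ^ 2 * (ff n (a - 1) * dd n (a - 1) c) := by
      ring
    rw [this]
    positivity

lemma dd_cont (n : ℕ) (a : ℝ) (ha : 0 < a) : Continuous fun x => dd n a x := by
  induction n with
  | zero =>
    simp only [dd]
    exact Real.continuous_rpow_const ha.le
  | succ n ih =>
    simp only [dd]
    exact (ih.comp (continuous_id.add continuous_const)).sub ih

lemma dd_sign' (n : ℕ) (a x : ℝ) (ha : 0 < a) (hx : 0 ≤ x) : 0 ≤ ff n a * dd n a x := by
  rcases hx.eq_or_lt with rfl | hx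
  · have h1 : Tendsto (fun x => ff n a * dd n a x) (𝓝[>] 0) (𝓝 (ff n a * dd n a 0)) :=
      (((dd_cont n a ha).const_mul (ff n a)).tendsto 0).mono_left nhdsWithin_le_nhds
    refine ge_of_tendsto h1 ?_
    filter_upwards [self_mem_nhdsWithin] with y hy
    exact dd_sign n a y hy
  · exact dd_sign n a x hx

end FGN
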