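import Pool.Agent.Work.MP_0e0306_pr.Exit
import Pool.Agent.Work.MP_0e0306_pr.Power

/-!
# The covariances as kernels of killed walks
-/

open Finset Matrix

namespace FGN

/-- hypotheses on a symbol which is a multiple of `1 - P` -/
structure Sym (g : ℤ → ℝ) : Prop where
  pos : 0 < g 0
  even : ∀ j, g (-j) = g j
  nonpos : ∀ j, 1 ≤ j → g j ≤ 0
  mono : ∀ j, 1 ≤ j → g j ≤ g (j + 1)
  sum : ∀ R : ℕ, 0 ≤ ∑ j ∈ Icc (-(R : ℤ)) R, g j

/-- truncated kernel -/
noncomputable def pk (g : ℤ → ℝ) (R : ℕ) (j : ℤ) : ℝ :=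
  if |j| ≤ R then (if j = 0 then 1 else 0) - g j / (2 * g 0) else 0

lemma Sym.ker {g : ℤ → ℝ} (h : Sym g) (R : ℕ) : Ker R (pk g R) := by
  have hg := h.pos
  have hnn : ∀ j, 0 ≤ pk g R j := by
    intro j
    unfold pk
    split_ifs with h1 h2
    · subst h2
      have : g 0 / (2 * g 0) = 1 / 2 := by field_simp
      rw [this]; norm_num
    · have h3 : g j ≤ 0 := by
        rcases lt_or_gt_of_ne h2 with h4 | h4
        · rw [← h.even]; exact h.nonpos _ (by omega)
        · exact h.nonpos _ (by omega)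
      rw [zero_sub, ← neg_div]
      exact div_nonneg (by linarith) (by linarith)
    · exact le_rfl
  refine ⟨⟨?_, ?_⟩, hnn, ?_, ?_⟩
  · intro k
    unfold pk
    rw [abs_neg, h.even]
    simp only [neg_eq_zero]
  · intro k hk
    by_cases h1 : |k + 1| ≤ R
    · have h2 : |k| ≤ R := by
        rw [abs_of_nonneg (by omega)] at h1 ⊢
        omega
      unfold pk
      rw [if_pos h1, if_pos h2, if_neg (by omega)]
      rcases hk.eq_or_lt with rfl | hk
      · have h3 := h.sum 1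
        have h4 : (Icc (-((1 : ℕ) : ℤ)) ((1 : ℕ) : ℤ)) = {-1, 0, 1} := by decide
        rw [h4] at h3
        rw [Finset.sum_insert (by decide), Finset.sum_insert (by decide),
          Finset.sum_singleton, h.even 1] at h3
        rw [if_pos rfl]
        have : g 0 / (2 * g 0) = 1 / 2 := by field_simp
        rw [this, zero_sub, zero_add, ← neg_div, div_le_iff₀ (by linarith)]
        linarith
      · rw [if_neg (by omega)]
        have := h.mono k (by omega)
        have h5 : g k / (2 * g 0) ≤ g (k + 1) / (2 * g 0) :=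
          div_le_div_of_nonneg_right this (by linarith)
        linarith
    · have : pk g R (k + 1) = 0 := by unfold pk; rw [if_neg h1]
      rw [this]
      exact hnn k
  · intro j hj
    unfold pk
    rw [if_neg (by omega)]
  · have h1 : ∑ z ∈ Icc (-(R : ℤ)) R, pk g R z =
        ∑ z ∈ Icc (-(R : ℤ)) R, ((if z = 0 then 1 else 0) - g z / (2 * g 0)) := by
      refine Finset.sum_congr rfl fun z hz => ?_
      unfold pk
      rw [if_pos]
      rw [mem_Icc] at hz
      exact abs_le.mpr hz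
    rw [h1, Finset.sum_sub_distrib, ← Finset.sum_div, Finset.sum_ite_eq']
    have h2 : 0 ≤ (∑ j ∈ Icc (-(R : ℤ)) R, g j) / (2 * g 0) :=
      div_nonneg (h.sum R) (by linarith)
    split_ifs <;> linarith

lemma TM_pk {g : ℤ → ℝ} (h : Sym g) {R N k : ℕ} (hR : N + k ≤ R) :
    TM (tt (pk g R)) N k = (2 * g 0)⁻¹ • TM g N k := by
  ext i j
  have hi := i.isLt
  have hj := j.isLt
  simp only [TM, Matrix.of_apply, Matrix.smul_apply, smul_eq_mul, tt, pk]
  have h1 : |(i : ℤ) - j + k| ≤ (R : ℤ) := by rw [abs_le]; omega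
  rw [if_pos h1]
  ring

lemma smul_inv_mul {N : ℕ} (A B : Matrix (Fin N) (Fin N) ℝ) {c : ℝ} (hc : c ≠ 0)
    (hA : IsUnit A.det) : (c • A)⁻¹ * (c • B) = A⁻¹ * B := by
  have h1 : (c • A)⁻¹ = c⁻¹ • A⁻¹ := by
    apply Matrix.inv_eq_left_inv
    rw [Matrix.smul_mul, Matrix.mul_smul, Matrix.nonsing_inv_mul _ hA, smul_smul,
      inv_mul_cancel₀ hc, one_smul]
  rw [h1, Matrix.smul_mul, Matrix.mul_smul, smul_smul, inv_mul_cancel₀ hc, one_smul]

theorem Sym.trace_one {g : ℤ → ℝ} (h : Sym g) {N k : ℕ} (hk : 1 ≤ k) :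
    |((TM g N 0)⁻¹ * TM g N k).trace| ≤ 2 := by
  by_cases hdet : IsUnit (TM g N 0).det
  · have h1 := (h.ker (N + k)).trace_one (N := N) hk
    rwa [TM_pk h (by omega), TM_pk h le_rfl,
      smul_inv_mul _ _ (inv_ne_zero (by linarith [h.pos])) hdet] at h1
  · rw [Matrix.nonsing_inv_apply_not_isUnit _ hdet, zero_mul, Matrix.trace_zero, abs_zero]
    norm_num

theorem Sym.trace_two {g : ℤ → ℝ} (h : Sym g) {N k l : ℕ} (hk : 1 ≤ k) (hl : 1 ≤ l) :
    |((TM g N 0)⁻¹ * TM g N k * ((TM g N 0)⁻¹ * TM g N l)).trace| ≤ 4 := by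
  by_cases hdet : IsUnit (TM g N 0).det
  · have h1 := (h.ker (N + k + l)).trace_two (N := N) hk hl
    rwa [TM_pk h (k := 0) (by omega), TM_pk h (k := k) (by omega), TM_pk h (k := l) (by omega),
      smul_inv_mul _ _ (inv_ne_zero (by linarith [h.pos])) hdet,
      smul_inv_mul _ _ (inv_ne_zero (by linarith [h.pos])) hdet] at h1
  · rw [Matrix.nonsing_inv_apply_not_isUnit _ hdet]
    simp

/-! ### The covariance -/

/-- covariance of the increments, `a = 2 H` -/
noncomputable def gam (a : ℝ) (j : ℤ) : ℝ :=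
  (|(j : ℝ) + 1| ^ a - 2 * |(j : ℝ)| ^ a + |(j : ℝ) - 1| ^ a) / 2

lemma gam_even (a : ℝ) (j : ℤ) : gam a (-j) = gam a j := by
  unfold gam
  push_cast
  have h1 : |-(j : ℝ) + 1| = |(j : ℝ) - 1| := by rw [← abs_neg]; congr 1; ring
  have h2 : |-(j : ℝ) - 1| = |(j : ℝ) + 1| := by rw [← abs_neg]; congr 1; ring
  rw [h1, h2, abs_neg]
  ring

lemma gam_zero {a : ℝ} (ha : 0 < a) : gam a 0 = 1 := by
  unfold gam
  simp [Real.zero_rpow ha.ne']

lemma gam_eq {a : ℝ} {j : ℤ} (hj : 1 ≤ j) : gam a j = dd 2 a ((j : ℝ) - 1) / 2 := by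
  have hj' : (1 : ℝ) ≤ j := by exact_mod_cast hj
  unfold gam
  simp only [dd]
  rw [abs_of_nonneg (by linarith : (0 : ℝ) ≤ (j : ℝ) + 1), abs_of_nonneg (by linarith : (0 : ℝ) ≤ (j : ℝ)),
    abs_of_nonneg (by linarith : (0 : ℝ) ≤ (j : ℝ) - 1)]
  have h1 : (j : ℝ) - 1 + 1 + 1 = j + 1 := by ring
  have h2 : (j : ℝ) - 1 + 1 = j := by ring
  rw [h1, h2]
  ring

/-- symmetric running sums of a second difference -/
lemma sum_second (φ : ℤ → ℝ) (R : ℕ) :
    ∑ j ∈ Icc (-(R : ℤ)) R, (φ (j + 1) - 2 * φ j + φ (j - 1)) =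
      (φ (R + 1) - φ R) + (φ (-R - 1) - φ (-R)) := by
  induction R with
  | zero => simp; ring
  | succ R ih =>
    have h1 : Icc (-((R + 1 : ℕ) : ℤ)) ((R + 1 : ℕ) : ℤ) =
        insert (-((R : ℤ) + 1)) (insert ((R : ℤ) + 1) (Icc (-(R : ℤ)) R)) := by
      ext z
      simp only [mem_Icc, mem_insert]
      push_cast
      omega
    rw [h1, Finset.sum_insert (by simp only [mem_insert, mem_Icc]; omega),
      Finset.sum_insert (by simp only [mem_Icc]; omega), ih]
    push_cast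
    have e1 : -((R : ℤ) + 1) + 1 = -R := by ring
    have e2 : (R : ℤ) + 1 - 1 = R := by ring
    have e3 : -(R : ℤ) - 1 = -((R : ℤ) + 1) := by ring
    rw [e1, e2, e3]
    ring

lemma sum_gam {a : ℝ} (R : ℕ) :
    ∑ j ∈ Icc (-(R : ℤ)) R, gam a j = ((R : ℝ) + 1) ^ a - (R : ℝ) ^ a := by
  have h1 : ∀ j, gam a j = (|(((j + 1 : ℤ)) : ℝ)| ^ a - 2 * |(j : ℝ)| ^ a +
      |(((j - 1 : ℤ)) : ℝ)| ^ a) / 2 := by
    intro j; unfold gam; push_cast; rfl
  simp only [h1]
  rw [← Finset.sum_div, sum_second (fun j => |(j : ℝ)| ^ a) R]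
  push_cast
  have e1 : |-(R : ℝ) - 1| = (R : ℝ) + 1 := by
    have : (0 : ℝ) ≤ R := by positivity
    rw [abs_of_nonpos (by linarith)]
    ring
  rw [e1, abs_of_nonneg (by positivity : (0 : ℝ) ≤ (R : ℝ) + 1), abs_neg,
    abs_of_nonneg (by positivity : (0 : ℝ) ≤ (R : ℝ))]
  ring

lemma sum_gam_pos {a : ℝ} (ha : 0 < a) (R : ℕ) : 0 < ∑ j ∈ Icc (-(R : ℤ)) R, gam a j := by
  rw [sum_gam, sub_pos]
  exact Real.rpow_lt_rpow (by positivity) (by linarith) ha

lemma gam_one {j : ℤ} (hj : 1 ≤ j) : gam 1 j = 0 := by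
  rw [gam_eq hj]
  simp only [dd, Real.rpow_one]
  ring

/-- `0 < 2 H ≤ 1` -/
lemma sym_gam {a : ℝ} (ha : 0 < a) (ha1 : a ≤ 1) : Sym (gam a) := by
  refine ⟨by rw [gam_zero ha]; norm_num, gam_even a, ?_, ?_, fun R => (sum_gam_pos ha R).le⟩
  · intro j hj
    rcases ha1.eq_or_lt with rfl | ha1
    · rw [gam_one hj]
    · have hj' : (0 : ℝ) ≤ (j : ℝ) - 1 := by
        have : (1 : ℝ) ≤ j := by exact_mod_cast hj
        linarith
      have h1 := dd_sign' 2 a ((j : ℝ) - 1) ha hj'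
      have h2 : ff 2 a < 0 := by
        simp only [ff]; nlinarith
      have h3 : dd 2 a ((j : ℝ) - 1) ≤ 0 := by
        by_contra hc
        push Not at hc
        nlinarith
      rw [gam_eq hj]
      linarith
  · intro j hj
    rcases ha1.eq_or_lt with rfl | ha1
    · rw [gam_one hj, gam_one (by omega)]
    · have hj' : (0 : ℝ) ≤ (j : ℝ) - 1 := by
        have : (1 : ℝ) ≤ j := by exact_mod_cast hj
        linarith
      have h1 := dd_sign' 3 a ((j : ℝ) - 1) ha hj'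
      have h2 : 0 < ff 3 a := by
        simp only [ff]
        have h4 : 0 < a * (1 - a) * (2 - a) := by
          apply mul_pos (mul_pos ha (by linarith)) (by linarith)
        nlinarith
      have h3 : 0 ≤ dd 3 a ((j : ℝ) - 1) := by
        by_contra hc
        push Not at hc
        nlinarith
      rw [gam_eq hj, gam_eq (by omega)]
      have h5 : dd 3 a ((j : ℝ) - 1) = dd 2 a ((j : ℝ) - 1 + 1) - dd 2 a ((j : ℝ) - 1) := rfl
      push_cast
      have h6 : (j : ℝ) + 1 - 1 = (j : ℝ) - 1 + 1 := by ring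
      rw [h6]
      linarith

end FGN
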