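import Pool.Agent.Work.MP_0e0306_pr.Seq

/-!
# The second differences of the covariance for `1 < 2 H < 2`
-/

open Finset Matrix

namespace FGN

/-- symbol of the differenced sequence -/
noncomputable def gam' (a : ℝ) (j : ℤ) : ℝ := 2 * gam a j - gam a (j - 1) - gam a (j + 1)

lemma gam_at_one {a : ℝ} (ha : 0 < a) : gam a 1 = (2 ^ a - 2) / 2 := by
  rw [gam_eq le_rfl]
  simp only [dd]
  norm_num
  rw [Real.zero_rpow ha.ne']
  ring

lemma gam_at_two (a : ℝ) : gam a 2 = (3 ^ a - 2 * 2 ^ a + 1) / 2 := by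
  rw [gam_eq (by norm_num)]
  simp only [dd]
  norm_num
  ring

lemma gam_at_three (a : ℝ) : gam a 3 = (4 ^ a - 2 * 3 ^ a + 2 ^ a) / 2 := by
  rw [gam_eq (by norm_num)]
  simp only [dd]
  norm_num
  ring

/-- the numbers `2 ^ a`, `4 ^ a` and a lower bound for `3 ^ a` -/
lemma pow_facts {a : ℝ} (ha1 : 1 < a) (ha2 : a < 2) : ∃ s : ℝ, 0 < s ∧ s < 1 ∧
    (2 : ℝ) ^ a = 4 * s ^ 5 ∧ (4 : ℝ) ^ a = 16 * s ^ 10 ∧ 9 * s ^ 8 ≤ (3 : ℝ) ^ a := by
  have h2 : (0 : ℝ) < 2 := by norm_num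
  refine ⟨(2 : ℝ) ^ (-(2 - a) / 5), Real.rpow_pos_of_pos h2 _, ?_, ?_, ?_, ?_⟩
  · exact Real.rpow_lt_one_of_one_lt_of_neg (by norm_num) (by linarith)
  · rw [← Real.rpow_natCast, ← Real.rpow_mul h2.le]
    have : (4 : ℝ) = 2 ^ (2 : ℝ) := by norm_num
    rw [this, ← Real.rpow_add h2]
    congr 1
    push_cast
    ring
  · rw [← Real.rpow_natCast, ← Real.rpow_mul h2.le]
    have : (4 : ℝ) = 2 ^ (2 : ℝ) := by norm_num
    have h16 : (16 : ℝ) = 2 ^ (4 : ℝ) := by norm_num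
    rw [this, h16, ← Real.rpow_mul h2.le, ← Real.rpow_add h2]
    congr 1
    push_cast
    ring
  · have h3 : (3 : ℝ) ^ (2 - a) ≤ (2 : ℝ) ^ ((2 - a) / 5 * 8) := by
      have h35 : (3 : ℝ) ≤ (2 : ℝ) ^ ((8 : ℝ) / 5) := by
        have h4 : (3 : ℝ) = ((3 : ℝ) ^ (5 : ℝ)) ^ ((1 : ℝ) / 5) := by
          rw [← Real.rpow_mul (by norm_num)]
          norm_num
        have h5 : (2 : ℝ) ^ ((8 : ℝ) / 5) = ((2 : ℝ) ^ (8 : ℝ)) ^ ((1 : ℝ) / 5) := by
          rw [← Real.rpow_mul (by norm_num)]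
          norm_num
        rw [h5]
        nth_rewrite 1 [h4]
        refine Real.rpow_le_rpow (by positivity) ?_ (by norm_num)
        norm_num
      calc (3 : ℝ) ^ (2 - a) ≤ ((2 : ℝ) ^ ((8 : ℝ) / 5)) ^ (2 - a) :=
            Real.rpow_le_rpow (by norm_num) h35 (by linarith)
        _ = (2 : ℝ) ^ ((2 - a) / 5 * 8) := by
            rw [← Real.rpow_mul (by norm_num)]
            congr 1
            ring
    have h6 : ((2 : ℝ) ^ (-(2 - a) / 5)) ^ 8 = ((2 : ℝ) ^ ((2 - a) / 5 * 8))⁻¹ := by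
      rw [← Real.rpow_natCast, ← Real.rpow_mul h2.le, ← Real.rpow_neg h2.le]
      congr 1
      push_cast
      ring
    have h7 : (3 : ℝ) ^ a = 9 * ((3 : ℝ) ^ (2 - a))⁻¹ := by
      rw [← Real.rpow_neg (by norm_num)]
      have : (9 : ℝ) = 3 ^ (2 : ℝ) := by norm_num
      rw [this, ← Real.rpow_add (by norm_num)]
      congr 1
      ring
    rw [h6, h7]
    refine mul_le_mul_of_nonneg_left ?_ (by norm_num)
    exact inv_anti₀ (Real.rpow_pos_of_pos (by norm_num) _) h3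

lemma four_lt {a : ℝ} (ha1 : 1 < a) (ha2 : a < 2) :
    0 < (3 : ℝ) ^ a - 4 * 2 ^ a + 7 := by
  obtain ⟨s, hs0, hs1, h2, -, h3⟩ := pow_facts ha1 ha2
  rw [h2]
  have h4 : 9 * s ^ 8 - 16 * s ^ 5 + 7 =
      (1 - s) * (7 * (1 + s + s ^ 2 + s ^ 3 + s ^ 4) - 9 * (s ^ 5 + s ^ 6 + s ^ 7)) := by ring
  have p0 : s ^ 4 ≤ 1 := pow_le_one₀ hs0.le hs1.le
  have p1 : s ^ 4 ≤ s := by nlinarith [pow_pos hs0 2, pow_pos hs0 3, pow_le_one₀ (n := 3) hs0.le hs1.le]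
  have p2 : s ^ 4 ≤ s ^ 2 := pow_le_pow_of_le_one hs0.le hs1.le (by norm_num)
  have p3 : s ^ 4 ≤ s ^ 3 := pow_le_pow_of_le_one hs0.le hs1.le (by norm_num)
  have p5 : s ^ 5 ≤ s ^ 4 := pow_le_pow_of_le_one hs0.le hs1.le (by norm_num)
  have p6 : s ^ 6 ≤ s ^ 4 := pow_le_pow_of_le_one hs0.le hs1.le (by norm_num)
  have p7 : s ^ 7 ≤ s ^ 4 := pow_le_pow_of_le_one hs0.le hs1.le (by norm_num)
  have p4 : 0 < s ^ 4 := pow_pos hs0 4
  have h5 : 0 < 7 * (1 + s + s ^ 2 + s ^ 3 + s ^ 4) - 9 * (s ^ 5 + s ^ 6 + s ^ 7) := by linarith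
  have h6 := mul_pos (sub_pos.mpr hs1) h5
  linarith

lemma five_le {a : ℝ} (ha1 : 1 < a) (ha2 : a < 2) :
    0 ≤ 5 * (3 : ℝ) ^ a - 10 * 2 ^ a - 4 ^ a + 11 := by
  obtain ⟨s, hs0, hs1, h2, h4, h3⟩ := pow_facts ha1 ha2
  rw [h2, h4]
  have h5 : 45 * s ^ 8 - 40 * s ^ 5 - 16 * s ^ 10 + 11 =
      (1 - s) ^ 2 * (11 + 22 * s + 33 * s ^ 2 + 44 * s ^ 3 + 55 * s ^ 4 + 26 * s ^ 5
        - 3 * s ^ 6 - 32 * s ^ 7 - 16 * s ^ 8) := by ring
  have p6 : s ^ 6 ≤ s ^ 4 := pow_le_pow_of_le_one hs0.le hs1.le (by norm_num)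
  have p7 : s ^ 7 ≤ s ^ 4 := pow_le_pow_of_le_one hs0.le hs1.le (by norm_num)
  have p8 : s ^ 8 ≤ s ^ 4 := pow_le_pow_of_le_one hs0.le hs1.le (by norm_num)
  have p2 := pow_pos hs0 2
  have p3 := pow_pos hs0 3
  have p4 := pow_pos hs0 4
  have p5 := pow_pos hs0 5
  have h6 : 0 ≤ 11 + 22 * s + 33 * s ^ 2 + 44 * s ^ 3 + 55 * s ^ 4 + 26 * s ^ 5
        - 3 * s ^ 6 - 32 * s ^ 7 - 16 * s ^ 8 := by linarith
  have h7 := mul_nonneg (sq_nonneg (1 - s)) h6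
  linarith

variable {a : ℝ}

lemma gam_nonneg (ha1 : 1 < a) {j : ℤ} (hj : 0 ≤ j) : 0 ≤ gam a j := by
  rcases hj.eq_or_lt with rfl | hj
  · rw [gam_zero (by linarith)]; norm_num
  · have hj' : (0 : ℝ) ≤ (j : ℝ) - 1 := by
      have : (1 : ℝ) ≤ j := by exact_mod_cast hj
      linarith
    have h1 := dd_sign' 2 a ((j : ℝ) - 1) (by linarith) hj'
    have h2 : 0 < ff 2 a := by
      simp only [ff]; nlinarith
    rw [gam_eq hj]
    have := nonneg_of_mul_nonneg_right h1 h2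
    linarith

lemma gam_anti (ha1 : 1 < a) (ha2 : a < 2) {j : ℤ} (hj : 0 ≤ j) : gam a (j + 1) ≤ gam a j := by
  rcases hj.eq_or_lt with rfl | hj
  · rw [gam_zero (by linarith), zero_add, gam_at_one (by linarith)]
    obtain ⟨s, hs0, hs1, h2, -, -⟩ := pow_facts ha1 ha2
    rw [h2]
    have : s ^ 5 ≤ 1 := pow_le_one₀ hs0.le hs1.le
    linarith
  · have hj' : (0 : ℝ) ≤ (j : ℝ) - 1 := by
      have : (1 : ℝ) ≤ j := by exact_mod_cast hj
      linarith
    have h1 := dd_sign' 3 a ((j : ℝ) - 1) (by linarith) hj'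
    have h2 : ff 3 a < 0 := by
      simp only [ff]
      have h4 : 0 < a * (a - 1) * (2 - a) := by
        apply mul_pos (mul_pos (by linarith) (by linarith)) (by linarith)
      nlinarith
    have h3 : dd 3 a ((j : ℝ) - 1) ≤ 0 := by
      by_contra hc
      push Not at hc
      nlinarith
    rw [gam_eq hj, gam_eq (by omega)]
    have h5 : dd 3 a ((j : ℝ) - 1) = dd 2 a ((j : ℝ) - 1 + 1) - dd 2 a ((j : ℝ) - 1) := rfl
    push_cast
    have h6 : (j : ℝ) + 1 - 1 = (j : ℝ) - 1 + 1 := by ring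
    rw [h6]
    linarith

lemma gam'_eq {j : ℤ} (hj : 2 ≤ j) : gam' a j = - dd 4 a ((j : ℝ) - 2) / 2 := by
  unfold gam'
  rw [gam_eq (by omega : 1 ≤ j), gam_eq (by omega : 1 ≤ j - 1), gam_eq (by omega : 1 ≤ j + 1)]
  have h5 : dd 4 a ((j : ℝ) - 2) = (dd 2 a ((j : ℝ) - 2 + 1 + 1) - dd 2 a ((j : ℝ) - 2 + 1)) -
    (dd 2 a ((j : ℝ) - 2 + 1) - dd 2 a ((j : ℝ) - 2)) := rfl
  push_cast
  rw [h5]
  have e1 : (j : ℝ) - 2 + 1 + 1 = (j : ℝ) + 1 - 1 := by ring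
  have e2 : (j : ℝ) - 2 + 1 = (j : ℝ) - 1 := by ring
  have e3 : (j : ℝ) - 2 = (j : ℝ) - 1 - 1 := by ring
  rw [e1, e2, e3]
  ring

lemma gam'_nonpos (ha1 : 1 < a) (ha2 : a < 2) {j : ℤ} (hj : 1 ≤ j) : gam' a j ≤ 0 := by
  rcases hj.eq_or_lt with rfl | hj
  · unfold gam'
    have h0 := gam_zero (a := a) (by linarith)
    have h1 := gam_at_one (a := a) (by linarith)
    have h2 := gam_at_two a
    norm_num
    rw [h0, h1, h2]
    have := four_lt ha1 ha2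
    linarith
  · have hj2 : 2 ≤ j := by omega
    have hj' : (0 : ℝ) ≤ (j : ℝ) - 2 := by
      have : (2 : ℝ) ≤ j := by exact_mod_cast hj2
      linarith
    have h1 := dd_sign' 4 a ((j : ℝ) - 2) (by linarith) hj'
    have h2 : 0 < ff 4 a := by
      simp only [ff]
      have h4 : 0 < a * (a - 1) * (2 - a) * (3 - a) := by
        apply mul_pos (mul_pos (mul_pos (by linarith) (by linarith)) (by linarith)) (by linarith)
      nlinarith
    rw [gam'_eq hj2]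
    have := nonneg_of_mul_nonneg_right h1 h2
    linarith

lemma gam'_mono (ha1 : 1 < a) (ha2 : a < 2) {j : ℤ} (hj : 1 ≤ j) : gam' a j ≤ gam' a (j + 1) := by
  rcases hj.eq_or_lt with rfl | hj
  · unfold gam'
    have h0 := gam_zero (a := a) (by linarith)
    have h1 := gam_at_one (a := a) (by linarith)
    have h2 := gam_at_two a
    have h3 := gam_at_three a
    norm_num
    rw [h0, h1, h2, h3]
    have := five_le ha1 ha2
    linarith
  · have hj2 : 2 ≤ j := by omega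
    have hj' : (0 : ℝ) ≤ (j : ℝ) - 2 := by
      have : (2 : ℝ) ≤ j := by exact_mod_cast hj2
      linarith
    have h1 := dd_sign' 5 a ((j : ℝ) - 2) (by linarith) hj'
    have h2 : ff 5 a < 0 := by
      simp only [ff]
      have h4 : 0 < a * (a - 1) * (2 - a) * (3 - a) * (4 - a) := by
        apply mul_pos (mul_pos (mul_pos (mul_pos (by linarith) (by linarith)) (by linarith))
          (by linarith)) (by linarith)
      nlinarith
    have h3 : dd 5 a ((j : ℝ) - 2) ≤ 0 := by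
      by_contra hc
      push Not at hc
      nlinarith
    rw [gam'_eq hj2, gam'_eq (by omega)]
    have h5 : dd 5 a ((j : ℝ) - 2) = dd 4 a ((j : ℝ) - 2 + 1) - dd 4 a ((j : ℝ) - 2) := rfl
    push_cast
    have h6 : (j : ℝ) + 1 - 2 = (j : ℝ) - 2 + 1 := by ring
    rw [h6]
    linarith

lemma gam'_zero_pos (ha1 : 1 < a) (ha2 : a < 2) : 0 < gam' a 0 := by
  unfold gam'
  have h0 := gam_zero (a := a) (by linarith)
  have h1 := gam_at_one (a := a) (by linarith)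
  have h3 : gam a (0 - 1) = gam a 1 := by rw [← gam_even]; norm_num
  rw [h3, zero_add, h0, h1]
  obtain ⟨s, hs0, hs1, h2, -, -⟩ := pow_facts ha1 ha2
  rw [h2]
  have : s ^ 5 < 1 := pow_lt_one₀ hs0.le hs1 (by norm_num)
  linarith

lemma sym_gam' (ha1 : 1 < a) (ha2 : a < 2) : Sym (gam' a) := by
  refine ⟨gam'_zero_pos ha1 ha2, ?_, fun j hj => gam'_nonpos ha1 ha2 hj,
    fun j hj => gam'_mono ha1 ha2 hj, ?_⟩
  · intro j
    unfold gam'
    have h1 : gam a (-j - 1) = gam a (j + 1) := by rw [← gam_even]; congr 1; ring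
    have h2 : gam a (-j + 1) = gam a (j - 1) := by rw [← gam_even]; congr 1; ring
    rw [h1, h2, gam_even]
    ring
  · intro R
    have h1 : ∑ j ∈ Icc (-(R : ℤ)) R, gam' a j =
        - ∑ j ∈ Icc (-(R : ℤ)) R, (gam a (j + 1) - 2 * gam a j + gam a (j - 1)) := by
      rw [← Finset.sum_neg_distrib]
      refine Finset.sum_congr rfl fun j _ => ?_
      unfold gam'
      ring
    rw [h1, sum_second]
    have h2 : gam a (-(R : ℤ) - 1) = gam a (R + 1) := by rw [← gam_even]; congr 1; ring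
    rw [h2, gam_even]
    have := gam_anti ha1 ha2 (show (0 : ℤ) ≤ R by positivity)
    linarith

end FGN
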