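import Mathlib

/-!
# Walks killed above a level: cycle lemma and a bound for the landing sum
-/

open Finset

namespace FGN

section general

set_option linter.unusedSectionVars false

variable {ι : Type*} [Fintype ι] (st : ι → ℤ) (w : ι → ℝ)

/-- Weight of the walks with `m` steps staying at or below `b` before the last step and ending
at `k`. -/
noncomputable def Dw : ℕ → ℤ → ℤ → ℝ
  | 0, _, k => if k = 0 then 1 else 0
  | m + 1, b, k => if 0 ≤ b then ∑ z, w z * Dw m (b - st z) (k - st z) else 0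

/-- Weight of the walks with `m` steps ending at `k`. -/
noncomputable def cw : ℕ → ℤ → ℝ
  | 0, k => if k = 0 then 1 else 0
  | m + 1, k => ∑ z, w z * cw m (k - st z)

lemma Dw_zero (b k : ℤ) : Dw st w 0 b k = if k = 0 then 1 else 0 := by simp [Dw]

lemma Dw_succ (m : ℕ) (b k : ℤ) :
    Dw st w (m + 1) b k = if 0 ≤ b then ∑ z, w z * Dw st w m (b - st z) (k - st z) else 0 := by
  rw [Dw]

lemma cw_succ (m : ℕ) (k : ℤ) : cw st w (m + 1) k = ∑ z, w z * cw st w m (k - st z) := by
  rw [cw]

lemma Dw_succ_neg (m : ℕ) {b : ℤ} (hb : b < 0) (k : ℤ) : Dw st w (m + 1) b k = 0 := by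
  rw [Dw_succ, if_neg (by omega)]

lemma Dw_nonneg (hw : ∀ z, 0 ≤ w z) (m : ℕ) : ∀ b k : ℤ, 0 ≤ Dw st w m b k := by
  induction m with
  | zero => intro b k; rw [Dw_zero]; split_ifs <;> norm_num
  | succ m ih =>
    intro b k
    rw [Dw_succ]
    split_ifs
    · exact Finset.sum_nonneg fun z _ => mul_nonneg (hw z) (ih _ _)
    · exact le_rfl

/-- running sums of a finite sequence of steps -/
def ps {m : ℕ} (s : Fin m → ι) (j : ℕ) : ℤ := ∑ i : Fin m, if (i : ℕ) < j then st (s i) else 0

lemma ps_zero {m : ℕ} (s : Fin m → ι) : ps st s 0 = 0 := by simp [ps]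

lemma ps_cons {m : ℕ} (z : ι) (s : Fin m → ι) (j : ℕ) :
    ps st (Fin.cons z s : Fin (m + 1) → ι) (j + 1) = st z + ps st s j := by
  simp [ps, Fin.sum_univ_succ]

lemma sum_cons {m : ℕ} (F : (Fin (m + 1) → ι) → ℝ) :
    ∑ s : Fin (m + 1) → ι, F s = ∑ z : ι, ∑ s : Fin m → ι, F (Fin.cons z s) := by
  rw [← (Fin.consEquiv (fun _ => ι)).sum_comp, Fintype.sum_prod_type]
  rfl

lemma Dw_eq (m : ℕ) : ∀ b k : ℤ, Dw st w m b k =
    ∑ s : Fin m → ι, (∏ i, w (s i)) *
      (if (∀ j < m, ps st s j ≤ b) ∧ ps st s m = k then 1 else 0) := by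
  induction m with
  | zero =>
    intro b k
    rw [Dw_zero]
    simp [ps, eq_comm]
  | succ m ih =>
    intro b k
    rw [Dw_succ, sum_cons]
    by_cases hb : 0 ≤ b
    · rw [if_pos hb]
      refine Finset.sum_congr rfl fun z _ => ?_
      rw [ih, Finset.mul_sum]
      refine Finset.sum_congr rfl fun s _ => ?_
      rw [Fin.prod_univ_succ, Fin.cons_zero]
      simp only [Fin.cons_succ]
      rw [mul_assoc]
      congr 2
      have : ((∀ j < m + 1, ps st (Fin.cons z s : Fin (m + 1) → ι) j ≤ b) ∧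
          ps st (Fin.cons z s : Fin (m + 1) → ι) (m + 1) = k) ↔
          ((∀ j < m, ps st s j ≤ b - st z) ∧ ps st s m = k - st z) := by
        rw [ps_cons]
        constructor
        · rintro ⟨h1, h2⟩
          refine ⟨fun j hj => ?_, by omega⟩
          have := h1 (j + 1) (by omega)
          rw [ps_cons] at this
          omega
        · rintro ⟨h1, h2⟩
          refine ⟨fun j hj => ?_, by omega⟩
          rcases j with _ | j
          · rw [ps_zero]; exact hb
          · rw [ps_cons]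
            have := h1 j (by omega)
            omega
      simp only [this]
    · rw [if_neg hb]
      symm
      refine Finset.sum_eq_zero fun z _ => Finset.sum_eq_zero fun s _ => ?_
      rw [if_neg, mul_zero]
      rintro ⟨h1, -⟩
      have := h1 0 (by omega)
      rw [ps_zero] at this
      exact hb this

lemma cw_eq (m : ℕ) : ∀ k : ℤ, cw st w m k =
    ∑ s : Fin m → ι, (∏ i, w (s i)) * (if ps st s m = k then 1 else 0) := by
  induction m with
  | zero =>
    intro k
    simp [cw, ps, eq_comm]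
  | succ m ih =>
    intro k
    rw [cw_succ, sum_cons]
    refine Finset.sum_congr rfl fun z _ => ?_
    rw [ih, Finset.mul_sum]
    refine Finset.sum_congr rfl fun s _ => ?_
    rw [Fin.prod_univ_succ, Fin.cons_zero]
    simp only [Fin.cons_succ]
    rw [mul_assoc]
    congr 2
    have : (ps st (Fin.cons z s : Fin (m + 1) → ι) (m + 1) = k) ↔ (ps st s m = k - st z) := by
      rw [ps_cons]
      constructor <;> intro h <;> omega
    simp only [this]

lemma ofNat_add' (n i c : ℕ) :
    Fin.ofNat (n + 1) (i + c) = Fin.ofNat (n + 1) i + Fin.ofNat (n + 1) c := by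
  ext
  simp [Fin.val_add, Nat.add_mod]

lemma ofNat_self' (n : ℕ) (i : Fin (n + 1)) : Fin.ofNat (n + 1) (i : ℕ) = i := by
  ext
  simp

/-- periodic sums -/
def Xs {n : ℕ} (s : Fin (n + 1) → ι) (j : ℕ) : ℤ :=
  ∑ i ∈ range j, st (s (Fin.ofNat (n + 1) i))

lemma Xs_eq_ps {n : ℕ} (s : Fin (n + 1) → ι) {j : ℕ} (hj : j ≤ n + 1) :
    Xs st s j = ps st s j := by
  have h1 : ps st s j = ∑ i ∈ range (n + 1),
      if i < j then st (s (Fin.ofNat (n + 1) i)) else 0 := by
    rw [← Fin.sum_univ_eq_sum_range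
      (fun i => if i < j then st (s (Fin.ofNat (n + 1) i)) else 0) (n + 1)]
    simp [ps]
  rw [h1, ← Finset.sum_filter]
  unfold Xs
  refine Finset.sum_congr ?_ fun _ _ => rfl
  ext i
  simp only [mem_range, mem_filter]
  omega

lemma Xs_period {n : ℕ} (s : Fin (n + 1) → ι) (j : ℕ) :
    Xs st s (j + (n + 1)) = Xs st s j + Xs st s (n + 1) := by
  unfold Xs
  rw [add_comm j, Finset.sum_range_add, add_comm]
  congr 1
  refine Finset.sum_congr rfl fun i _ => ?_
  have h1 : Fin.ofNat (n + 1) (n + 1 + i) = Fin.ofNat (n + 1) i := by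
    ext
    simp
  rw [h1]

lemma Xs_rot {n : ℕ} (s : Fin (n + 1) → ι) (c j : ℕ) :
    Xs st (fun i => s (i + Fin.ofNat (n + 1) c)) j = Xs st s (c + j) - Xs st s c := by
  unfold Xs
  rw [Finset.sum_range_add, add_sub_cancel_left]
  refine Finset.sum_congr rfl fun i _ => ?_
  rw [add_comm c i, ofNat_add']

/-- window maximum -/
def Mx (n : ℕ) (x : ℕ → ℤ) (c : ℕ) : ℤ := (range (n + 1)).sup' (by simp) fun j => x (c + j)

lemma Mx_succ (n : ℕ) (x : ℕ → ℤ) (c : ℕ) (h : x c ≤ x (c + (n + 1))) :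
    Mx n x (c + 1) = max (Mx n x c) (x (c + (n + 1))) := by
  apply le_antisymm
  · refine Finset.sup'_le _ _ fun j hj => ?_
    rw [mem_range] at hj
    by_cases hj' : j = n
    · subst hj'
      exact le_max_of_le_right (le_of_eq (by congr 1; omega))
    · refine le_max_of_le_left ?_
      have := Finset.le_sup' (fun j => x (c + j)) (show j + 1 ∈ range (n + 1) by
        rw [mem_range]; omega)
      refine le_trans (le_of_eq ?_) this
      congr 1; omega
  · refine max_le ?_ ?_
    · refine Finset.sup'_le _ _ fun j hj => ?_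
      rw [mem_range] at hj
      rcases j with _ | j
      · refine le_trans h ?_
        have := Finset.le_sup' (fun j => x (c + 1 + j)) (show n ∈ range (n + 1) by simp)
        refine le_trans (le_of_eq ?_) this
        congr 1; omega
      · have := Finset.le_sup' (fun j => x (c + 1 + j)) (show j ∈ range (n + 1) by
          rw [mem_range]; omega)
        refine le_trans (le_of_eq ?_) this
        congr 1; omega
    · have := Finset.le_sup' (fun j => x (c + 1 + j)) (show n ∈ range (n + 1) by simp)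
      refine le_trans (le_of_eq ?_) this
      congr 1; omega

/-- number of levels `b < k` above the window maximum -/
def cnt (n : ℕ) (k : ℕ) (x : ℕ → ℤ) (c : ℕ) : ℕ :=
  ((range k).filter fun b : ℕ => ∀ j < n + 1, x (c + j) - x c ≤ (b : ℤ)).card

lemma cnt_eq (n k : ℕ) (x : ℕ → ℤ) (c : ℕ) (h : x (c + (n + 1)) = x c + k) :
    (cnt n k x c : ℤ) = Mx n x (c + 1) - Mx n x c := by
  rw [Mx_succ n x c (by omega)]
  have hM : x c ≤ Mx n x c := by
    have := Finset.le_sup' (fun j => x (c + j)) (show 0 ∈ range (n + 1) by simp)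
    exact le_trans (le_of_eq (by simp)) this
  have h1 : ((range k).filter fun b : ℕ => ∀ j < n + 1, x (c + j) - x c ≤ (b : ℤ)) =
      Ico (Mx n x c - x c).toNat k := by
    ext b
    simp only [mem_filter, mem_range, mem_Ico]
    constructor
    · rintro ⟨hb, hj⟩
      refine ⟨?_, hb⟩
      have : Mx n x c ≤ x c + b := by
        refine Finset.sup'_le _ _ fun j hj' => ?_
        have := hj j (mem_range.mp hj')
        omega
      omega
    · rintro ⟨hb, hk⟩
      refine ⟨hk, fun j hj' => ?_⟩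
      have := Finset.le_sup' (fun j => x (c + j)) (mem_range.mpr hj')
      have h3 : x (c + j) ≤ Mx n x c := this
      omega
  unfold cnt
  rw [h1, Nat.card_Ico, h]
  rcases le_total (Mx n x c) (x c + k) with h2 | h2
  · rw [max_eq_right h2]
    omega
  · rw [max_eq_left h2]
    omega

lemma sum_cnt (n k : ℕ) (x : ℕ → ℤ) (h : ∀ c, x (c + (n + 1)) = x c + k) :
    ∑ c ∈ range (n + 1), cnt n k x c = k := by
  have h1 : ((∑ c ∈ range (n + 1), cnt n k x c : ℕ) : ℤ) = k := by
    push_cast
    rw [Finset.sum_congr rfl fun c _ => cnt_eq n k x c (h c), Finset.sum_range_sub]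
    have : Mx n x (n + 1) = Mx n x 0 + k := by
      unfold Mx
      apply le_antisymm
      · refine Finset.sup'_le _ _ fun j hj => ?_
        have h2 := h j
        have := Finset.le_sup' (fun j => x (0 + j)) hj
        have h3 : x j ≤ (range (n + 1)).sup' (by simp) fun j => x (0 + j) := by
          refine le_trans (le_of_eq ?_) this
          simp
        rw [show n + 1 + j = j + (n + 1) by ring, h2]
        omega
      · rw [← le_sub_iff_add_le]
        refine Finset.sup'_le _ _ fun j hj => ?_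
        have h2 := h j
        have := Finset.le_sup' (fun j => x (n + 1 + j)) hj
        have h3 : x (n + 1 + j) ≤ (range (n + 1)).sup' (by simp) fun j => x (n + 1 + j) := this
        rw [show n + 1 + j = j + (n + 1) by ring, h2] at h3
        rw [zero_add]
        omega
    omega
  exact_mod_cast h1

/-- **Cycle lemma.** -/
lemma cycle (n k : ℕ) :
    ((n : ℝ) + 1) * ∑ b ∈ range k, Dw st w (n + 1) (b : ℤ) (k : ℤ) =
      (k : ℝ) * cw st w (n + 1) (k : ℤ) := by
  -- the landing sum as a sum over sequences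
  have hA : ∑ b ∈ range k, Dw st w (n + 1) (b : ℤ) (k : ℤ) =
      ∑ s : Fin (n + 1) → ι, (∏ i, w (s i)) *
        (if Xs st s (n + 1) = k then (cnt n k (Xs st s) 0 : ℝ) else 0) := by
    have h0 : ∀ b : ℕ, Dw st w (n + 1) (b : ℤ) (k : ℤ) = _ := fun b =>
      Dw_eq st w (n + 1) (b : ℤ) (k : ℤ)
    simp only [h0]
    rw [Finset.sum_comm]
    refine Finset.sum_congr rfl fun s _ => ?_
    rw [← Finset.mul_sum]
    congr 1
    rw [Xs_eq_ps st s le_rfl]
    by_cases hk : ps st s (n + 1) = k
    · rw [if_pos hk]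
      unfold cnt
      rw [Finset.card_filter]
      push_cast
      refine Finset.sum_congr rfl fun b _ => ?_
      have : ((∀ j < n + 1, ps st s j ≤ (b : ℤ)) ∧ ps st s (n + 1) = (k : ℤ)) ↔
          (∀ j < n + 1, Xs st s (0 + j) - Xs st s 0 ≤ (b : ℤ)) := by
        have h0 : Xs st s 0 = 0 := by simp [Xs]
        constructor
        · rintro ⟨h1, -⟩ j hj
          rw [zero_add, h0, sub_zero, Xs_eq_ps st s (by omega)]
          exact h1 j hj
        · intro h1
          refine ⟨fun j hj => ?_, hk⟩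
          have := h1 j hj
          rwa [zero_add, h0, sub_zero, Xs_eq_ps st s (by omega)] at this
      simp only [this]
    · rw [if_neg hk]
      refine Finset.sum_eq_zero fun b _ => ?_
      rw [if_neg]
      rintro ⟨-, h⟩
      exact hk h
  -- rotation invariance
  have hrot : ∀ c : ℕ, ∑ b ∈ range k, Dw st w (n + 1) (b : ℤ) (k : ℤ) =
      ∑ s : Fin (n + 1) → ι, (∏ i, w (s i)) *
        (if Xs st s (n + 1) = k then (cnt n k (Xs st s) c : ℝ) else 0) := by
    intro c
    rw [hA]
    let e : (Fin (n + 1) → ι) ≃ (Fin (n + 1) → ι) :=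
      (Equiv.addRight (Fin.ofNat (n + 1) c)).symm.arrowCongr (Equiv.refl ι)
    have he : ∀ s i, e s i = s (i + Fin.ofNat (n + 1) c) := by
      intro s i
      simp [e, Equiv.arrowCongr]
    rw [← e.sum_comp]
    refine Finset.sum_congr rfl fun s _ => ?_
    have h1 : ∏ i, w (e s i) = ∏ i, w (s i) := by
      refine Fintype.prod_equiv (Equiv.addRight (Fin.ofNat (n + 1) c)) _ _ fun i => ?_
      rw [he]
      rfl
    have h2 : ∀ j, Xs st (e s) j = Xs st s (c + j) - Xs st s c := by
      intro j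
      rw [← Xs_rot]
      congr 1
    rw [h1]
    congr 1
    have h3 : Xs st (e s) (n + 1) = Xs st s (n + 1) := by
      rw [h2, Xs_period, add_sub_cancel_left]
    rw [h3]
    congr 1
    unfold cnt
    congr 2
    ext b
    have h0 : Xs st (e s) 0 = 0 := by simp [Xs]
    simp only [zero_add, h0, h2, sub_zero]
  have hsum : ((n : ℝ) + 1) * ∑ b ∈ range k, Dw st w (n + 1) (b : ℤ) (k : ℤ) =
      ∑ c ∈ range (n + 1), ∑ s : Fin (n + 1) → ι, (∏ i, w (s i)) *
        (if Xs st s (n + 1) = k then (cnt n k (Xs st s) c : ℝ) else 0) := by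
    rw [Finset.sum_congr rfl fun c _ => (hrot c).symm, Finset.sum_const, card_range, nsmul_eq_mul]
    push_cast
    rfl
  rw [hsum, Finset.sum_comm, cw_eq, Finset.mul_sum]
  refine Finset.sum_congr rfl fun s _ => ?_
  rw [← Finset.mul_sum]
  by_cases hk : ps st s (n + 1) = k
  · have hk' : Xs st s (n + 1) = k := by rw [Xs_eq_ps st s le_rfl, hk]
    simp only [hk', if_true, hk]
    have h1 := sum_cnt n k (Xs st s) (fun c => by rw [Xs_period, hk'])
    have h2 : ∑ c ∈ range (n + 1), (cnt n k (Xs st s) c : ℝ) = k := by exact_mod_cast h1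
    rw [h2]
    ring
  · have hk' : ¬ Xs st s (n + 1) = k := by rw [Xs_eq_ps st s le_rfl]; exact hk
    simp [hk, hk']

/-- The walk leaves a half line at most once. -/
lemma sum_exit_le (hw : ∀ z, 0 ≤ w z) (hw1 : ∑ z, w z ≤ 1) (n : ℕ) :
    ∀ b K : ℤ, 0 ≤ b → ∑ m ∈ range n, ∑ j ∈ Ioc b K, Dw st w (m + 1) b j ≤ 1 := by
  induction n with
  | zero => intro b K _; simp
  | succ n ih =>
    intro b K hb
    have h1 : ∑ m ∈ range (n + 1), ∑ j ∈ Ioc b K, Dw st w (m + 1) b j =
        ∑ z, w z * ∑ m ∈ range (n + 1), ∑ j ∈ Ioc b K, Dw st w m (b - st z) (j - st z) := by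
      have h0 : ∀ m j, Dw st w (m + 1) b j = ∑ z, w z * Dw st w m (b - st z) (j - st z) := by
        intro m j; rw [Dw_succ, if_pos hb]
      simp only [h0]
      have h2 : ∀ m, ∑ j ∈ Ioc b K, ∑ z, w z * Dw st w m (b - st z) (j - st z) =
          ∑ z, w z * ∑ j ∈ Ioc b K, Dw st w m (b - st z) (j - st z) := by
        intro m
        rw [Finset.sum_comm]
        simp only [Finset.mul_sum]
      simp only [h2]
      rw [Finset.sum_comm]
      simp only [Finset.mul_sum]
    rw [h1]
    refine le_trans (Finset.sum_le_sum fun z _ => ?_) hw1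
    refine mul_le_of_le_one_right (hw z) ?_
    rw [Finset.sum_range_succ']
    by_cases hz : st z ≤ b
    · have h3 : ∑ j ∈ Ioc b K, Dw st w 0 (b - st z) (j - st z) = 0 := by
        refine Finset.sum_eq_zero fun j hj => ?_
        rw [mem_Ioc] at hj
        rw [Dw_zero, if_neg (by omega)]
      rw [h3, add_zero]
      refine le_trans (le_of_eq ?_) (ih (b - st z) (K - st z) (by omega))
      refine Finset.sum_congr rfl fun m _ => ?_
      refine Finset.sum_nbij' (fun j => j - st z) (fun j => j + st z) ?_ ?_ ?_ ?_ ?_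
      · intro j hj; rw [mem_Ioc] at hj ⊢; omega
      · intro j hj; rw [mem_Ioc] at hj ⊢; omega
      · intro j _; ring
      · intro j _; ring
      · intro j _; rfl
    · have h3 : ∑ m ∈ range n, ∑ j ∈ Ioc b K, Dw st w (m + 1) (b - st z) (j - st z) = 0 :=
        Finset.sum_eq_zero fun m _ => Finset.sum_eq_zero fun j _ =>
          Dw_succ_neg st w m (by omega) _
      rw [h3, zero_add]
      simp only [Dw_zero]
      rw [← Finset.sum_filter]
      have h4 : (Ioc b K).filter (fun j => j - st z = 0) ⊆ {st z} := by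
        intro j hj
        rw [mem_filter] at hj
        rw [mem_singleton]
        omega
      calc ∑ j ∈ (Ioc b K).filter (fun j => j - st z = 0), (1 : ℝ)
          ≤ ∑ j ∈ ({st z} : Finset ℤ), (1 : ℝ) :=
            Finset.sum_le_sum_of_subset_of_nonneg h4 fun _ _ _ => zero_le_one
        _ = 1 := by simp

end general

/-! ### Unimodal kernels -/

/-- even and nonincreasing away from the origin -/
def Unim (c : ℤ → ℝ) : Prop := (∀ k, c (-k) = c k) ∧ ∀ k, 0 ≤ k → c (k + 1) ≤ c k

lemma Unim.le {c : ℤ → ℝ} (h : Unim c) {x y : ℤ} (hxy : |x| ≤ |y|) : c y ≤ c x := by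
  have h1 : ∀ z : ℤ, c |z| = c z := by
    intro z
    rcases abs_choice z with h2 | h2
    · rw [h2]
    · rw [h2, h.1]
  rw [← h1 x, ← h1 y]
  have h2 : ∀ (n : ℕ) (a : ℤ), 0 ≤ a → c (a + n) ≤ c a := by
    intro n
    induction n with
    | zero => intro a _; simp
    | succ n ih =>
      intro a ha
      have := h.2 (a + n) (by omega)
      refine le_trans ?_ (ih a ha)
      push_cast
      rwa [← add_assoc]
  have h3 := h2 (|y| - |x|).toNat |x| (abs_nonneg x)
  have h4 : |x| + ((|y| - |x|).toNat : ℤ) = |y| := by omega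
  rwa [h4] at h3

lemma Unim.conv {R : ℕ} {p c : ℤ → ℝ} (hp : Unim p) (hR : ∀ j : ℤ, (R : ℤ) < |j| → p j = 0)
    (hc : Unim c) : Unim fun k => ∑ z ∈ Icc (-(R : ℤ)) R, p z * c (k - z) := by
  constructor
  · intro k
    refine Finset.sum_nbij' (fun j => -j) (fun j => -j) ?_ ?_ ?_ ?_ ?_
    · intro j hj; rw [mem_Icc] at hj ⊢; omega
    · intro j hj; rw [mem_Icc] at hj ⊢; omega
    · intro j _; ring
    · intro j _; ring
    · intro j _
      rw [hp.1, ← hc.1]
      congr 2
      ring
  · intro k hk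
    have hext : ∀ (F : ℤ → ℝ), ∑ z ∈ Icc (-(R : ℤ)) R, p z * F z =
        ∑ z ∈ Icc (-(R : ℤ)) (2 * k + 1 + R), p z * F z := by
      intro F
      refine Finset.sum_subset ?_ ?_
      · intro z hz; rw [mem_Icc] at hz ⊢; omega
      · intro z _ hz2
        rw [mem_Icc] at hz2
        rw [hR z, zero_mul]
        by_contra hcon
        rw [not_lt, abs_le] at hcon
        exact hz2 hcon
    have hd : ∑ z ∈ Icc (-(R : ℤ)) R, p z * c (k - z) -
        ∑ z ∈ Icc (-(R : ℤ)) R, p z * c (k + 1 - z) =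
        ∑ z ∈ Icc (-(R : ℤ)) (2 * k + 1 + R), p z * (c (k - z) - c (k + 1 - z)) := by
      rw [← Finset.sum_sub_distrib, ← hext fun z => c (k - z) - c (k + 1 - z)]
      refine Finset.sum_congr rfl fun z _ => ?_
      ring
    have hr : ∑ z ∈ Icc (-(R : ℤ)) (2 * k + 1 + R), p z * (c (k - z) - c (k + 1 - z)) =
        ∑ z ∈ Icc (-(R : ℤ)) (2 * k + 1 + R),
          p (2 * k + 1 - z) * (c (k + 1 - z) - c (k - z)) := by
      refine Finset.sum_nbij' (fun j => 2 * k + 1 - j) (fun j => 2 * k + 1 - j) ?_ ?_ ?_ ?_ ?_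
      · intro j hj; rw [mem_Icc] at hj ⊢; omega
      · intro j hj; rw [mem_Icc] at hj ⊢; omega
      · intro j _; ring
      · intro j _; ring
      · intro j _
        have e1 : 2 * k + 1 - (2 * k + 1 - j) = j := by ring
        have e2 : c (k + 1 - (2 * k + 1 - j)) = c (k - j) := by
          rw [← hc.1]; congr 1; ring
        have e3 : c (k - (2 * k + 1 - j)) = c (k + 1 - j) := by
          rw [← hc.1]; congr 1; ring
        simp only [e1, e2, e3]
    have h2 : 0 ≤ 2 * (∑ z ∈ Icc (-(R : ℤ)) (2 * k + 1 + R), p z * (c (k - z) - c (k + 1 - z))) := by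
      rw [two_mul]
      nth_rewrite 2 [hr]
      rw [← Finset.sum_add_distrib]
      refine Finset.sum_nonneg fun z _ => ?_
      have h3 : p z * (c (k - z) - c (k + 1 - z)) +
          p (2 * k + 1 - z) * (c (k + 1 - z) - c (k - z)) =
          (p z - p (2 * k + 1 - z)) * (c (k - z) - c (k + 1 - z)) := by ring
      rw [h3]
      rcases le_or_gt z k with hz | hz
      · refine mul_nonneg (sub_nonneg.mpr (hp.le ?_)) (sub_nonneg.mpr (hc.le ?_))
        · rw [abs_le, abs_of_nonneg (by omega : (0 : ℤ) ≤ 2 * k + 1 - z)]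
          omega
        · rw [abs_of_nonneg (by omega : (0 : ℤ) ≤ k - z),
            abs_of_nonneg (by omega : (0 : ℤ) ≤ k + 1 - z)]
          omega
      · refine mul_nonneg_of_nonpos_of_nonpos (sub_nonpos.mpr (hp.le ?_))
          (sub_nonpos.mpr (hc.le ?_))
        · rw [abs_le, abs_of_nonneg (by omega : (0 : ℤ) ≤ z)]
          omega
        · rw [abs_of_nonpos (by omega : k - z ≤ (0 : ℤ)),
            abs_of_nonpos (by omega : k + 1 - z ≤ (0 : ℤ))]
          omega
    have h3 := hd
    simp only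
    linarith

section unimodal

variable {R : ℕ} {p : ℤ → ℝ}

/-- step values of the walk with kernel supported in `[-R, R]` -/
def stp (R : ℕ) (z : ↥(Icc (-(R : ℤ)) R)) : ℤ := z

/-- step weights -/
def wtp (R : ℕ) (p : ℤ → ℝ) (z : ↥(Icc (-(R : ℤ)) R)) : ℝ := p z

lemma sum_wtp (R : ℕ) (p F : ℤ → ℝ) :
    ∑ z : ↥(Icc (-(R : ℤ)) R), wtp R p z * F (stp R z) = ∑ z ∈ Icc (-(R : ℤ)) R, p z * F z := by
  rw [← Finset.sum_coe_sort (Icc (-(R : ℤ)) R)]
  rfl

lemma unim_cw (hp : Unim p) (hR : ∀ j : ℤ, (R : ℤ) < |j| → p j = 0) (m : ℕ) :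
    Unim (cw (stp R) (wtp R p) m) := by
  induction m with
  | zero =>
    constructor
    · intro k; simp [cw]
    · intro k hk
      simp only [cw]
      rw [if_neg (by omega)]
      split_ifs <;> norm_num
  | succ m ih =>
    have h1 : cw (stp R) (wtp R p) (m + 1) =
        fun k => ∑ z ∈ Icc (-(R : ℤ)) R, p z * cw (stp R) (wtp R p) m (k - z) := by
      funext k
      rw [cw_succ, ← sum_wtp R p (fun z => cw (stp R) (wtp R p) m (k - z))]
    rw [h1]
    exact hp.conv hR ih

/-- **Landing bound.** -/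
lemma landing (hp : Unim p) (hp0 : ∀ j, 0 ≤ p j) (hR : ∀ j : ℤ, (R : ℤ) < |j| → p j = 0)
    (hp1 : ∑ z ∈ Icc (-(R : ℤ)) R, p z ≤ 1) (n k : ℕ) (hk : 1 ≤ k) :
    ∑ m ∈ range n, ∑ b ∈ range k, Dw (stp R) (wtp R p) (m + 1) (b : ℤ) (k : ℤ) ≤ 2 := by
  set D := Dw (stp R) (wtp R p) with hD
  set c := cw (stp R) (wtp R p) with hc
  have hw : ∀ z, 0 ≤ wtp R p z := fun z => hp0 _
  have hw1 : ∑ z, wtp R p z ≤ 1 := by
    have := sum_wtp R p (fun _ => 1)
    simp only [mul_one] at this
    rw [this]; exact hp1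
  -- the sum as `j * ν j`
  have hν : ∀ j : ℕ, ∑ m ∈ range n, ∑ b ∈ range j, D (m + 1) (b : ℤ) (j : ℤ) =
      (j : ℝ) * ∑ m ∈ range n, c (m + 1) (j : ℤ) / ((m : ℝ) + 1) := by
    intro j
    rw [Finset.mul_sum]
    refine Finset.sum_congr rfl fun m _ => ?_
    have := cycle (stp R) (wtp R p) m j
    have hm : (0 : ℝ) < (m : ℝ) + 1 := by positivity
    field_simp
    linarith
  have hmono : ∀ j : ℕ, j ≤ k → ∑ m ∈ range n, c (m + 1) (k : ℤ) / ((m : ℝ) + 1) ≤
      ∑ m ∈ range n, c (m + 1) (j : ℤ) / ((m : ℝ) + 1) := by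
    intro j hj
    refine Finset.sum_le_sum fun m _ => ?_
    have hm : (0 : ℝ) < (m : ℝ) + 1 := by positivity
    refine div_le_div_of_nonneg_right ((unim_cw hp hR (m + 1)).le ?_) hm.le
    rw [abs_of_nonneg (by positivity), abs_of_nonneg (by positivity)]
    exact_mod_cast hj
  -- mean bound
  have hmean : ∑ j ∈ range (k + 1), ∑ m ∈ range n, ∑ b ∈ range j, D (m + 1) (b : ℤ) (j : ℤ) ≤ k := by
    have h1 : ∑ j ∈ range (k + 1), ∑ m ∈ range n, ∑ b ∈ range j, D (m + 1) (b : ℤ) (j : ℤ) =
        ∑ b ∈ range k, ∑ m ∈ range n, ∑ j ∈ Ioc (b : ℤ) (k : ℤ), D (m + 1) (b : ℤ) j := by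
      have h2 : ∀ m, ∑ j ∈ range (k + 1), ∑ b ∈ range j, D (m + 1) (b : ℤ) (j : ℤ) =
          ∑ b ∈ range k, ∑ j ∈ Ioc (b : ℤ) (k : ℤ), D (m + 1) (b : ℤ) j := by
        intro m
        have h3 : ∀ b : ℕ, ∑ j ∈ Ioc (b : ℤ) (k : ℤ), D (m + 1) (b : ℤ) j =
            ∑ j ∈ Ioc b k, D (m + 1) (b : ℤ) (j : ℤ) := by
          intro b
          refine Finset.sum_nbij' (fun j => j.toNat) (fun j => (j : ℤ)) ?_ ?_ ?_ ?_ ?_
          · intro j hj; rw [mem_Ioc] at hj ⊢; omega
          · intro j hj; rw [mem_Ioc] at hj ⊢; omega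
          · intro j hj; rw [mem_Ioc] at hj; omega
          · intro j _; simp
          · intro j hj
            rw [mem_Ioc] at hj
            congr 1
            omega
        simp only [h3]
        refine Finset.sum_comm' ?_
        intro j b
        simp only [mem_range, mem_Ioc]
        omega
      rw [Finset.sum_comm, Finset.sum_congr rfl fun m _ => h2 m, Finset.sum_comm]
    rw [h1]
    calc ∑ b ∈ range k, ∑ m ∈ range n, ∑ j ∈ Ioc (b : ℤ) (k : ℤ), D (m + 1) (b : ℤ) j
        ≤ ∑ b ∈ range k, (1 : ℝ) := Finset.sum_le_sum fun b _ =>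
          sum_exit_le (stp R) (wtp R p) hw hw1 n b k (by positivity)
      _ = k := by simp
  rw [hν k]
  set ν := ∑ m ∈ range n, c (m + 1) (k : ℤ) / ((m : ℝ) + 1) with hνdef
  have h4 : ∑ j ∈ range (k + 1), (j : ℝ) * ν ≤ k := by
    refine le_trans (Finset.sum_le_sum fun j hj => ?_) hmean
    rw [hν j]
    rw [mem_range] at hj
    exact mul_le_mul_of_nonneg_left (hmono j (by omega)) (Nat.cast_nonneg j)
  rw [← Finset.sum_mul] at h4
  have h5 : ∑ j ∈ range (k + 1), (j : ℝ) = k * (k + 1) / 2 := by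
    have := Finset.sum_range_id_mul_two (k + 1)
    rw [Nat.add_sub_cancel] at this
    have h6 := congrArg (Nat.cast (R := ℝ)) this
    push_cast at h6
    linarith
  rw [h5] at h4
  have hk' : (1 : ℝ) ≤ k := by exact_mod_cast hk
  have h7 : (k + 1) * ν ≤ 2 := by
    have : (k : ℝ) * ((k + 1) * ν) ≤ k * 2 := by nlinarith
    exact le_of_mul_le_mul_left this (by linarith)
  by_cases hν0 : 0 ≤ ν
  · nlinarith
  · rw [not_le] at hν0
    nlinarith

end unimodal

end FGN
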